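import Mathlib

namespace OpenConv3d0876

section abstract

variable {R : Type*} [NormedRing R] [NormedAlgebra ℂ R] [CompleteSpace R]

lemma exists_scalar {ε : ℝ} (hε : 0 < ε) : ∃ c : ℂ, c ≠ 0 ∧ ‖c • (1 : R)‖ < ε := by
  refine ⟨((ε / (2 * (‖(1 : R)‖ + 1)) : ℝ) : ℂ), ?_, ?_⟩
  · have : (ε / (2 * (‖(1 : R)‖ + 1)) : ℝ) ≠ 0 := by positivity
    exact_mod_cast this
  · rw [norm_smul, Complex.norm_real, Real.norm_eq_abs, abs_of_nonneg (by positivity),
      div_mul_eq_mul_div, div_lt_iff₀ (by positivity)]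
    nlinarith [norm_nonneg (1 : R)]

lemma exists_mem_of_open (hopen : IsOpenMap (fun p : R × R => p.1 * p.2)) {a b : R}
    {V : Set (R × R)} (hV : IsOpen V) (hab : (a, b) ∈ V) (h : a * b = 0) {ε : ℝ} (hε : 0 < ε) :
    ∃ p ∈ V, ∃ c : ℂ, c ≠ 0 ∧ ‖c • (1 : R)‖ < ε ∧ p.1 * p.2 = c • 1 := by
  have himg := hopen V hV
  have h0 : (0 : R) ∈ (fun p : R × R => p.1 * p.2) '' V := ⟨(a, b), hab, h⟩
  obtain ⟨δ, hδ, hball⟩ := Metric.isOpen_iff.1 himg 0 h0
  obtain ⟨c, hc, hcn⟩ := exists_scalar (R := R) (lt_min hδ hε)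
  obtain ⟨p, hp, hpc⟩ := hball (show c • (1 : R) ∈ Metric.ball 0 δ by
    rw [mem_ball_zero_iff]; exact hcn.trans_le (min_le_left _ _))
  exact ⟨p, hp, c, hc, hcn.trans_le (min_le_right _ _), hpc⟩

lemma dense_units (hopen : IsOpenMap (fun p : R × R => p.1 * p.2)) (a : R) {ε : ℝ} (hε : 0 < ε) :
    ∃ u : Rˣ, ‖a - u‖ < ε := by
  -- a right-invertible element near `a`
  obtain ⟨p, hp, c, hc, -, hpc⟩ := exists_mem_of_open hopen (a := a) (b := 0)
    (V := Metric.ball a (ε / 2) ×ˢ Set.univ) (Metric.isOpen_ball.prod isOpen_univ)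
    ⟨Metric.mem_ball_self (by positivity), Set.mem_univ _⟩ (mul_zero a) one_pos
  set x := p.1 with hx
  set y := c⁻¹ • p.2 with hy
  have hxy : x * y = 1 := by
    rw [hy, mul_smul_comm, hpc, smul_smul, inv_mul_cancel₀ hc, one_smul]
  have hax : ‖a - x‖ < ε / 2 := by
    have := hp.1
    rwa [Metric.mem_ball, dist_eq_norm, norm_sub_rev] at this
  -- right invertible elements near `x`
  set ρ : ℝ := min (ε / 2) (1 / (2 * (‖y‖ + 1))) with hρ
  have hρ0 : 0 < ρ := lt_min (by positivity) (by positivity)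
  obtain ⟨q, hq, d, hd, -, hqd⟩ := exists_mem_of_open hopen (a := 0) (b := x)
    (V := Set.univ ×ˢ Metric.ball x ρ) (isOpen_univ.prod Metric.isOpen_ball)
    ⟨Set.mem_univ _, Metric.mem_ball_self hρ0⟩ (zero_mul x) one_pos
  set x' := q.2 with hx'
  set z := d⁻¹ • q.1 with hz
  have hzx : z * x' = 1 := by
    rw [hz, smul_mul_assoc, hqd, smul_smul, inv_mul_cancel₀ hd, one_smul]
  have hxx' : ‖x - x'‖ < ρ := by
    have := hq.2
    rwa [Metric.mem_ball, dist_eq_norm, norm_sub_rev] at this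
  have hsmall : ‖(x - x') * y‖ < 1 := by
    refine (norm_mul_le _ _).trans_lt ?_
    have h1 : ‖x - x'‖ < 1 / (2 * (‖y‖ + 1)) := hxx'.trans_le (min_le_right _ _)
    have h2 : ‖x - x'‖ * (2 * (‖y‖ + 1)) < 1 := by
      rwa [lt_div_iff₀ (by positivity)] at h1
    nlinarith [norm_nonneg y, norm_nonneg (x - x')]
  set v : Rˣ := Units.oneSub ((x - x') * y) hsmall with hv
  have hv' : (v : R) = x' * y := by
    rw [hv, Units.val_oneSub, sub_mul, hxy, sub_sub_cancel]
  have hright : x' * (y * ↑v⁻¹) = 1 := by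
    rw [← mul_assoc, ← hv', Units.mul_inv]
  have hzy : z = y * ↑v⁻¹ := by
    calc z = z * (x' * (y * ↑v⁻¹)) := by rw [hright, mul_one]
      _ = (z * x') * (y * ↑v⁻¹) := by rw [mul_assoc]
      _ = y * ↑v⁻¹ := by rw [hzx, one_mul]
  refine ⟨⟨x', z, by rw [hzy, hright], hzx⟩, ?_⟩
  have h1 : ‖x - x'‖ < ε / 2 := hxx'.trans_le (min_le_left _ _)
  calc ‖a - x'‖ ≤ ‖a - x‖ + ‖x - x'‖ := by
        have : a - x' = (a - x) + (x - x') := by abel
        rw [this]; exact norm_add_le _ _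
    _ < ε := by linarith

lemma directly_finite (hopen : IsOpenMap (fun p : R × R => p.1 * p.2)) {x y : R}
    (hxy : x * y = 1) : y * x = 1 := by
  obtain ⟨u, hu⟩ := dense_units hopen x (ε := 1 / (2 * (‖y‖ + 1))) (by positivity)
  have hsmall : ‖(x - u) * y‖ < 1 := by
    refine (norm_mul_le _ _).trans_lt ?_
    have h2 : ‖x - u‖ * (2 * (‖y‖ + 1)) < 1 := by
      rwa [lt_div_iff₀ (by positivity)] at hu
    nlinarith [norm_nonneg y, norm_nonneg (x - (u : R))]
  set v : Rˣ := Units.oneSub ((x - u) * y) hsmall with hv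
  have hv' : (v : R) = u * y := by
    rw [hv, Units.val_oneSub, sub_mul, hxy, sub_sub_cancel]
  have hy : y = ↑(u⁻¹ * v) := by
    rw [Units.val_mul, hv', ← mul_assoc, Units.inv_mul, one_mul]
  rw [hy] at hxy ⊢
  have : x = ↑((u⁻¹ * v)⁻¹) := by
    calc x = x * (↑(u⁻¹ * v) * ↑((u⁻¹ * v)⁻¹)) := by rw [Units.mul_inv, mul_one]
      _ = (x * ↑(u⁻¹ * v)) * ↑((u⁻¹ * v)⁻¹) := by rw [mul_assoc]
      _ = _ := by rw [hxy, one_mul]
  rw [this, Units.mul_inv]

lemma mul_eq_zero_symm (hopen : IsOpenMap (fun p : R × R => p.1 * p.2)) {a b : R}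
    (hab : a * b = 0) : b * a = 0 := by
  by_contra hne
  have hpos : 0 < ‖b * a‖ := norm_pos_iff.2 hne
  have hcont : Continuous (fun p : R × R => ‖p.2 * p.1‖) := by fun_prop
  obtain ⟨p, hp, c, hc, hcn, hpc⟩ := exists_mem_of_open hopen (a := a) (b := b)
    (V := (fun p : R × R => ‖p.2 * p.1‖) ⁻¹' (Set.Ioi (‖b * a‖ / 2)))
    (isOpen_Ioi.preimage hcont) (by
      rw [Set.mem_preimage, Set.mem_Ioi]
      linarith) hab (half_pos hpos)
  have h1 : p.1 * (c⁻¹ • p.2) = 1 := by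
    rw [mul_smul_comm, hpc, smul_smul, inv_mul_cancel₀ hc, one_smul]
  have h2 := directly_finite hopen h1
  have h3 : p.2 * p.1 = c • 1 := by
    rw [smul_mul_assoc] at h2
    rw [← h2, smul_smul, mul_inv_cancel₀ hc, one_smul]
  rw [Set.mem_preimage, Set.mem_Ioi, h3] at hp
  linarith

/-- **Openness forces reflexivity-type behaviour of zero products.** -/
theorem mul_mul_eq_zero (hopen : IsOpenMap (fun p : R × R => p.1 * p.2)) {a b : R}
    (hab : a * b = 0) (c : R) : a * c * b = 0 := by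
  have h1 := mul_eq_zero_symm hopen hab
  have h2 : (c * b) * a = 0 := by rw [mul_assoc, h1, mul_zero]
  have h3 := mul_eq_zero_symm hopen h2
  rwa [← mul_assoc] at h3

end abstract

section sqrt

/-- Coefficients of `1 - √(1 - w)`. -/
noncomputable def sc (n : ℕ) : ℝ := 2 * (catalan n : ℝ) / 4 ^ (n + 1)

lemma sc_nonneg (n : ℕ) : 0 ≤ sc n := by unfold sc; positivity

lemma sc_zero : sc 0 = 1 / 2 := by unfold sc; norm_num

lemma sc_conv (n : ℕ) :
    ∑ p ∈ Finset.HasAntidiagonal.antidiagonal n, sc p.1 * sc p.2 = 2 * sc (n + 1) := by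
  unfold sc
  rw [catalan_succ', Nat.cast_sum, Finset.mul_sum, Finset.sum_div, Finset.mul_sum]
  refine Finset.sum_congr rfl fun p hp => ?_
  rw [Finset.HasAntidiagonal.mem_antidiagonal] at hp
  rw [← hp]
  push_cast
  field_simp
  ring

lemma sc_sum_le (N : ℕ) : ∑ n ∈ Finset.range N, sc n ≤ 1 := by
  induction N with
  | zero => simp
  | succ N ih =>
    rw [Finset.sum_range_succ']
    have h1 : ∑ n ∈ Finset.range N, sc (n + 1) = (1 / 2) * ∑ n ∈ Finset.range N,
        ∑ p ∈ Finset.HasAntidiagonal.antidiagonal n, sc p.1 * sc p.2 := by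
      rw [Finset.mul_sum]
      refine Finset.sum_congr rfl fun n _ => ?_
      rw [sc_conv]; ring
    have h2 : ∑ n ∈ Finset.range N, ∑ p ∈ Finset.HasAntidiagonal.antidiagonal n, sc p.1 * sc p.2 ≤
        (∑ n ∈ Finset.range N, sc n) * (∑ n ∈ Finset.range N, sc n) := by
      rw [Finset.sum_mul_sum, ← Finset.sum_product']
      have h3 := Finset.sum_fiberwise_of_maps_to
        (s := (Finset.range N ×ˢ Finset.range N).filter (fun p => p.1 + p.2 < N))
        (t := Finset.range N) (g := fun p : ℕ × ℕ => p.1 + p.2)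
        (fun p hp => by
          rw [Finset.mem_filter] at hp
          exact Finset.mem_range.2 hp.2) (fun p => sc p.1 * sc p.2)
      have h4 : ∑ n ∈ Finset.range N, ∑ p ∈ Finset.HasAntidiagonal.antidiagonal n,
          sc p.1 * sc p.2 = ∑ n ∈ Finset.range N, ∑ p ∈ ((Finset.range N ×ˢ Finset.range N).filter
            (fun p => p.1 + p.2 < N)).filter (fun p => p.1 + p.2 = n), sc p.1 * sc p.2 := by
        refine Finset.sum_congr rfl fun n hn => Finset.sum_congr ?_ fun _ _ => rfl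
        rw [Finset.mem_range] at hn
        ext p
        simp only [Finset.HasAntidiagonal.mem_antidiagonal, Finset.mem_filter, Finset.mem_product,
          Finset.mem_range]
        omega
      rw [h4, h3]
      exact Finset.sum_le_sum_of_subset_of_nonneg (Finset.filter_subset _ _)
        fun p _ _ => mul_nonneg (sc_nonneg _) (sc_nonneg _)
    have h0 : 0 ≤ ∑ n ∈ Finset.range N, sc n := Finset.sum_nonneg fun n _ => sc_nonneg n
    rw [h1, sc_zero]
    nlinarith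

lemma summable_sc : Summable sc :=
  summable_of_sum_range_le sc_nonneg sc_sum_le

lemma tsum_sc_le : ∑' n, sc n ≤ 1 :=
  Real.tsum_le_of_sum_range_le sc_nonneg sc_sum_le

variable {R : Type*} [NormedRing R] [NormedAlgebra ℂ R] [CompleteSpace R]

/-- `1 - √(1 - w)`. -/
noncomputable def sq (w : R) : R := ∑' n, ((sc n : ℝ) : ℂ) • w ^ (n + 1)

lemma norm_pow_succ_le {w : R} (hw : ‖w‖ ≤ 1) (n : ℕ) : ‖w ^ (n + 1)‖ ≤ 1 :=
  (norm_pow_le' w (Nat.succ_pos n)).trans (pow_le_one₀ (norm_nonneg _) hw)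

lemma summable_norm_sq {w : R} (hw : ‖w‖ ≤ 1) :
    Summable fun n => ‖((sc n : ℝ) : ℂ) • w ^ (n + 1)‖ := by
  refine Summable.of_nonneg_of_le (fun _ => norm_nonneg _) (fun n => ?_) summable_sc
  rw [norm_smul, Complex.norm_real, Real.norm_eq_abs, abs_of_nonneg (sc_nonneg n)]
  exact mul_le_of_le_one_right (sc_nonneg n) (norm_pow_succ_le hw n)

lemma sq_mul_sq {w : R} (hw : ‖w‖ ≤ 1) : sq w * sq w = (2 : ℂ) • sq w - w := by
  have h1 := summable_norm_sq hw
  have h2 := tsum_mul_tsum_eq_tsum_sum_antidiagonal_of_summable_norm h1 h1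
  unfold sq
  rw [h2]
  have h3 : ∀ n, ∑ p ∈ Finset.HasAntidiagonal.antidiagonal n,
      (((sc p.1 : ℝ) : ℂ) • w ^ (p.1 + 1)) * (((sc p.2 : ℝ) : ℂ) • w ^ (p.2 + 1)) =
      (2 : ℂ) • (((sc (n + 1) : ℝ) : ℂ) • w ^ (n + 1 + 1)) := by
    intro n
    have h4 : ∀ p ∈ Finset.HasAntidiagonal.antidiagonal n,
        (((sc p.1 : ℝ) : ℂ) • w ^ (p.1 + 1)) * (((sc p.2 : ℝ) : ℂ) • w ^ (p.2 + 1)) =
        (((sc p.1 * sc p.2 : ℝ)) : ℂ) • w ^ (n + 2) := by
      intro p hp
      rw [Finset.HasAntidiagonal.mem_antidiagonal] at hp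
      rw [smul_mul_smul_comm, ← pow_add, ← Complex.ofReal_mul]
      congr 2
      omega
    rw [Finset.sum_congr rfl h4, ← Finset.sum_smul, ← Complex.ofReal_sum, sc_conv, smul_smul]
    congr 1
    push_cast
    ring
  simp_rw [h3]
  have hs : Summable fun n => ((sc n : ℝ) : ℂ) • w ^ (n + 1) := h1.of_norm
  have hs' : Summable fun n => ((sc (n + 1) : ℝ) : ℂ) • w ^ (n + 1 + 1) :=
    (summable_nat_add_iff 1).2 hs
  rw [hs'.tsum_const_smul, hs.tsum_eq_zero_add, smul_add, sc_zero]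
  have : (2 : ℂ) • (((1 / 2 : ℝ) : ℂ) • w ^ (0 + 1)) = w := by
    rw [smul_smul]; norm_num
  rw [this]
  abel

lemma one_sub_sq_mul {w : R} (hw : ‖w‖ ≤ 1) : (1 - sq w) * (1 - sq w) = 1 - w := by
  rw [sub_mul, mul_sub, mul_sub, sq_mul_sq hw, mul_one, one_mul, mul_one, two_smul]
  abel

lemma commute_sq {w c : R} (hw : ‖w‖ ≤ 1) (h : Commute c w) : Commute c (sq w) := by
  have hs : Summable fun n => ((sc n : ℝ) : ℂ) • w ^ (n + 1) := (summable_norm_sq hw).of_norm
  unfold sq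
  show c * _ = _ * c
  rw [← hs.tsum_mul_left, ← hs.tsum_mul_right]
  refine tsum_congr fun n => ?_
  rw [mul_smul_comm, smul_mul_assoc, (h.pow_right (n + 1)).eq]

end sqrt

end OpenConv3d0876
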