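import Pool.Agent.Lib.MP_3d0876_an.Core

open Finset Complex
open scoped Classical

namespace OpenConv3d0876

variable {A : Type*} [AddCommGroup A]

lemma ev_add (y : AddChar A Circle) (P Q : A →₀ ℂ) : ev y (P + Q) = ev y P + ev y Q :=
  Finsupp.sum_add_index' (by simp) (by intros; ring)

lemma ev_smul (y : AddChar A Circle) (c : ℂ) (Q : A →₀ ℂ) : ev y (c • Q) = c * ev y Q := by
  unfold ev
  rw [Finsupp.sum_smul_index' (by simp), Finsupp.mul_sum]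
  exact Finsupp.sum_congr fun χ _ => by rw [smul_eq_mul]; ring

lemma ev_single (y : AddChar A Circle) (χ : A) (c : ℂ) :
    ev y (Finsupp.single χ c) = c * (y χ : ℂ) := by
  unfold ev
  rw [Finsupp.sum_single_index (by simp)]

lemma ev_sum {ι : Type*} (y : AddChar A Circle) (T : Finset ι) (P : ι → A →₀ ℂ) :
    ev y (∑ i ∈ T, P i) = ∑ i ∈ T, ev y (P i) := by
  induction T using Finset.induction_on with
  | empty => simp [ev]
  | insert a T ha ih => rw [Finset.sum_insert ha, ev_add, ih, Finset.sum_insert ha]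

lemma n1_eq {a : A →₀ ℂ} {S : Finset A} (h : a.support ⊆ S) : n1 a = ∑ χ ∈ S, ‖a χ‖ := by
  unfold n1
  refine Finset.sum_subset h fun χ _ hχ => ?_
  rw [Finsupp.notMem_support_iff.1 hχ, norm_zero]

lemma n1_nonneg (a : A →₀ ℂ) : 0 ≤ n1 a := Finset.sum_nonneg fun _ _ => norm_nonneg _

lemma n1_add (a b : A →₀ ℂ) : n1 (a + b) ≤ n1 a + n1 b := by
  rw [n1_eq (S := a.support ∪ b.support) Finsupp.support_add,
    n1_eq (S := a.support ∪ b.support) (a := a) Finset.subset_union_left,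
    n1_eq (S := a.support ∪ b.support) (a := b) Finset.subset_union_right,
    ← Finset.sum_add_distrib]
  exact Finset.sum_le_sum fun χ _ => norm_add_le _ _

lemma n1_smul (c : ℂ) (a : A →₀ ℂ) : n1 (c • a) ≤ ‖c‖ * n1 a := by
  rw [n1_eq (S := a.support) (a := c • a) Finsupp.support_smul, n1, Finset.mul_sum]
  refine Finset.sum_le_sum fun χ _ => ?_
  rw [Finsupp.smul_apply, smul_eq_mul, norm_mul]

lemma n1_single (χ : A) (c : ℂ) : n1 (Finsupp.single χ c) = ‖c‖ := by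
  rw [n1_eq (S := {χ}) Finsupp.support_single_subset]
  simp

lemma n1_sum {ι : Type*} (T : Finset ι) (P : ι → A →₀ ℂ) :
    n1 (∑ i ∈ T, P i) ≤ ∑ i ∈ T, n1 (P i) := by
  induction T using Finset.induction_on with
  | empty => simp [n1]
  | insert a T ha ih =>
    rw [Finset.sum_insert ha, Finset.sum_insert ha]
    exact (n1_add _ _).trans (by linarith)

lemma norm_ev_le (y : AddChar A Circle) (a : A →₀ ℂ) : ‖ev y a‖ ≤ n1 a := by
  unfold ev n1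
  refine (norm_sum_le _ _).trans (Finset.sum_le_sum fun χ _ => ?_)
  rw [norm_mul, Circle.norm_coe, mul_one]

lemma norm_ev_sub_le (x y : AddChar A Circle) (a : A →₀ ℂ) {κ : ℝ}
    (h : ∀ l ∈ a.support, ‖(y l : ℂ) - (x l : ℂ)‖ ≤ κ) : ‖ev y a - ev x a‖ ≤ κ * n1 a := by
  unfold ev n1
  rw [Finsupp.sum, Finsupp.sum, ← Finset.sum_sub_distrib, Finset.mul_sum]
  refine (norm_sum_le _ _).trans (Finset.sum_le_sum fun χ hχ => ?_)
  rw [← mul_sub, norm_mul, mul_comm]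
  exact mul_le_mul_of_nonneg_right (h χ hχ) (norm_nonneg _)

lemma sum_norm_le_n1 (T : Finset A) (a : A →₀ ℂ) : ∑ χ ∈ T, ‖a χ‖ ≤ n1 a := by
  rw [n1_eq (S := T ∪ a.support) Finset.subset_union_right]
  exact Finset.sum_le_sum_of_subset_of_nonneg Finset.subset_union_left fun _ _ _ => norm_nonneg _

/-- The averages `f_N`. -/
noncomputable def fN (g : ℕ → A) (N : ℕ) : A →₀ ℂ :=
  ((1 / (2 * N) : ℝ) : ℂ) • ∑ j ∈ range N, (Finsupp.single (g j) 1 + Finsupp.single (- g j) 1)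

lemma ev_fN (g : ℕ → A) (N : ℕ) (y : AddChar A Circle) :
    ev y (fN g N) = (((1 / (N : ℝ)) * ∑ j ∈ range N, (y (g j) : ℂ).re : ℝ) : ℂ) := by
  unfold fN
  rw [ev_smul, ev_sum]
  have : ∀ j ∈ range N, ev y (Finsupp.single (g j) 1 + Finsupp.single (- g j) 1) =
      ((2 * (y (g j) : ℂ).re : ℝ) : ℂ) := by
    intro j _
    rw [ev_add, ev_single, ev_single, one_mul, one_mul, char_neg, Complex.add_conj]
  rw [Finset.sum_congr rfl this, ← Complex.ofReal_sum, ← Complex.ofReal_mul, ← Finset.mul_sum]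
  congr 1
  by_cases hN : (N : ℝ) = 0
  · simp [hN]
  · field_simp

lemma n1_fN (g : ℕ → A) (N : ℕ) : n1 (fN g N) ≤ 1 := by
  unfold fN
  refine (n1_smul _ _).trans ?_
  have h1 : n1 (∑ j ∈ range N, (Finsupp.single (g j) (1 : ℂ) + Finsupp.single (- g j) 1)) ≤
      2 * N := by
    refine (n1_sum _ _).trans ?_
    calc _ ≤ ∑ j ∈ range N, (2 : ℝ) := by
          refine Finset.sum_le_sum fun j _ => (n1_add _ _).trans ?_
          rw [n1_single, n1_single, norm_one]; norm_num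
      _ = 2 * N := by rw [Finset.sum_const, Finset.card_range, nsmul_eq_mul]; ring
  rw [Complex.norm_real, Real.norm_eq_abs, abs_of_nonneg (by positivity)]
  by_cases hN : N = 0
  · subst hN; simp
  · have hN' : (0 : ℝ) < 2 * N := by positivity
    calc 1 / (2 * (N : ℝ)) * _ ≤ 1 / (2 * (N : ℝ)) * (2 * N) :=
          mul_le_mul_of_nonneg_left h1 (by positivity)
      _ = 1 := by field_simp

/-- The property to be excluded. -/
def Bad (ε C η : ℝ) (φ : A →₀ ℂ) : Prop :=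
  ∃ a b : A →₀ ℂ, n1 a ≤ ε ∧ n1 b ≤ ε ∧ ∀ y : AddChar A Circle,
    ‖ev y φ + ev y a‖ ≤ η + C * ‖ev y φ‖ ^ 2 ∨ ‖ev y φ + ev y b‖ ≤ η + C * ‖ev y φ‖ ^ 2

lemma Bad.mono {ε C η C' η' : ℝ} {φ : A →₀ ℂ} (h : Bad ε C η φ) (hC : C ≤ C') (hη : η ≤ η') :
    Bad ε C' η' φ := by
  obtain ⟨a, b, ha, hb, h⟩ := h
  refine ⟨a, b, ha, hb, fun y => ?_⟩
  have : η + C * ‖ev y φ‖ ^ 2 ≤ η' + C' * ‖ev y φ‖ ^ 2 :=
    add_le_add hη (mul_le_mul_of_nonneg_right hC (by positivity))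
  rcases h y with h | h
  · exact Or.inl (h.trans this)
  · exact Or.inr (h.trans this)

/-- The push-forward used to descend. -/
noncomputable def push (T : Finset A) (k : A → ℕ) (c : A → A) (z : ℝ) (a : A →₀ ℂ) : A →₀ ℂ :=
  ∑ χ ∈ T, Finsupp.single (c χ) (a χ * (z : ℂ) ^ (k χ))

lemma ev_push (T : Finset A) (k : A → ℕ) (c : A → A) (z : ℝ) (a : A →₀ ℂ)
    (x : AddChar A Circle) :
    ev x (push T k c z a) = ∑ χ ∈ T, a χ * (z : ℂ) ^ (k χ) * (x (c χ) : ℂ) := by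
  unfold push
  rw [ev_sum]
  exact Finset.sum_congr rfl fun χ _ => ev_single _ _ _

lemma n1_push (T : Finset A) (k : A → ℕ) (c : A → A) {z : ℝ} (hz : 0 ≤ z) (hz1 : z ≤ 1)
    (a : A →₀ ℂ) : n1 (push T k c z a) ≤ n1 a := by
  unfold push
  refine (n1_sum _ _).trans (le_trans (Finset.sum_le_sum fun χ _ => ?_) (sum_norm_le_n1 T a))
  rw [n1_single, norm_mul, norm_pow, Complex.norm_real, Real.norm_eq_abs, abs_of_nonneg hz]
  exact mul_le_of_le_one_right (norm_nonneg _) (pow_le_one₀ hz hz1)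

/-- Divided differences of monomials on `[0, 2/5]`. -/
lemma divdiff (z0 z1 z2 : ℝ) (h0 : 0 ≤ z0) (h0' : z0 ≤ 2 / 5) (h1 : 0 ≤ z1) (h1' : z1 ≤ 2 / 5)
    (h2 : 0 ≤ z2) (h2' : z2 ≤ 2 / 5) (k : ℕ) :
    ∃ d D : ℝ, 0 ≤ d ∧ d ≤ 1 ∧ (k = 0 → d = 0) ∧ 0 ≤ D ∧ D ≤ 5 / 3 ∧
      z1 ^ k - z2 ^ k = (z1 - z2) * d ∧
      z0 ^ k * (z1 - z2) = z1 ^ k * (z0 - z2) - z2 ^ k * (z0 - z1) +
        (z0 - z1) * (z0 - z2) * (z1 - z2) * D := by
  induction k with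
  | zero => exact ⟨0, 0, by norm_num, by norm_num, by simp, by norm_num, by norm_num, by simp,
      by ring⟩
  | succ k ih =>
    obtain ⟨d, D, hd0, hd1, hd2, hD0, hD1, e1, e2⟩ := ih
    have hz2k : 0 ≤ z2 ^ k := by positivity
    refine ⟨z1 * d + z2 ^ k, z0 * D + d, by positivity, ?_, by simp, by positivity, by nlinarith,
      ?_, ?_⟩
    · by_cases hk : k = 0
      · rw [hd2 hk, hk]
        simp
      · have : z2 ^ k ≤ 2 / 5 := by
          calc z2 ^ k ≤ (2 / 5) ^ k := pow_le_pow_left₀ h2 h2' _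
            _ ≤ (2 / 5) ^ 1 := pow_le_pow_of_le_one (by norm_num) (by norm_num) (by omega)
            _ = 2 / 5 := by norm_num
        nlinarith
    · rw [pow_succ, pow_succ]
      linear_combination z1 * e1
    · rw [pow_succ, pow_succ, pow_succ]
      linear_combination z0 * e2 + (z0 - z1) * (z0 - z2) * e1

/-- Interpolation. -/
lemma interp (T : Finset A) (k : A → ℕ) (α : A → ℂ) {ε : ℝ} (hα : ∑ χ ∈ T, ‖α χ‖ ≤ ε)
    (p q z0 z1 z2 : ℝ) (h0 : 0 ≤ z0) (h0' : z0 ≤ 2 / 5) (h1 : 0 ≤ z1) (h1' : z1 ≤ 2 / 5)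
    (h2 : 0 ≤ z2) (h2' : z2 ≤ 2 / 5) :
    ‖((p + q * z0 : ℝ) : ℂ) + ∑ χ ∈ T, α χ * (z0 : ℂ) ^ k χ‖ * |z1 - z2| ≤
      ‖((p + q * z1 : ℝ) : ℂ) + ∑ χ ∈ T, α χ * (z1 : ℂ) ^ k χ‖ * |z0 - z2| +
      ‖((p + q * z2 : ℝ) : ℂ) + ∑ χ ∈ T, α χ * (z2 : ℂ) ^ k χ‖ * |z0 - z1| +
      |z0 - z1| * |z0 - z2| * |z1 - z2| * (2 * ε) := by
  choose d D hd0 hd1 hd2 hD0 hD1 e1 e2 using fun k => divdiff z0 z1 z2 h0 h0' h1 h1' h2 h2' k
  have e2' : ∀ k, (z0 : ℂ) ^ k * ((z1 : ℂ) - z2) = (z1 : ℂ) ^ k * ((z0 : ℂ) - z2) -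
      (z2 : ℂ) ^ k * ((z0 : ℂ) - z1) + ((z0 : ℂ) - z1) * ((z0 : ℂ) - z2) * ((z1 : ℂ) - z2) *
      (D k : ℂ) := by
    intro k
    have := e2 k
    exact_mod_cast congrArg (fun r : ℝ => (r : ℂ)) this
  have hkey : (((p + q * z0 : ℝ) : ℂ) + ∑ χ ∈ T, α χ * (z0 : ℂ) ^ k χ) * ((z1 - z2 : ℝ) : ℂ) =
      (((p + q * z1 : ℝ) : ℂ) + ∑ χ ∈ T, α χ * (z1 : ℂ) ^ k χ) * ((z0 - z2 : ℝ) : ℂ) -
      (((p + q * z2 : ℝ) : ℂ) + ∑ χ ∈ T, α χ * (z2 : ℂ) ^ k χ) * ((z0 - z1 : ℝ) : ℂ) +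
      ((z0 - z1 : ℝ) : ℂ) * ((z0 - z2 : ℝ) : ℂ) * ((z1 - z2 : ℝ) : ℂ) *
        ∑ χ ∈ T, α χ * (D (k χ) : ℂ) := by
    rw [add_mul, add_mul, add_mul, Finset.sum_mul, Finset.sum_mul, Finset.sum_mul, Finset.mul_sum]
    have hs : ∑ χ ∈ T, α χ * (z0 : ℂ) ^ k χ * ((z1 - z2 : ℝ) : ℂ) =
        ∑ χ ∈ T, α χ * (z1 : ℂ) ^ k χ * ((z0 - z2 : ℝ) : ℂ) -
        ∑ χ ∈ T, α χ * (z2 : ℂ) ^ k χ * ((z0 - z1 : ℝ) : ℂ) +
        ∑ χ ∈ T, ((z0 - z1 : ℝ) : ℂ) * ((z0 - z2 : ℝ) : ℂ) * ((z1 - z2 : ℝ) : ℂ) *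
          (α χ * (D (k χ) : ℂ)) := by
      rw [← Finset.sum_sub_distrib, ← Finset.sum_add_distrib]
      refine Finset.sum_congr rfl fun χ _ => ?_
      push_cast
      linear_combination α χ * e2' (k χ)
    rw [hs]
    push_cast
    ring
  have hn := congrArg norm hkey
  rw [norm_mul, Complex.norm_real, Real.norm_eq_abs] at hn
  rw [hn]
  refine (norm_add_le _ _).trans (add_le_add ((norm_sub_le _ _).trans (add_le_add ?_ ?_)) ?_)
  · rw [norm_mul, Complex.norm_real, Real.norm_eq_abs]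
  · rw [norm_mul, Complex.norm_real, Real.norm_eq_abs]
  · rw [norm_mul, norm_mul, norm_mul, Complex.norm_real, Complex.norm_real, Complex.norm_real,
      Real.norm_eq_abs, Real.norm_eq_abs, Real.norm_eq_abs]
    refine mul_le_mul_of_nonneg_left ?_ (by positivity)
    calc ‖∑ χ ∈ T, α χ * (D (k χ) : ℂ)‖ ≤ ∑ χ ∈ T, ‖α χ‖ * 2 := by
          refine (norm_sum_le _ _).trans (Finset.sum_le_sum fun χ _ => ?_)
          rw [norm_mul, Complex.norm_real, Real.norm_eq_abs, abs_of_nonneg (hD0 _)]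
          refine mul_le_mul_of_nonneg_left ?_ (norm_nonneg _)
          linarith [hD1 (k χ)]
      _ = (∑ χ ∈ T, ‖α χ‖) * 2 := by rw [Finset.sum_mul]
      _ ≤ 2 * ε := by linarith

lemma descend_one (T : Finset A) (k : A → ℕ) (α : A → ℂ) {ε : ℝ} (hα : ∑ χ ∈ T, ‖α χ‖ ≤ ε)
    (hε : 0 ≤ ε) {φx r t e : ℝ} (hr : 0 < r) (ht : 0 < t) (hφ : |φx| ≤ r / 10) (ht' : t ≤ 1 / 20)
    {τ1 τ2 : ℝ} (h1 : |τ1| ≤ t) (h2 : |τ2| ≤ t) (h12 : t ≤ |τ1 - τ2|)
    (hz1 : ‖((r * τ1 : ℝ) : ℂ) + ∑ χ ∈ T, α χ * ((1 / 4 - φx / r + τ1 : ℝ) : ℂ) ^ k χ‖ ≤ e)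
    (hz2 : ‖((r * τ2 : ℝ) : ℂ) + ∑ χ ∈ T, α χ * ((1 / 4 - φx / r + τ2 : ℝ) : ℂ) ^ k χ‖ ≤ e) :
    ‖(φx : ℂ) + ∑ χ ∈ T, α χ * ((1 / 4 : ℝ) : ℂ) ^ k χ‖ ≤
      2 * e / t + 4 * ε * t ^ 2 + 4 * ε * (φx ^ 2 / r ^ 2) := by
  have hs : |φx / r| ≤ 1 / 10 := by
    rw [abs_div, abs_of_pos hr, div_le_iff₀ hr]
    linarith
  set s := φx / r with hsdef
  have hs' := abs_le.1 hs
  have h1' := abs_le.1 h1
  have h2' := abs_le.1 h2
  have he : 0 ≤ e := (norm_nonneg _).trans hz1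
  have hint := interp T k α hα (φx - r / 4) r (1 / 4) (1 / 4 - s + τ1) (1 / 4 - s + τ2)
    (by norm_num) (by norm_num) (by linarith) (by linarith) (by linarith) (by linarith)
  have hrs : r * s = φx := by rw [hsdef]; field_simp
  have c0 : φx - r / 4 + r * (1 / 4) = φx := by ring
  have c1 : φx - r / 4 + r * (1 / 4 - s + τ1) = r * τ1 := by linear_combination -hrs
  have c2 : φx - r / 4 + r * (1 / 4 - s + τ2) = r * τ2 := by linear_combination -hrs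
  rw [c0, c1, c2] at hint
  have d12 : (1 / 4 - s + τ1) - (1 / 4 - s + τ2) = τ1 - τ2 := by ring
  have d1 : (1 : ℝ) / 4 - (1 / 4 - s + τ1) = s - τ1 := by ring
  have d2 : (1 : ℝ) / 4 - (1 / 4 - s + τ2) = s - τ2 := by ring
  rw [d12, d1, d2] at hint
  have hD : 0 < |τ1 - τ2| := lt_of_lt_of_le ht h12
  have b1 : |s - τ1| ≤ |s| + t := (abs_sub _ _).trans (by linarith)
  have b2 : |s - τ2| ≤ |s| + t := (abs_sub _ _).trans (by linarith)
  have hst : |s| + t ≤ 1 := by linarith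
  have b3 : |s - τ1| * |s - τ2| ≤ 2 * s ^ 2 + 2 * t ^ 2 := by
    calc |s - τ1| * |s - τ2| ≤ (|s| + t) * (|s| + t) :=
          mul_le_mul b1 b2 (abs_nonneg _) (by positivity)
      _ ≤ 2 * s ^ 2 + 2 * t ^ 2 := by
          have : |s| ^ 2 = s ^ 2 := sq_abs s
          nlinarith [sq_nonneg (|s| - t)]
  have hfin : ‖(φx : ℂ) + ∑ χ ∈ T, α χ * ((1 / 4 : ℝ) : ℂ) ^ k χ‖ * |τ1 - τ2| ≤
      (2 * e / t + 4 * ε * t ^ 2 + 4 * ε * (φx ^ 2 / r ^ 2)) * |τ1 - τ2| := by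
    refine hint.trans ?_
    have e1 : ‖((r * τ1 : ℝ) : ℂ) + ∑ χ ∈ T, α χ * ((1 / 4 - s + τ1 : ℝ) : ℂ) ^ k χ‖ * |s - τ2| ≤
        e * 1 := mul_le_mul hz1 (b2.trans hst) (abs_nonneg _) he
    have e2 : ‖((r * τ2 : ℝ) : ℂ) + ∑ χ ∈ T, α χ * ((1 / 4 - s + τ2 : ℝ) : ℂ) ^ k χ‖ * |s - τ1| ≤
        e * 1 := mul_le_mul hz2 (b1.trans hst) (abs_nonneg _) he
    have e3 : |s - τ1| * |s - τ2| * |τ1 - τ2| * (2 * ε) ≤
        (2 * s ^ 2 + 2 * t ^ 2) * |τ1 - τ2| * (2 * ε) :=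
      mul_le_mul_of_nonneg_right (mul_le_mul_of_nonneg_right b3 hD.le) (by positivity)
    have e4 : 2 * e ≤ 2 * e / t * |τ1 - τ2| := by
      rw [div_mul_eq_mul_div, le_div_iff₀ ht]
      exact mul_le_mul_of_nonneg_left h12 (by positivity)
    have e5 : φx ^ 2 / r ^ 2 = s ^ 2 := by rw [hsdef, div_pow]
    rw [e5]
    nlinarith
  exact le_of_mul_le_mul_right hfin hD

/-- **The inductive step.** -/
theorem step {g : ℕ → A} (hg : Dissoc g) {φ : A →₀ ℂ} (hreal : ∀ y : AddChar A Circle, (ev y φ).im = 0)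
    {ε B r η C' : ℝ} (hε : 0 < ε) (hB : n1 φ ≤ B) (hr : 0 < r) (hη : 0 < η)
    (hnot : ¬ Bad ε (100 * (B + ε) / r ^ 2) η φ) (hC' : 0 ≤ C') :
    ∃ N : ℕ, 0 < N ∧ ∃ η' : ℝ, 0 < η' ∧
      ¬ Bad ε C' η' (φ + (r : ℂ) • (fN g N + Finsupp.single 0 (-(1 / 4)))) := by
  have hB0 : 0 ≤ B := (n1_nonneg φ).trans hB
  -- constants
  set t : ℝ := min (1 / 20) (η / (2 * (4 * C' * r ^ 2 + 4 * ε))) with ht
  have hden : 0 < 2 * (4 * C' * r ^ 2 + 4 * ε) := by positivity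
  have ht0 : 0 < t := lt_min (by norm_num) (by positivity)
  have ht1 : t ≤ 1 / 20 := min_le_left _ _
  have ht2 : (4 * C' * r ^ 2 + 4 * ε) * t ≤ η / 2 := by
    have := min_le_right (1 / 20) (η / (2 * (4 * C' * r ^ 2 + 4 * ε)))
    have h2 : t * (2 * (4 * C' * r ^ 2 + 4 * ε)) ≤ η := by
      rw [← le_div_iff₀ hden]; exact this
    linarith
  set K1 : ℝ := B + r + 2 + 2 * C' * (B + r) ^ 2 with hK1
  have hK1pos : 0 < K1 := by positivity
  set κ : ℝ := min 1 (η * t / (4 * K1)) with hκ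
  have hκ0 : 0 < κ := lt_min one_pos (by positivity)
  have hκ1 : κ ≤ 1 := min_le_left _ _
  have hκ2 : κ * (4 * K1) ≤ η * t := by
    rw [← le_div_iff₀ (by positivity)]
    exact min_le_right _ _
  obtain ⟨N, hN, hcore⟩ := core hg φ.support hκ0 hε.le
  refine ⟨N, hN, κ, hκ0, ?_⟩
  rintro ⟨a', b', ha', hb', hbad⟩
  obtain ⟨T, k, c, hT⟩ := hcore a' b' ha' hb'
  apply hnot
  refine ⟨push T k c (1 / 4) a', push T k c (1 / 4) b',
    (n1_push T k c (by norm_num) (by norm_num) a').trans ha',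
    (n1_push T k c (by norm_num) (by norm_num) b').trans hb', ?_⟩
  intro x
  -- real value of φ at x
  obtain ⟨φx, hφx⟩ : ∃ φx : ℝ, ev x φ = (φx : ℂ) := ⟨(ev x φ).re, by
    apply Complex.ext
    · simp
    · simp [hreal x]⟩
  have hφxB : |φx| ≤ B := by
    have := norm_ev_le x φ
    rw [hφx, Complex.norm_real, Real.norm_eq_abs] at this
    exact this.trans hB
  have hnormφ : ‖ev x φ‖ ^ 2 = φx ^ 2 := by
    rw [hφx, Complex.norm_real, Real.norm_eq_abs, sq_abs]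
  rw [hnormφ]
  by_cases hcase : |φx| ≤ r / 10
  swap
  · -- easy case
    left
    push Not at hcase
    have h1 : ‖ev x φ + ev x (push T k c (1 / 4) a')‖ ≤ B + ε := by
      refine (norm_add_le _ _).trans (add_le_add ((norm_ev_le _ _).trans hB) ?_)
      exact (norm_ev_le _ _).trans ((n1_push T k c (by norm_num) (by norm_num) a').trans ha')
    have h2 : B + ε ≤ 100 * (B + ε) / r ^ 2 * φx ^ 2 := by
      have h3 : (r / 10) ^ 2 ≤ φx ^ 2 := by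
        rw [← sq_abs φx]
        exact pow_le_pow_left₀ (by positivity) hcase.le 2
      have h4 : B + ε = 100 * (B + ε) / r ^ 2 * (r / 10) ^ 2 := by field_simp; ring
      calc B + ε = 100 * (B + ε) / r ^ 2 * (r / 10) ^ 2 := h4
        _ ≤ _ := mul_le_mul_of_nonneg_left h3 (by positivity)
    linarith
  · -- main case
    set e : ℝ := κ * K1 + 2 * C' * (r * t) ^ 2 with he
    -- values at `ζ + τ`
    have hP : ∀ τ : ℝ, |τ| ≤ t →
        ‖((r * τ : ℝ) : ℂ) + ∑ χ ∈ T, (a' χ * (x (c χ) : ℂ)) *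
          ((1 / 4 - φx / r + τ : ℝ) : ℂ) ^ k χ‖ ≤ e ∨
        ‖((r * τ : ℝ) : ℂ) + ∑ χ ∈ T, (b' χ * (x (c χ) : ℂ)) *
          ((1 / 4 - φx / r + τ : ℝ) : ℂ) ^ k χ‖ ≤ e := by
      intro τ hτ
      have hs : |φx / r| ≤ 1 / 10 := by
        rw [abs_div, abs_of_pos hr, div_le_iff₀ hr]
        linarith
      have hs' := abs_le.1 hs
      have hτ' := abs_le.1 hτ
      obtain ⟨y, hy1, hy2, hy3, hy4⟩ := hT x (1 / 4 - φx / r + τ) (by linarith) (by linarith)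
      set zz : ℝ := 1 / 4 - φx / r + τ with hzz
      have hfy : ‖ev y φ - ev x φ‖ ≤ κ * B :=
        (norm_ev_sub_le x y φ hy1).trans (mul_le_mul_of_nonneg_left hB hκ0.le)
      have hφ' : ‖ev y (φ + (r : ℂ) • (fN g N + Finsupp.single 0 (-(1 / 4)))) - ((r * τ : ℝ) : ℂ)‖ ≤
          κ * (B + r) := by
        have e1 : ev y (φ + (r : ℂ) • (fN g N + Finsupp.single 0 (-(1 / 4)))) - ((r * τ : ℝ) : ℂ) =
            (ev y φ - ev x φ) + (r : ℂ) *
              (((1 / (N : ℝ)) * ∑ j ∈ range N, (y (g j) : ℂ).re - zz : ℝ) : ℂ) := by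
          rw [ev_add, ev_smul, ev_add, ev_single, ev_fN, AddChar.map_zero_eq_one, Circle.coe_one,
            hφx, hzz]
          have hr' : (r : ℂ) ≠ 0 := by exact_mod_cast hr.ne'
          push_cast
          field_simp
          ring
        rw [e1]
        refine (norm_add_le _ _).trans ?_
        rw [norm_mul, Complex.norm_real, Complex.norm_real, Real.norm_eq_abs, Real.norm_eq_abs,
          abs_of_pos hr]
        nlinarith
      have hnorm' : ‖ev y (φ + (r : ℂ) • (fN g N + Finsupp.single 0 (-(1 / 4))))‖ ≤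
          r * t + κ * (B + r) := by
        have h1 := norm_le_norm_add_norm_sub' (ev y (φ + (r : ℂ) • (fN g N + Finsupp.single 0 (-(1 / 4)))))
          ((r * τ : ℝ) : ℂ)
        have h2 : ‖((r * τ : ℝ) : ℂ)‖ ≤ r * t := by
          rw [Complex.norm_real, Real.norm_eq_abs, abs_mul, abs_of_pos hr]
          exact mul_le_mul_of_nonneg_left hτ hr.le
        linarith
      have hsq : C' * ‖ev y (φ + (r : ℂ) • (fN g N + Finsupp.single 0 (-(1 / 4))))‖ ^ 2 ≤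
          2 * C' * (r * t) ^ 2 + κ * (2 * C' * (B + r) ^ 2) := by
        have h1 : ‖ev y (φ + (r : ℂ) • (fN g N + Finsupp.single 0 (-(1 / 4))))‖ ^ 2 ≤
            (r * t + κ * (B + r)) ^ 2 := pow_le_pow_left₀ (norm_nonneg _) hnorm' 2
        have h2 : (r * t + κ * (B + r)) ^ 2 ≤ 2 * (r * t) ^ 2 + κ * (2 * (B + r) ^ 2) := by
          have hsq' : κ ^ 2 ≤ κ := by nlinarith
          have hBr : 0 ≤ (B + r) ^ 2 := by positivity
          nlinarith [sq_nonneg (r * t - κ * (B + r)), mul_le_mul_of_nonneg_right hsq' hBr]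
        calc _ ≤ C' * (2 * (r * t) ^ 2 + κ * (2 * (B + r) ^ 2)) :=
              mul_le_mul_of_nonneg_left (h1.trans h2) hC'
          _ = _ := by ring
      have hgen : ∀ u : A →₀ ℂ,
          ‖ev y u - ∑ χ ∈ T, u χ * (zz : ℂ) ^ (k χ) * (x (c χ) : ℂ)‖ ≤ κ →
          ‖ev y (φ + (r : ℂ) • (fN g N + Finsupp.single 0 (-(1 / 4)))) + ev y u‖ ≤
            κ + C' * ‖ev y (φ + (r : ℂ) • (fN g N + Finsupp.single 0 (-(1 / 4))))‖ ^ 2 →
          ‖((r * τ : ℝ) : ℂ) + ∑ χ ∈ T, (u χ * (x (c χ) : ℂ)) * (zz : ℂ) ^ k χ‖ ≤ e := by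
        intro u h1 h2
        have e1 : ((r * τ : ℝ) : ℂ) + ∑ χ ∈ T, (u χ * (x (c χ) : ℂ)) * (zz : ℂ) ^ k χ =
            (ev y (φ + (r : ℂ) • (fN g N + Finsupp.single 0 (-(1 / 4)))) + ev y u) -
            (ev y (φ + (r : ℂ) • (fN g N + Finsupp.single 0 (-(1 / 4)))) - ((r * τ : ℝ) : ℂ)) -
            (ev y u - ∑ χ ∈ T, u χ * (zz : ℂ) ^ (k χ) * (x (c χ) : ℂ)) := by
          have : ∑ χ ∈ T, (u χ * (x (c χ) : ℂ)) * (zz : ℂ) ^ k χ =
              ∑ χ ∈ T, u χ * (zz : ℂ) ^ (k χ) * (x (c χ) : ℂ) :=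
            Finset.sum_congr rfl fun χ _ => by ring
          rw [this]
          ring
        rw [e1]
        refine (norm_sub_le _ _).trans ?_
        have t1 := norm_sub_le
          (ev y (φ + (r : ℂ) • (fN g N + Finsupp.single 0 (-(1 / 4)))) + ev y u)
          (ev y (φ + (r : ℂ) • (fN g N + Finsupp.single 0 (-(1 / 4)))) - ((r * τ : ℝ) : ℂ))
        rw [he, hK1]
        nlinarith
      rcases hbad y with h | h
      · exact Or.inl (hgen a' hy3 h)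
      · exact Or.inr (hgen b' hy4 h)
    have hsumle : ∀ u : A →₀ ℂ, n1 u ≤ ε → ∑ χ ∈ T, ‖u χ * (x (c χ) : ℂ)‖ ≤ ε := by
      intro u hu
      refine le_trans (Finset.sum_le_sum fun χ _ => ?_) ((sum_norm_le_n1 T u).trans hu)
      rw [norm_mul, Circle.norm_coe, mul_one]
    have hconc : ∀ u : A →₀ ℂ, n1 u ≤ ε → ∀ τ1 τ2 : ℝ, |τ1| ≤ t → |τ2| ≤ t → t ≤ |τ1 - τ2| →
        ‖((r * τ1 : ℝ) : ℂ) + ∑ χ ∈ T, (u χ * (x (c χ) : ℂ)) *
          ((1 / 4 - φx / r + τ1 : ℝ) : ℂ) ^ k χ‖ ≤ e →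
        ‖((r * τ2 : ℝ) : ℂ) + ∑ χ ∈ T, (u χ * (x (c χ) : ℂ)) *
          ((1 / 4 - φx / r + τ2 : ℝ) : ℂ) ^ k χ‖ ≤ e →
        ‖ev x φ + ev x (push T k c (1 / 4) u)‖ ≤ η + 100 * (B + ε) / r ^ 2 * φx ^ 2 := by
      intro u hu τ1 τ2 h1 h2 h12 hz1 hz2
      have h := descend_one T k (fun χ => u χ * (x (c χ) : ℂ)) (hsumle u hu) hε.le hr ht0 hcase
        ht1 h1 h2 h12 hz1 hz2
      have e1 : ev x (push T k c (1 / 4) u) =
          ∑ χ ∈ T, (u χ * (x (c χ) : ℂ)) * ((1 / 4 : ℝ) : ℂ) ^ k χ := by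
        rw [ev_push]
        exact Finset.sum_congr rfl fun χ _ => by ring
      rw [hφx, e1]
      refine h.trans (add_le_add ?_ ?_)
      · have f1 : 2 * e / t = 2 * (κ * K1) / t + 4 * C' * r ^ 2 * t := by
          rw [he]; field_simp; ring
        have f2 : 2 * (κ * K1) / t ≤ η / 2 := by
          rw [div_le_iff₀ ht0]; linarith
        have f3 : 4 * ε * t ^ 2 ≤ 4 * ε * t := by
          have : t ^ 2 ≤ t := by nlinarith
          exact mul_le_mul_of_nonneg_left this (by positivity)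
        rw [f1]
        nlinarith
      · have : 4 * ε * (φx ^ 2 / r ^ 2) = (4 * ε) / r ^ 2 * φx ^ 2 := by ring
        rw [this]
        refine mul_le_mul_of_nonneg_right ?_ (sq_nonneg _)
        refine div_le_div_of_nonneg_right ?_ (by positivity)
        linarith
    have a0 : |(0 : ℝ)| ≤ t := by rw [abs_zero]; exact ht0.le
    have ap : |t| ≤ t := by rw [abs_of_pos ht0]
    have am : |-t| ≤ t := by rw [abs_neg, abs_of_pos ht0]
    have d1 : t ≤ |0 - t| := by rw [zero_sub, abs_neg, abs_of_pos ht0]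
    have d2 : t ≤ |0 - -t| := by rw [sub_neg_eq_add, zero_add, abs_of_pos ht0]
    have d3 : t ≤ |t - -t| := by
      rw [sub_neg_eq_add, abs_of_pos (by linarith)]; linarith
    rcases hP 0 a0 with h0 | h0 <;> rcases hP t ap with h1 | h1 <;> rcases hP (-t) am with h2 | h2
    · exact Or.inl (hconc a' ha' 0 t a0 ap d1 h0 h1)
    · exact Or.inl (hconc a' ha' 0 t a0 ap d1 h0 h1)
    · exact Or.inl (hconc a' ha' 0 (-t) a0 am d2 h0 h2)
    · exact Or.inr (hconc b' hb' t (-t) ap am d3 h1 h2)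
    · exact Or.inl (hconc a' ha' t (-t) ap am d3 h1 h2)
    · exact Or.inr (hconc b' hb' 0 (-t) a0 am d2 h0 h2)
    · exact Or.inr (hconc b' hb' 0 t a0 ap d1 h0 h1)
    · exact Or.inr (hconc b' hb' 0 t a0 ap d1 h0 h1)

end OpenConv3d0876
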