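import Mathlib

open Finset Complex
open scoped Classical

namespace OpenConv3d0876

variable {A : Type*} [AddCommGroup A]

/-- Characters of a discrete abelian group separate points. -/
lemma exists_char_ne_one {χ : A} (h : χ ≠ 0) : ∃ y : AddChar A Circle, y χ ≠ 1 := by
  obtain ⟨c, hc⟩ := CharacterModule.exists_character_apply_ne_zero_of_ne_zero h
  let f : ℚ →+ Additive Circle :=
    { toFun := fun q => Additive.ofMul (Circle.exp (2 * Real.pi * (q : ℝ)))
      map_zero' := by simp
      map_add' := by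
        intro a b
        rw [← ofMul_mul, ← Circle.exp_add]
        push_cast
        ring_nf }
  have hf : ∀ q : ℚ, f q = 0 ↔ ∃ n : ℤ, q = n := by
    intro q
    have : f q = 0 ↔ Circle.exp (2 * Real.pi * (q : ℝ)) = 1 := Iff.rfl
    rw [this, ← Circle.exp_zero, Circle.exp_eq_exp]
    constructor
    · rintro ⟨n, hn⟩
      refine ⟨n, ?_⟩
      have h2 : (2 * Real.pi) * ((q : ℝ) - n) = 0 := by linear_combination hn
      have h3 : (q : ℝ) - n = 0 := by
        rcases mul_eq_zero.1 h2 with h | h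
        · exact absurd h (by positivity)
        · exact h
      have h4 : (q : ℝ) = ((n : ℚ) : ℝ) := by push_cast; linarith
      exact_mod_cast h4
    · rintro ⟨n, rfl⟩
      exact ⟨n, by push_cast; ring⟩
  have hle : AddSubgroup.zmultiples (1 : ℚ) ≤ f.ker := by
    rw [AddSubgroup.zmultiples_le]
    rw [AddMonoidHom.mem_ker]
    exact (hf 1).2 ⟨1, by simp⟩
  let F : (ℚ ⧸ AddSubgroup.zmultiples (1 : ℚ)) →+ Additive Circle := QuotientAddGroup.lift _ f hle
  let c' : A →+ (ℚ ⧸ AddSubgroup.zmultiples (1 : ℚ)) := c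
  refine ⟨AddChar.toAddMonoidHomEquiv.symm (F.comp c'), ?_⟩
  intro h1
  apply hc
  have h2 : F (c' χ) = 0 := h1
  obtain ⟨q, hq⟩ := QuotientAddGroup.mk_surjective (c' χ)
  rw [← hq] at h2
  have h3 : f q = 0 := h2
  obtain ⟨n, hn⟩ := (hf q).1 h3
  have h4 : c' χ = 0 := by
    rw [← hq, QuotientAddGroup.eq_zero_iff, AddSubgroup.mem_zmultiples_iff]
    exact ⟨n, by rw [hn]; simp⟩
  exact h4

/-- Evaluation of a trigonometric polynomial at a character. -/
noncomputable def ev (y : AddChar A Circle) (P : A →₀ ℂ) : ℂ := P.sum fun χ c => c * (y χ : ℂ)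

/-- The linear functional on trigonometric polynomials with Fourier coefficients `m`. -/
noncomputable def Em (m : A → ℝ) (P : A →₀ ℂ) : ℂ := P.sum fun χ c => c * (m χ : ℂ)

/-- Positivity of the functional `Em m`. -/
def IsPos (m : A → ℝ) : Prop :=
  ∀ P : A →₀ ℂ, (∀ y : AddChar A Circle, 0 ≤ (ev y P).re) → 0 ≤ (Em m P).re

lemma tendsto_avg_pow (u : Circle) (hu : u ≠ 1) :
    Filter.Tendsto (fun L : ℕ => ((L : ℂ))⁻¹ * ∑ n ∈ range L, (u : ℂ) ^ n) Filter.atTop
      (nhds 0) := by
  have hu' : (u : ℂ) - 1 ≠ 0 := by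
    intro h
    apply hu
    apply Circle.ext
    rw [Circle.coe_one]; linear_combination h
  rw [tendsto_zero_iff_norm_tendsto_zero]
  have hb : Filter.Tendsto (fun L : ℕ => ((L : ℝ))⁻¹ * (2 / ‖(u : ℂ) - 1‖)) Filter.atTop
      (nhds 0) := by
    have := (tendsto_inv_atTop_nhds_zero_nat (𝕜 := ℝ)).mul_const (2 / ‖(u : ℂ) - 1‖)
    simpa using this
  refine squeeze_zero (fun _ => norm_nonneg _) (fun L => ?_) hb
  rw [norm_mul, norm_inv, Complex.norm_natCast]
  refine mul_le_mul_of_nonneg_left ?_ (by positivity)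
  rw [geom_sum_eq (by intro h; apply hu'; rw [h]; ring), norm_div]
  refine div_le_div_of_nonneg_right ?_ (norm_nonneg _)
  calc ‖(u : ℂ) ^ L - 1‖ ≤ ‖(u : ℂ) ^ L‖ + ‖(1 : ℂ)‖ := norm_sub_le _ _
    _ = 2 := by rw [norm_pow, Circle.norm_coe]; norm_num

lemma ev_mul_pow (y y1 : AddChar A Circle) (P : A →₀ ℂ) (n : ℕ) :
    ev (y * y1 ^ n) P = P.sum fun χ c => (c * (y χ : ℂ)) * ((y1 χ : ℂ)) ^ n := by
  unfold ev
  refine Finsupp.sum_congr fun χ _ => ?_
  rw [AddChar.mul_apply, AddChar.pow_apply, Circle.coe_mul, Circle.coe_pow]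
  ring

lemma ev_filter_nonneg (P : A →₀ ℂ) (hP : ∀ y : AddChar A Circle, 0 ≤ (ev y P).re)
    (y1 : AddChar A Circle) (y : AddChar A Circle) :
    0 ≤ (ev y (P.filter (fun θ => y1 θ = 1))).re := by
  classical
  have ht : Filter.Tendsto (fun L : ℕ => ((L : ℂ))⁻¹ * ∑ n ∈ range L, ev (y * y1 ^ n) P)
      Filter.atTop (nhds (ev y (P.filter (fun θ => y1 θ = 1)))) := by
    have h1 : (fun L : ℕ => ((L : ℂ))⁻¹ * ∑ n ∈ range L, ev (y * y1 ^ n) P) =
        fun L : ℕ => ∑ χ ∈ P.support, (P χ * (y χ : ℂ)) *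
          (((L : ℂ))⁻¹ * ∑ n ∈ range L, (y1 χ : ℂ) ^ n) := by
      funext L
      simp_rw [ev_mul_pow, Finsupp.sum]
      rw [Finset.sum_comm, Finset.mul_sum]
      refine Finset.sum_congr rfl fun χ _ => ?_
      rw [← Finset.mul_sum]
      ring
    have h2 : ev y (P.filter (fun θ => y1 θ = 1)) = ∑ χ ∈ P.support, (P χ * (y χ : ℂ)) *
        (if y1 χ = 1 then 1 else 0) := by
      unfold ev
      rw [Finsupp.sum, Finsupp.support_filter, Finset.sum_filter]
      refine Finset.sum_congr rfl fun χ _ => ?_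
      by_cases h : y1 χ = 1
      · simp [h]
      · simp [h]
    rw [h1, h2]
    refine tendsto_finsetSum _ fun χ _ => ?_
    refine Filter.Tendsto.const_mul _ ?_
    by_cases h : y1 χ = 1
    · simp only [h, if_true, Circle.coe_one, one_pow, Finset.sum_const, Finset.card_range,
        nsmul_eq_mul, mul_one]
      refine tendsto_const_nhds.congr' ?_
      filter_upwards [Filter.eventually_gt_atTop 0] with L hL
      have : (L : ℂ) ≠ 0 := by exact_mod_cast hL.ne'
      field_simp
    · simp only [h, if_false]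
      exact tendsto_avg_pow _ h
  have ht2 := (Complex.continuous_re.tendsto _).comp ht
  refine ge_of_tendsto' ht2 fun L => ?_
  simp only [Function.comp]
  have : ((L : ℂ))⁻¹ * ∑ n ∈ range L, ev (y * y1 ^ n) P =
      (((L : ℝ)⁻¹ : ℝ) : ℂ) * ∑ n ∈ range L, ev (y * y1 ^ n) P := by
    push_cast; rfl
  rw [this, Complex.re_ofReal_mul, Complex.re_sum]
  refine mul_nonneg (by positivity) (Finset.sum_nonneg fun n _ => hP _)

lemma coeff_zero_nonneg (n : ℕ) : ∀ P : A →₀ ℂ, P.support.card ≤ n →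
    (∀ y : AddChar A Circle, 0 ≤ (ev y P).re) → 0 ≤ (P 0).re := by
  classical
  induction n with
  | zero =>
    intro P hc hP
    have : P = 0 := by
      rw [← Finsupp.support_eq_empty, ← Finset.card_eq_zero]; omega
    simp [this]
  | succ n ih =>
    intro P hc hP
    by_cases h : ∃ χ ∈ P.support, χ ≠ 0
    · obtain ⟨χ, hχ, hne⟩ := h
      obtain ⟨y1, hy1⟩ := exists_char_ne_one hne
      have h1 := ih (P.filter (fun θ => y1 θ = 1)) ?_ (ev_filter_nonneg P hP y1)
      · rwa [Finsupp.filter_apply_pos _ _ (by simp)] at h1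
      · rw [Finsupp.support_filter]
        have : (P.support.filter (fun θ => y1 θ = 1)).card < P.support.card := by
          refine Finset.card_lt_card ?_
          refine (Finset.filter_ssubset).2 ⟨χ, hχ, hy1⟩
        omega
    · push Not at h
      have h1 := hP 1
      have h2 : ev 1 P = P 0 := by
        unfold ev
        rw [Finsupp.sum]
        by_cases h0 : (0 : A) ∈ P.support
        · rw [Finset.sum_eq_single_of_mem 0 h0 (fun b hb hne => absurd (h b hb) hne)]
          simp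
        · have : P.support = ∅ := by
            rw [Finset.eq_empty_iff_forall_notMem]
            intro χ hχ
            exact h0 (h χ hχ ▸ hχ)
          have h3 : P = 0 := Finsupp.support_eq_empty.1 this
          simp [h3]
      rwa [h2] at h1

lemma isPos_delta : IsPos (fun χ : A => Set.indicator {0} (fun _ => (1 : ℝ)) χ) := by
  classical
  intro P hP
  have h := coeff_zero_nonneg _ P le_rfl hP
  have h2 : Em (fun χ : A => Set.indicator {0} (fun _ => (1 : ℝ)) χ) P = P 0 := by
    unfold Em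
    rw [Finsupp.sum]
    by_cases h0 : (0 : A) ∈ P.support
    · rw [Finset.sum_eq_single_of_mem 0 h0]
      · simp
      · intro b hb hne
        simp [Set.indicator, hne]
    · rw [Finset.sum_eq_zero]
      · simpa using (Finsupp.notMem_support_iff.1 h0).symm
      · intro b hb
        have : b ≠ 0 := fun h => h0 (h ▸ hb)
        simp [Set.indicator, this]
  rwa [h2]

/-- `f` is a trigonometric polynomial whose `m`-expectation is `e`. -/
def HasE (m : A → ℝ) (f : AddChar A Circle → ℂ) (e : ℂ) : Prop :=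
  ∃ P : A →₀ ℂ, (∀ y, ev y P = f y) ∧ Em m P = e

lemma HasE.congr {m : A → ℝ} {f g : AddChar A Circle → ℂ} {e e' : ℂ} (h : HasE m f e)
    (hfg : ∀ y, g y = f y) (hee : e' = e) : HasE m g e' := by
  obtain ⟨P, h1, h2⟩ := h
  exact ⟨P, fun y => by rw [h1, hfg], by rw [h2, hee]⟩

lemma HasE.zero (m : A → ℝ) : HasE m (fun _ => 0) 0 :=
  ⟨0, fun y => by simp [ev], by simp [Em]⟩

lemma HasE.char (m : A → ℝ) (χ : A) : HasE m (fun y => (y χ : ℂ)) (m χ) :=
  ⟨Finsupp.single χ 1, fun y => by simp [ev], by simp [Em]⟩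

lemma HasE.add {m : A → ℝ} {f g : AddChar A Circle → ℂ} {e e' : ℂ} (h : HasE m f e)
    (h' : HasE m g e') : HasE m (fun y => f y + g y) (e + e') := by
  obtain ⟨P, h1, h2⟩ := h
  obtain ⟨Q, h1', h2'⟩ := h'
  refine ⟨P + Q, fun y => ?_, ?_⟩
  · simp only [← h1, ← h1']
    unfold ev
    exact Finsupp.sum_add_index' (by simp) (by intros; ring)
  · rw [← h2, ← h2']
    unfold Em
    exact Finsupp.sum_add_index' (by simp) (by intros; ring)

lemma HasE.const_mul {m : A → ℝ} {f : AddChar A Circle → ℂ} {e : ℂ} (c : ℂ) (h : HasE m f e) :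
    HasE m (fun y => c * f y) (c * e) := by
  obtain ⟨P, h1, h2⟩ := h
  refine ⟨c • P, fun y => ?_, ?_⟩
  · simp only [← h1]
    unfold ev
    rw [Finsupp.sum_smul_index' (by simp), Finsupp.mul_sum]
    exact Finsupp.sum_congr fun χ _ => by rw [smul_eq_mul]; ring
  · rw [← h2]
    unfold Em
    rw [Finsupp.sum_smul_index' (by simp), Finsupp.mul_sum]
    exact Finsupp.sum_congr fun χ _ => by rw [smul_eq_mul]; ring

lemma HasE.sub {m : A → ℝ} {f g : AddChar A Circle → ℂ} {e e' : ℂ} (h : HasE m f e)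
    (h' : HasE m g e') : HasE m (fun y => f y - g y) (e - e') :=
  (h.add (h'.const_mul (-1))).congr (fun y => by ring) (by ring)

lemma HasE.sum {m : A → ℝ} {ι : Type*} (s : Finset ι) {f : ι → AddChar A Circle → ℂ} {e : ι → ℂ}
    (h : ∀ i ∈ s, HasE m (f i) (e i)) : HasE m (fun y => ∑ i ∈ s, f i y) (∑ i ∈ s, e i) := by
  induction s using Finset.induction_on with
  | empty => simpa using HasE.zero m
  | insert a s ha ih =>
    refine ((h a (mem_insert_self _ _)).add (ih fun i hi => h i (mem_insert_of_mem hi))).congr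
      (fun y => ?_) ?_
    · rw [Finset.sum_insert ha]
    · rw [Finset.sum_insert ha]

lemma HasE.const {m : A → ℝ} (h0 : m 0 = 1) (c : ℂ) : HasE m (fun _ => c) c :=
  ((HasE.char m 0).const_mul c).congr (fun y => by simp) (by simp [h0])

lemma char_sub (y : AddChar A Circle) (a b : A) :
    ((y (a - b) : Circle) : ℂ) = (y a : ℂ) * (starRingEnd ℂ) (y b : ℂ) := by
  rw [AddChar.map_sub_eq_div, Circle.coe_div, div_eq_mul_inv, ← Circle.coe_inv,
    Circle.coe_inv_eq_conj]

lemma char_neg (y : AddChar A Circle) (b : A) :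
    ((y (-b) : Circle) : ℂ) = (starRingEnd ℂ) (y b : ℂ) := by
  rw [AddChar.map_neg_eq_inv, Circle.coe_inv_eq_conj]

/-- Second moments. -/
lemma HasE.normSq {m : A → ℝ} {ι : Type*} (s : Finset ι) (α : ι → ℂ) (χ : ι → A) :
    HasE m (fun y => ((Complex.normSq (∑ i ∈ s, α i * (y (χ i) : ℂ)) : ℝ) : ℂ))
      (∑ i ∈ s, ∑ j ∈ s, α i * (starRingEnd ℂ) (α j) * (m (χ i - χ j) : ℂ)) := by
  refine (HasE.sum s fun i _ => HasE.sum s fun j _ =>
    (HasE.char m (χ i - χ j)).const_mul (α i * (starRingEnd ℂ) (α j))).congr (fun y => ?_) rfl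
  rw [← Complex.mul_conj, map_sum, Finset.sum_mul_sum]
  refine Finset.sum_congr rfl fun i _ => Finset.sum_congr rfl fun j _ => ?_
  rw [char_sub, map_mul]
  ring

/-- Variances. -/
lemma HasE.variance {m : A → ℝ} (h0 : m 0 = 1) (hs : ∀ χ, m (-χ) = m χ) {ι : Type*}
    (s : Finset ι) (α : ι → ℂ) (χ : ι → A) :
    HasE m (fun y => ((Complex.normSq (∑ i ∈ s, α i * ((y (χ i) : ℂ) - (m (χ i) : ℂ))) : ℝ) : ℂ))
      (∑ i ∈ s, ∑ j ∈ s, α i * (starRingEnd ℂ) (α j) *
        ((m (χ i - χ j) : ℂ) - (m (χ i) : ℂ) * (m (χ j) : ℂ))) := by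
  refine (HasE.sum s fun i _ => HasE.sum s fun j _ =>
    ((((HasE.char m (χ i - χ j)).sub ((HasE.char m (χ i)).const_mul (m (χ j) : ℂ))).sub
      ((HasE.char m (- χ j)).const_mul (m (χ i) : ℂ))).add
      (HasE.const h0 ((m (χ i) : ℂ) * (m (χ j) : ℂ)))).const_mul
        (α i * (starRingEnd ℂ) (α j))).congr (fun y => ?_) ?_
  · rw [← Complex.mul_conj, map_sum, Finset.sum_mul_sum]
    refine Finset.sum_congr rfl fun i _ => Finset.sum_congr rfl fun j _ => ?_
    rw [char_sub, char_neg, map_mul, map_sub, Complex.conj_ofReal]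
    ring
  · refine Finset.sum_congr rfl fun i _ => Finset.sum_congr rfl fun j _ => ?_
    rw [hs]
    ring

lemma exists_re_pos {m : A → ℝ} (hm : IsPos m) {f : AddChar A Circle → ℂ} {e : ℂ}
    (hf : HasE m f e) (he : 0 < e.re) : ∃ y, 0 < (f y).re := by
  by_contra hcon
  push Not at hcon
  obtain ⟨P, h1, h2⟩ := hf
  have := hm (-P) (fun y => ?_)
  · have h3 : Em m (-P) = - Em m P := by
      unfold Em
      rw [Finsupp.sum_neg_index (by simp)]
      simp [Finsupp.sum]
    rw [h3, h2] at this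
    simp at this
    linarith
  · have h3 : ev y (-P) = - ev y P := by
      unfold ev
      rw [Finsupp.sum_neg_index (by simp)]
      simp [Finsupp.sum]
    rw [h3, h1]
    simpa using hcon y

end OpenConv3d0876
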