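import Pool.Agent.Lib.MP_3d0876_an.Words

open Finset Complex
open scoped Classical

namespace OpenConv3d0876

variable {A : Type*} [AddCommGroup A]

/-- The part of `S` covered by words of degree at most `d` (letters below `N`) around `Λ`. -/
noncomputable def Cov (g : ℕ → A) (N : ℕ) (S Λ : Finset A) (d : ℕ) : Finset A :=
  S.filter fun χ => ∃ l ∈ Λ, ∃ w, IsWord g w ∧ w.support ⊆ range N ∧ w.support.card ≤ d ∧
    χ = l + val w

lemma Cov_subset (g : ℕ → A) (N : ℕ) (S Λ : Finset A) (d : ℕ) : Cov g N S Λ d ⊆ S :=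
  Finset.filter_subset _ _

lemma Cov_mono (g : ℕ → A) (N : ℕ) (S : Finset A) {Λ Λ' : Finset A} (h : Λ ⊆ Λ') {d d' : ℕ}
    (hd : d ≤ d') : Cov g N S Λ d ⊆ Cov g N S Λ' d' := by
  intro χ hχ
  unfold Cov at *
  rw [Finset.mem_filter] at *
  obtain ⟨h1, l, hl, w, h2, h3, h4, h5⟩ := hχ
  exact ⟨h1, l, h hl, w, h2, h3, h4.trans hd, h5⟩

lemma sum_le_of_subset' {μ : A → ℝ} (hμ : ∀ χ, 0 ≤ μ χ) {S T : Finset A} (h : S ⊆ T) :
    ∑ χ ∈ S, μ χ ≤ ∑ χ ∈ T, μ χ :=
  Finset.sum_le_sum_of_subset_of_nonneg h fun χ _ _ => hμ χ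

lemma greedy (g : ℕ → A) (N : ℕ) {θ M : ℝ} (d : ℕ) (S : Finset A) (μ : A → ℝ)
    (hμ : ∀ χ, 0 ≤ μ χ) (hM : ∑ χ ∈ S, μ χ ≤ M) (k : ℕ) :
    ∀ Λ : Finset A, M - k * θ < ∑ χ ∈ Cov g N S Λ d, μ χ →
      ∃ Λ' : Finset A, Λ ⊆ Λ' ∧ Λ'.card ≤ Λ.card + k ∧
        ∀ l : A, ∑ χ ∈ Cov g N S {l} d \ Cov g N S Λ' d, μ χ ≤ θ := by
  induction k with
  | zero =>
    intro Λ h
    have := sum_le_of_subset' hμ (Cov_subset g N S Λ d)
    simp only [Nat.cast_zero, zero_mul, sub_zero] at h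
    linarith
  | succ k ih =>
    intro Λ h
    by_cases hall : ∀ l : A, ∑ χ ∈ Cov g N S {l} d \ Cov g N S Λ d, μ χ ≤ θ
    · exact ⟨Λ, subset_rfl, by omega, hall⟩
    · push Not at hall
      obtain ⟨l, hl⟩ := hall
      have h1 : ∑ χ ∈ Cov g N S Λ d, μ χ + ∑ χ ∈ Cov g N S {l} d \ Cov g N S Λ d, μ χ ≤
          ∑ χ ∈ Cov g N S (insert l Λ) d, μ χ := by
        rw [← Finset.sum_union (Finset.disjoint_sdiff)]
        refine sum_le_of_subset' hμ ?_
        refine Finset.union_subset (Cov_mono g N S (Finset.subset_insert _ _) le_rfl) ?_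
        refine Finset.sdiff_subset.trans (Cov_mono g N S ?_ le_rfl)
        simp
      obtain ⟨Λ', h2, h3, h4⟩ := ih (insert l Λ) (by push_cast at h; linarith)
      refine ⟨Λ', (Finset.subset_insert _ _).trans h2, ?_, h4⟩
      have := Finset.card_insert_le l Λ
      omega

/-- Cluster decomposition. -/
lemma cluster_aux (g : ℕ → A) (F : ℕ → ℕ) {κ : ℝ} (hκ : 0 < κ) (M : ℝ) (t : ℕ) :
    ∀ n : ℕ, ∃ nmax : ℕ, ∀ (N : ℕ) (S : Finset A) (μ : A → ℝ), (∀ χ, 0 ≤ μ χ) →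
      ∑ χ ∈ S, μ χ ≤ M → ∀ Λ : Finset A, Λ.card ≤ n → M - t * κ < ∑ χ ∈ Cov g N S Λ n, μ χ →
      ∃ n' ≤ nmax, ∃ Λ' : Finset A, Λ'.card ≤ n' ∧ ∃ R : Finset A, R ⊆ S ∧
        Disjoint R (Cov g N S Λ' n') ∧ ∑ χ ∈ S \ (Cov g N S Λ' n' ∪ R), μ χ ≤ κ ∧
        ∀ l : A, ∑ χ ∈ R ∩ Cov g N S {l} (F n'), μ χ ≤ 1 / ((F n' : ℝ) + 1) := by
  induction t with
  | zero =>
    intro n
    refine ⟨0, ?_⟩
    intro N S μ hμ hM Λ _ h
    have := sum_le_of_subset' hμ (Cov_subset g N S Λ n)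
    simp only [Nat.cast_zero, zero_mul, sub_zero] at h
    linarith
  | succ t ih =>
    intro n
    obtain ⟨k, hk⟩ := exists_nat_gt (M * ((F n : ℝ) + 1))
    obtain ⟨nmax, hnmax⟩ := ih (n + k + F n)
    refine ⟨max n nmax, ?_⟩
    intro N S μ hμ hM Λ hΛ h
    have hpos : (0 : ℝ) < (F n : ℝ) + 1 := by positivity
    obtain ⟨Λ', h1, h2, h3⟩ := greedy g N (θ := 1 / ((F n : ℝ) + 1)) (F n + n) S μ hμ hM k Λ (by
      have h4 : (0 : ℝ) ≤ ∑ χ ∈ Cov g N S Λ (F n + n), μ χ := Finset.sum_nonneg fun χ _ => hμ χ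
      have h5 : M < k * (1 / ((F n : ℝ) + 1)) := by
        rw [mul_one_div, lt_div_iff₀ hpos]
        exact hk
      linarith)
    by_cases hj : ∑ χ ∈ Cov g N S Λ' (F n + n) \ Cov g N S Λ n, μ χ ≤ κ
    · refine ⟨n, le_max_left _ _, Λ, hΛ, S \ Cov g N S Λ' (F n + n), Finset.sdiff_subset, ?_, ?_, ?_⟩
      · rw [Finset.disjoint_left]
        intro χ hχ hχ2
        rw [Finset.mem_sdiff] at hχ
        exact hχ.2 (Cov_mono g N S h1 (by omega) hχ2)
      · refine le_trans (sum_le_of_subset' hμ ?_) hj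
        intro χ hχ
        rw [Finset.mem_sdiff, Finset.mem_union, Finset.mem_sdiff] at hχ
        rw [Finset.mem_sdiff]
        tauto
      · intro l
        refine le_trans (sum_le_of_subset' hμ ?_) (h3 l)
        intro χ hχ
        rw [Finset.mem_inter, Finset.mem_sdiff] at hχ
        rw [Finset.mem_sdiff]
        exact ⟨Cov_mono g N S subset_rfl (by omega) hχ.2, hχ.1.2⟩
    · push Not at hj
      have h4 : ∑ χ ∈ Cov g N S Λ n, μ χ + ∑ χ ∈ Cov g N S Λ' (F n + n) \ Cov g N S Λ n, μ χ ≤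
          ∑ χ ∈ Cov g N S Λ' (n + k + F n), μ χ := by
        rw [← Finset.sum_union (Finset.disjoint_sdiff)]
        refine sum_le_of_subset' hμ ?_
        exact Finset.union_subset (Cov_mono g N S h1 (by omega))
          (Finset.sdiff_subset.trans (Cov_mono g N S subset_rfl (by omega)))
      obtain ⟨n', h5, h6⟩ := hnmax N S μ hμ hM Λ' (by omega) (by push_cast at h; linarith)
      exact ⟨n', h5.trans (le_max_right _ _), h6⟩

/-- Influence decomposition. -/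
lemma influence_aux (θ : ℕ → ℝ) (hθ : ∀ s, 0 < θ s) {κ : ℝ} (hκ : 0 < κ) (B : ℝ) (t : ℕ) :
    ∀ s : ℕ, ∃ smax : ℕ, ∀ (S : Finset A) (μ : A → ℝ) (w : A → (ℕ →₀ A)), (∀ χ, 0 ≤ μ χ) →
      ∑ χ ∈ S, μ χ * ((w χ).support.card : ℝ) ≤ B → ∀ J : Finset ℕ, J.card ≤ s →
      ∑ χ ∈ S, μ χ * (((w χ).support \ J).card : ℝ) < t * κ →
      ∃ s' ≤ smax, ∃ J' : Finset ℕ, J'.card ≤ s' ∧ ∃ R : Finset A, R ⊆ S ∧
        ∑ χ ∈ R, μ χ ≤ κ ∧
        ∀ j : ℕ, ∑ χ ∈ (S \ R).filter (fun χ => j ∈ (w χ).support \ J'), μ χ ≤ θ s' := by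
  induction t with
  | zero =>
    intro s
    refine ⟨0, ?_⟩
    intro S μ w hμ _ J _ h
    have : 0 ≤ ∑ χ ∈ S, μ χ * (((w χ).support \ J).card : ℝ) :=
      Finset.sum_nonneg fun χ _ => mul_nonneg (hμ χ) (by positivity)
    simp only [Nat.cast_zero, zero_mul] at h
    linarith
  | succ t ih =>
    intro s
    obtain ⟨k, hk⟩ := exists_nat_gt (B / θ s)
    obtain ⟨smax, hsmax⟩ := ih (s + k)
    refine ⟨max s smax, ?_⟩
    intro S μ w hμ hB J hJ h
    set Jp : Finset ℕ := (S.biUnion fun χ => (w χ).support).filter (fun j =>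
      θ s < ∑ χ ∈ S.filter (fun χ => j ∈ (w χ).support \ J), μ χ) with hJp
    have hJpcard : Jp.card ≤ k := by
      have h1 : (Jp.card : ℝ) * θ s ≤ ∑ j ∈ Jp, ∑ χ ∈ S.filter (fun χ => j ∈ (w χ).support \ J), μ χ := by
        rw [← nsmul_eq_mul]
        refine Finset.card_nsmul_le_sum _ _ _ fun j hj => ?_
        rw [hJp, Finset.mem_filter] at hj
        exact hj.2.le
      have h2 : ∑ j ∈ Jp, ∑ χ ∈ S.filter (fun χ => j ∈ (w χ).support \ J), μ χ ≤ B := by
        simp_rw [Finset.sum_filter]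
        rw [Finset.sum_comm]
        refine le_trans (Finset.sum_le_sum fun χ _ => ?_) hB
        rw [← Finset.sum_filter, Finset.sum_const, nsmul_eq_mul, mul_comm]
        refine mul_le_mul_of_nonneg_left ?_ (hμ χ)
        norm_cast
        refine Finset.card_le_card ?_
        intro j hj
        rw [Finset.mem_filter, Finset.mem_sdiff] at hj
        exact hj.2.1
      have h3 : (Jp.card : ℝ) ≤ B / θ s := by
        rw [le_div_iff₀ (hθ s)]; linarith
      have h4 : (Jp.card : ℝ) < k := lt_of_le_of_lt h3 hk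
      exact_mod_cast h4.le
    set R : Finset A := S.filter (fun χ => ∃ j ∈ Jp, j ∈ (w χ).support \ J) with hR
    by_cases hj : ∑ χ ∈ R, μ χ ≤ κ
    · refine ⟨s, le_max_left _ _, J, hJ, R, Finset.filter_subset _ _, hj, ?_⟩
      intro j
      by_cases hjp : j ∈ Jp
      · have : (S \ R).filter (fun χ => j ∈ (w χ).support \ J) = ∅ := by
          rw [Finset.eq_empty_iff_forall_notMem]
          intro χ hχ
          rw [Finset.mem_filter, Finset.mem_sdiff, hR, Finset.mem_filter] at hχ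
          exact hχ.1.2 ⟨hχ.1.1, j, hjp, hχ.2⟩
        rw [this]
        simpa using (hθ s).le
      · refine le_trans (sum_le_of_subset' hμ (Finset.filter_subset_filter _ Finset.sdiff_subset)) ?_
        by_cases hb : j ∈ S.biUnion fun χ => (w χ).support
        · rw [hJp, Finset.mem_filter] at hjp
          push Not at hjp
          exact hjp hb
        · have : S.filter (fun χ => j ∈ (w χ).support \ J) = ∅ := by
            rw [Finset.eq_empty_iff_forall_notMem]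
            intro χ hχ
            rw [Finset.mem_filter, Finset.mem_sdiff] at hχ
            exact hb (Finset.mem_biUnion.2 ⟨χ, hχ.1, hχ.2.1⟩)
          rw [this]
          simpa using (hθ s).le
    · push Not at hj
      have hdec : ∑ χ ∈ S, μ χ * (((w χ).support \ (J ∪ Jp)).card : ℝ) + ∑ χ ∈ R, μ χ ≤
          ∑ χ ∈ S, μ χ * (((w χ).support \ J).card : ℝ) := by
        rw [hR, Finset.sum_filter, ← Finset.sum_add_distrib]
        refine Finset.sum_le_sum fun χ _ => ?_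
        have hsub : (w χ).support \ (J ∪ Jp) ⊆ (w χ).support \ J :=
          Finset.sdiff_subset_sdiff subset_rfl Finset.subset_union_left
        split_ifs with hex
        · obtain ⟨j, hj1, hj2⟩ := hex
          have hlt : ((w χ).support \ (J ∪ Jp)).card < ((w χ).support \ J).card := by
            refine Finset.card_lt_card ⟨hsub, fun hcon => ?_⟩
            have := hcon hj2
            rw [Finset.mem_sdiff, Finset.mem_union] at this
            exact this.2 (Or.inr hj1)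
          have : (((w χ).support \ (J ∪ Jp)).card : ℝ) + 1 ≤ (((w χ).support \ J).card : ℝ) := by
            exact_mod_cast hlt
          nlinarith [hμ χ]
        · rw [add_zero]
          refine mul_le_mul_of_nonneg_left ?_ (hμ χ)
          exact_mod_cast Finset.card_le_card hsub
      obtain ⟨s', h5, h6⟩ := hsmax S μ w hμ hB (J ∪ Jp)
        ((Finset.card_union_le _ _).trans (by omega)) (by push_cast at h; linarith)
      exact ⟨s', h5.trans (le_max_right _ _), h6⟩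

/-- values of words supported on `J` -/
noncomputable def wordVals (g : ℕ → A) (J : Finset ℕ) : Finset A :=
  (J.pi (fun j => ({0, g j, - g j} : Finset A))).image fun f => ∑ j ∈ J.attach, f j.1 j.2

lemma card_wordVals (g : ℕ → A) (J : Finset ℕ) : (wordVals g J).card ≤ 3 ^ J.card := by
  unfold wordVals
  refine Finset.card_image_le.trans ?_
  rw [Finset.card_pi]
  exact Finset.prod_le_pow_card _ _ _ fun j _ => Finset.card_le_three

lemma val_mem_wordVals {g : ℕ → A} {J : Finset ℕ} {w : ℕ →₀ A} (hw : IsWord g w)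
    (hJ : w.support ⊆ J) : val w ∈ wordVals g J := by
  unfold wordVals
  rw [Finset.mem_image]
  refine ⟨fun j _ => w j, ?_, ?_⟩
  · rw [Finset.mem_pi]
    intro j _
    simp only [Finset.mem_insert, Finset.mem_singleton]
    exact hw j
  · rw [Finset.sum_attach J (fun j => w j)]
    have : val w = w.sum fun _ a => a := rfl
    rw [this, Finsupp.sum]
    exact (Finset.sum_subset hJ fun j _ hj => Finsupp.notMem_support_iff.1 hj).symm

/-- **Decomposition lemma.** -/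
theorem decomp (g : ℕ → A) (F : ℕ → ℕ) {κ : ℝ} (hκ : 0 < κ) {M : ℝ} (hM0 : 0 ≤ M) :
    ∃ nmax : ℕ, ∀ (N : ℕ) (S : Finset A) (μ : A → ℝ), (∀ χ, 0 ≤ μ χ) →
      ∑ χ ∈ S, μ χ ≤ M → ∃ n ≤ nmax, ∃ (Λ main R : Finset A) (c : A → A) (v : A → (ℕ →₀ A)),
      Λ.card ≤ n ∧ main ⊆ S ∧ R ⊆ S ∧ Disjoint main R ∧
      (∀ χ ∈ main, χ = c χ + val (v χ) ∧ c χ ∈ Λ ∧ IsWord g (v χ) ∧ (v χ).support ⊆ range N ∧
        (v χ).support.card ≤ n) ∧
      ∑ χ ∈ S \ (main ∪ R), μ χ ≤ κ ∧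
      (∀ l : A, ∑ χ ∈ R ∩ Cov g N S {l} (F n), μ χ ≤ 1 / ((F n : ℝ) + 1)) ∧
      (∀ j : ℕ, ∑ χ ∈ main.filter (fun χ => j ∈ (v χ).support), μ χ ≤ 1 / ((F n : ℝ) + 1)) := by
  set h : ℕ → ℕ → ℕ := fun n1 s => n1 * 3 ^ s + n1 with hh
  have hκ2 : 0 < κ / 2 := by positivity
  -- influence bounds for every n1
  have hS2 : ∀ n1 : ℕ, ∃ smax : ℕ, ∀ (S : Finset A) (μ : A → ℝ) (w : A → (ℕ →₀ A)),
      (∀ χ, 0 ≤ μ χ) → ∑ χ ∈ S, μ χ * ((w χ).support.card : ℝ) ≤ M * n1 →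
      ∃ s' ≤ smax, ∃ J' : Finset ℕ, J'.card ≤ s' ∧ ∃ R : Finset A, R ⊆ S ∧
        ∑ χ ∈ R, μ χ ≤ κ / 2 ∧
        ∀ j : ℕ, ∑ χ ∈ (S \ R).filter (fun χ => j ∈ (w χ).support \ J'), μ χ ≤
          1 / ((F (h n1 s') : ℝ) + 1) := by
    intro n1
    obtain ⟨t, ht⟩ := exists_nat_gt (M * n1 / (κ / 2))
    obtain ⟨smax, hs⟩ := influence_aux (A := A) (fun s => 1 / ((F (h n1 s) : ℝ) + 1))
      (fun s => by positivity) hκ2 (M * n1) t 0
    refine ⟨smax, fun S μ w hμ hB => ?_⟩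
    refine hs S μ w hμ hB ∅ (by simp) ?_
    simp only [Finset.sdiff_empty]
    refine lt_of_le_of_lt hB ?_
    rwa [div_lt_iff₀ hκ2] at ht
  choose smax hsmax using hS2
  set F1 : ℕ → ℕ := fun n1 => ∑ s ∈ range (smax n1 + 1), F (h n1 s) with hF1
  obtain ⟨t, ht⟩ := exists_nat_gt (M / (κ / 2))
  obtain ⟨nm, hnm⟩ := cluster_aux g F1 hκ2 M t 0
  refine ⟨∑ n1 ∈ range (nm + 1), ∑ s ∈ range (smax n1 + 1), h n1 s, ?_⟩
  intro N S μ hμ hM
  obtain ⟨n1, hn1, Λ1, hΛ1, R1, hR1S, hR1d, hjunk1, hrest⟩ := hnm N S μ hμ hM ∅ (by simp) (by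
    have h1 : M < t * (κ / 2) := by rwa [div_lt_iff₀ hκ2] at ht
    have h2 : (0 : ℝ) ≤ ∑ χ ∈ Cov g N S ∅ 0, μ χ := Finset.sum_nonneg fun χ _ => hμ χ
    linarith)
  set C := Cov g N S Λ1 n1 with hC
  have hCmem : ∀ χ, ∃ (l : A) (w : ℕ →₀ A), χ ∈ C → (l ∈ Λ1 ∧ IsWord g w ∧ w.support ⊆ range N ∧
      w.support.card ≤ n1 ∧ χ = l + val w) := by
    intro χ
    by_cases hχ : χ ∈ C
    · have := hχ
      rw [hC, Cov, Finset.mem_filter] at this
      obtain ⟨_, l, hl, w, h2, h3, h4, h5⟩ := this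
      exact ⟨l, w, fun _ => ⟨hl, h2, h3, h4, h5⟩⟩
    · exact ⟨0, 0, fun h => absurd h hχ⟩
  choose l w hlw using hCmem
  obtain ⟨s, hs, J, hJ, R2, hR2, hjunk2, hinf⟩ := hsmax n1 C μ w hμ (by
    calc ∑ χ ∈ C, μ χ * ((w χ).support.card : ℝ) ≤ ∑ χ ∈ C, μ χ * (n1 : ℝ) := by
          refine Finset.sum_le_sum fun χ hχ => mul_le_mul_of_nonneg_left ?_ (hμ χ)
          exact_mod_cast (hlw χ hχ).2.2.2.1
      _ = (∑ χ ∈ C, μ χ) * n1 := by rw [Finset.sum_mul]
      _ ≤ M * n1 := by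
          refine mul_le_mul_of_nonneg_right ?_ (by positivity)
          exact (sum_le_of_subset' hμ (Cov_subset g N S Λ1 n1)).trans hM)
  have hFle : F (h n1 s) ≤ F1 n1 := by
    rw [hF1]
    exact Finset.single_le_sum (f := fun s => F (h n1 s)) (fun _ _ => Nat.zero_le _)
      (Finset.mem_range.2 (by omega))
  have hle : h n1 s ≤ ∑ n1 ∈ range (nm + 1), ∑ s ∈ range (smax n1 + 1), h n1 s := by
    refine le_trans ?_ (Finset.single_le_sum (f := fun n1 => ∑ s ∈ range (smax n1 + 1), h n1 s)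
      (fun _ _ => Nat.zero_le _) (Finset.mem_range.2 (show n1 < nm + 1 by omega)))
    exact Finset.single_le_sum (f := fun s => h n1 s) (fun _ _ => Nat.zero_le _)
      (Finset.mem_range.2 (by omega))
  refine ⟨h n1 s, hle, (Λ1 ×ˢ wordVals g J).image (fun p => p.1 + p.2), C \ R2, R1,
    fun χ => l χ + val ((w χ).filter (· ∈ J)), fun χ => (w χ).filter (· ∉ J), ?_, ?_, hR1S, ?_, ?_,
    ?_, ?_, ?_⟩
  · refine Finset.card_image_le.trans ?_
    rw [Finset.card_product]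
    have h1 : (wordVals g J).card ≤ 3 ^ s :=
      (card_wordVals g J).trans (Nat.pow_le_pow_right (by norm_num) hJ)
    calc Λ1.card * (wordVals g J).card ≤ n1 * 3 ^ s := Nat.mul_le_mul hΛ1 h1
      _ ≤ h n1 s := by rw [hh]; simp
  · exact Finset.sdiff_subset.trans (Cov_subset g N S Λ1 n1)
  · exact (hR1d.symm).mono_left Finset.sdiff_subset
  · intro χ hχ
    rw [Finset.mem_sdiff] at hχ
    obtain ⟨h1, h2, h3, h4, h5⟩ := hlw χ hχ.1
    have hsup : ((w χ).filter (· ∉ J)).support ⊆ (w χ).support := by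
      rw [Finsupp.support_filter]
      exact Finset.filter_subset _ _
    refine ⟨?_, ?_, h2.filter _, hsup.trans h3, ?_⟩
    · rw [add_assoc, ← map_add, Finsupp.filter_pos_add_filter_neg]
      exact h5
    · rw [Finset.mem_image]
      refine ⟨(l χ, val ((w χ).filter (· ∈ J))), Finset.mk_mem_product h1 ?_, rfl⟩
      refine val_mem_wordVals (h2.filter _) ?_
      rw [Finsupp.support_filter]
      intro j hj
      exact (Finset.mem_filter.1 hj).2
    · refine (Finset.card_le_card hsup).trans (h4.trans ?_)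
      rw [hh]
      simp
  · have hsub : S \ (C \ R2 ∪ R1) ⊆ (S \ (C ∪ R1)) ∪ R2 := by
      intro χ hχ
      simp only [Finset.mem_sdiff, Finset.mem_union] at hχ ⊢
      tauto
    have h1 := sum_le_of_subset' hμ hsub
    have h2 : ∑ χ ∈ (S \ (C ∪ R1)) ∪ R2, μ χ ≤ ∑ χ ∈ S \ (C ∪ R1), μ χ + ∑ χ ∈ R2, μ χ := by
      have := Finset.sum_union_inter (s₁ := S \ (C ∪ R1)) (s₂ := R2) (f := μ)
      have h3 : 0 ≤ ∑ χ ∈ (S \ (C ∪ R1)) ∩ R2, μ χ := Finset.sum_nonneg fun χ _ => hμ χ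
      linarith
    linarith
  · intro l'
    refine le_trans (sum_le_of_subset' hμ (Finset.inter_subset_inter_left
      (Cov_mono g N S subset_rfl hFle))) ((hrest l').trans ?_)
    refine one_div_le_one_div_of_le (by positivity) ?_
    have : (F (h n1 s) : ℝ) ≤ (F1 n1 : ℝ) := by exact_mod_cast hFle
    linarith
  · intro j
    refine le_trans (sum_le_of_subset' hμ ?_) (hinf j)
    intro χ hχ
    rw [Finset.mem_filter] at hχ ⊢
    refine ⟨hχ.1, ?_⟩
    have h1 := hχ.2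
    rw [Finsupp.support_filter, Finset.mem_filter] at h1
    rw [Finset.mem_sdiff]
    exact h1

end OpenConv3d0876
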