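import Pool.Agent.Lib.MP_3d0876_an.Loc
import Pool.Agent.Lib.MP_3d0876_an.Decomp

open Finset Complex
open scoped Classical

namespace OpenConv3d0876

variable {A : Type*} [AddCommGroup A]

lemma mm_val_sub {g : ℕ → A} (hg : Dissoc g) {I : Finset ℕ} (z : ℝ) {w w' : ℕ →₀ A}
    (hw : IsWord g w) (hI : w.support ⊆ I) (hw' : IsWord g w') (hI' : w'.support ⊆ I)
    (hd : Disjoint w.support w'.support) :
    mm g I z (val w - val w') = mm g I z (val w) * mm g I z (val w') := by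
  have h1 : val w - val w' = val (w + -w') := by rw [map_add, map_neg, sub_eq_add_neg]
  have hd' : Disjoint w.support (-w').support := by rwa [Finsupp.support_neg]
  rw [h1, mm_val hg z (hw.add hw'.neg hd'), mm_val hg z hw hI, mm_val hg z hw' hI', ← pow_add,
    Finsupp.support_add_eq hd', Finset.card_union_of_disjoint hd', Finsupp.support_neg]
  exact Finsupp.support_add.trans (Finset.union_subset hI (by rwa [Finsupp.support_neg]))

lemma var_bound {g : ℕ → A} (hg : Dissoc g) {I : Finset ℕ} {z : ℝ} (hz : 0 ≤ z) (hz1 : z ≤ 1)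
    {ι : Type*} (T : Finset ι) (α : ι → ℂ) (μ : ι → ℝ) (v : ι → (ℕ →₀ A))
    (hμ : ∀ i, ‖α i‖ ≤ μ i) (hv : ∀ i ∈ T, IsWord g (v i) ∧ (v i).support ⊆ I)
    {n : ℕ} (hn : ∀ i ∈ T, (v i).support.card ≤ n) {ε : ℝ}
    (hε : ∀ j : ℕ, ∑ i ∈ T.filter (fun i => j ∈ (v i).support), μ i ≤ ε) (hε0 : 0 ≤ ε) :
    ‖∑ i ∈ T, ∑ j ∈ T, α i * (starRingEnd ℂ) (α j) *
        ((mm g I z (val (v i) - val (v j)) : ℂ) -
          (mm g I z (val (v i)) : ℂ) * (mm g I z (val (v j)) : ℂ))‖ ≤ (∑ i ∈ T, μ i) * (n * ε) := by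
  have hμ0 : ∀ i, 0 ≤ μ i := fun i => (norm_nonneg _).trans (hμ i)
  have hin : ∀ i ∈ T, ‖∑ j ∈ T, α i * (starRingEnd ℂ) (α j) *
        ((mm g I z (val (v i) - val (v j)) : ℂ) -
          (mm g I z (val (v i)) : ℂ) * (mm g I z (val (v j)) : ℂ))‖ ≤ μ i * (n * ε) := by
    intro i hi
    calc ‖∑ j ∈ T, α i * (starRingEnd ℂ) (α j) *
        ((mm g I z (val (v i) - val (v j)) : ℂ) -
          (mm g I z (val (v i)) : ℂ) * (mm g I z (val (v j)) : ℂ))‖
        ≤ ∑ j ∈ T, μ i * (if Disjoint (v i).support (v j).support then 0 else μ j) := by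
          refine (norm_sum_le _ _).trans (Finset.sum_le_sum fun j hj => ?_)
          rw [norm_mul, norm_mul, RCLike.norm_conj, mul_assoc]
          refine mul_le_mul (hμ i) ?_ (by positivity) (hμ0 i)
          split_ifs with hd
          · rw [mm_val_sub hg z (hv i hi).1 (hv i hi).2 (hv j hj).1 (hv j hj).2 hd]
            simp
          · have h1 : ‖((mm g I z (val (v i) - val (v j)) : ℂ) -
              (mm g I z (val (v i)) : ℂ) * (mm g I z (val (v j)) : ℂ))‖ ≤ 1 := by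
              have e : ((mm g I z (val (v i) - val (v j)) : ℂ) -
                (mm g I z (val (v i)) : ℂ) * (mm g I z (val (v j)) : ℂ)) =
                ((mm g I z (val (v i) - val (v j)) -
                mm g I z (val (v i)) * mm g I z (val (v j)) : ℝ) : ℂ) := by push_cast; ring
              rw [e, Complex.norm_real, Real.norm_eq_abs, abs_le]
              have a1 := mm_nonneg (g := g) I hz (val (v i) - val (v j))
              have a2 := mm_le_one (g := g) I hz hz1 (val (v i) - val (v j))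
              have b1 := mm_nonneg (g := g) I hz (val (v i))
              have b2 := mm_le_one (g := g) I hz hz1 (val (v i))
              have c1 := mm_nonneg (g := g) I hz (val (v j))
              have c2 := mm_le_one (g := g) I hz hz1 (val (v j))
              have d1 := mul_nonneg b1 c1
              have d2 := mul_le_one₀ b2 c1 c2
              constructor <;> linarith
            calc ‖α j‖ * _ ≤ μ j * 1 := mul_le_mul (hμ j) h1 (norm_nonneg _) (hμ0 j)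
              _ = μ j := mul_one _
      _ = μ i * ∑ j ∈ T, (if Disjoint (v i).support (v j).support then 0 else μ j) := by
          rw [Finset.mul_sum]
      _ ≤ μ i * ∑ j ∈ T, ∑ l ∈ (v i).support, (if l ∈ (v j).support then μ j else 0) := by
          refine mul_le_mul_of_nonneg_left (Finset.sum_le_sum fun j _ => ?_) (hμ0 i)
          split_ifs with hd
          · exact Finset.sum_nonneg fun l _ => by split_ifs <;> [exact hμ0 j; exact le_rfl]
          · rw [Finset.not_disjoint_iff] at hd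
            obtain ⟨l, hl1, hl2⟩ := hd
            have := Finset.single_le_sum (f := fun l => if l ∈ (v j).support then μ j else 0)
              (fun l _ => by split_ifs <;> [exact hμ0 j; exact le_rfl]) hl1
            simpa [hl2] using this
      _ = μ i * ∑ l ∈ (v i).support, ∑ j ∈ T.filter (fun j => l ∈ (v j).support), μ j := by
          rw [Finset.sum_comm]
          simp_rw [Finset.sum_filter]
      _ ≤ μ i * ∑ l ∈ (v i).support, ε :=
          mul_le_mul_of_nonneg_left (Finset.sum_le_sum fun l _ => hε l) (hμ0 i)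
      _ ≤ μ i * (n * ε) := by
          rw [Finset.sum_const, nsmul_eq_mul]
          refine mul_le_mul_of_nonneg_left ?_ (hμ0 i)
          refine mul_le_mul_of_nonneg_right ?_ hε0
          exact_mod_cast hn i hi
  rw [Finset.sum_mul]
  exact (norm_sum_le _ _).trans (Finset.sum_le_sum hin)

lemma rest_bound {g : ℕ → A} (hg : Dissoc g) {N : ℕ} {I : Finset ℕ} (hI : I ⊆ range N) {z : ℝ}
    (hz : 0 ≤ z) (hz1 : z ≤ 2 / 5) (S R : Finset A) (hRS : R ⊆ S) (α : A → ℂ) (μ : A → ℝ)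
    (hμ : ∀ i, ‖α i‖ ≤ μ i) {M : ℝ} (hM : ∑ i ∈ S, μ i ≤ M) (d : ℕ)
    {ε : ℝ} (hε0 : 0 ≤ ε) (hε : ∀ l : A, ∑ χ ∈ R ∩ Cov g N S {l} d, μ χ ≤ ε) :
    ‖∑ i ∈ R, ∑ j ∈ R, α i * (starRingEnd ℂ) (α j) * (mm g I z (i - j) : ℂ)‖ ≤
      M * (ε + M * (2 / 5) ^ d) := by
  have hμ0 : ∀ i, 0 ≤ μ i := fun i => (norm_nonneg _).trans (hμ i)
  have hRM : ∑ i ∈ R, μ i ≤ M := (sum_le_of_subset' hμ0 hRS).trans hM
  have hM0 : 0 ≤ M := (Finset.sum_nonneg fun i _ => hμ0 i).trans hM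
  have hz1' : z ≤ 1 := by linarith
  have hin : ∀ j ∈ R, ‖∑ i ∈ R, α i * (starRingEnd ℂ) (α j) * (mm g I z (i - j) : ℂ)‖ ≤
      μ j * (ε + M * (2 / 5) ^ d) := by
    intro j hj
    calc ‖∑ i ∈ R, α i * (starRingEnd ℂ) (α j) * (mm g I z (i - j) : ℂ)‖
        ≤ ∑ i ∈ R, μ j * (μ i * mm g I z (i - j)) := by
          refine (norm_sum_le _ _).trans (Finset.sum_le_sum fun i _ => ?_)
          rw [norm_mul, norm_mul, RCLike.norm_conj, Complex.norm_real, Real.norm_eq_abs,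
            abs_of_nonneg (mm_nonneg I hz _), mul_comm ‖α i‖, mul_assoc]
          refine mul_le_mul (hμ j) ?_ (mul_nonneg (norm_nonneg _) (mm_nonneg I hz _)) (hμ0 j)
          exact mul_le_mul_of_nonneg_right (hμ i) (mm_nonneg I hz _)
      _ = μ j * ∑ i ∈ R, μ i * mm g I z (i - j) := by rw [Finset.mul_sum]
      _ ≤ μ j * (∑ i ∈ R ∩ Cov g N S {j} d, μ i + ∑ i ∈ R, μ i * (2 / 5) ^ d) := by
          refine mul_le_mul_of_nonneg_left ?_ (hμ0 j)
          have : R ∩ Cov g N S {j} d = R.filter (fun i => i ∈ Cov g N S {j} d) := by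
            ext i; simp
          rw [this, Finset.sum_filter, ← Finset.sum_add_distrib]
          refine Finset.sum_le_sum fun i hi => ?_
          have hmi := mm_le_one (g := g) I hz hz1' (i - j)
          have hp : 0 ≤ μ i * (2 / 5) ^ d := mul_nonneg (hμ0 i) (by positivity)
          split_ifs with hc
          · nlinarith [hμ0 i]
          · rw [zero_add]
            refine mul_le_mul_of_nonneg_left ?_ (hμ0 i)
            by_cases h : ∃ w, IsWord g w ∧ w.support ⊆ I ∧ val w = i - j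
            · obtain ⟨w, h1, h2, h3⟩ := h
              rw [← h3, mm_val hg z h1 h2]
              have hd : d < w.support.card := by
                by_contra hcon
                push Not at hcon
                apply hc
                unfold Cov
                rw [Finset.mem_filter]
                exact ⟨hRS hi, j, by simp, w, h1, h2.trans hI, hcon, by rw [h3]; abel⟩
              calc z ^ w.support.card ≤ (2 / 5) ^ w.support.card := pow_le_pow_left₀ hz hz1 _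
                _ ≤ (2 / 5) ^ d := pow_le_pow_of_le_one (by norm_num) (by norm_num) hd.le
            · rw [mm_eq_zero z (fun w h1 h2 h3 => h ⟨w, h1, h2, h3⟩)]
              positivity
      _ ≤ μ j * (ε + M * (2 / 5) ^ d) := by
          refine mul_le_mul_of_nonneg_left ?_ (hμ0 j)
          rw [← Finset.sum_mul]
          have := hε j
          have h2 : (∑ i ∈ R, μ i) * (2 / 5 : ℝ) ^ d ≤ M * (2 / 5) ^ d :=
            mul_le_mul_of_nonneg_right hRM (by positivity)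
          linarith
  rw [Finset.sum_comm]
  refine (norm_sum_le _ _).trans ((Finset.sum_le_sum hin).trans ?_)
  rw [← Finset.sum_mul]
  exact mul_le_mul_of_nonneg_right hRM (by positivity)

lemma ev_eq_sum (y : AddChar A Circle) (a : A →₀ ℂ) {S : Finset A} (h : a.support ⊆ S) :
    ev y a = ∑ χ ∈ S, a χ * (y χ : ℂ) := by
  unfold ev
  rw [Finsupp.sum]
  refine Finset.sum_subset h fun χ _ hχ => ?_
  rw [Finsupp.notMem_support_iff.1 hχ, zero_mul]

lemma err_bound {S main R main1 : Finset A} (hmS : main ⊆ S) (hRS : R ⊆ S)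
    (hd : Disjoint main R) (hm1 : main1 ⊆ main) (u : A →₀ ℂ) (hu : u.support ⊆ S) (μ : A → ℝ)
    (hμ : ∀ χ, ‖u χ‖ ≤ μ χ) {M : ℝ} (hM : ∑ χ ∈ S, μ χ ≤ M) (c : A → A) (v : A → (ℕ →₀ A))
    (hcv : ∀ χ ∈ main, χ = c χ + val (v χ)) (x y : AddChar A Circle) {κ : ℝ} (hκ : 0 ≤ κ)
    (hclose : ∀ χ ∈ main, ‖(y (c χ) : ℂ) - (x (c χ) : ℂ)‖ ≤ κ) (k : A → ℕ) {z : ℝ} (hz : 0 ≤ z)
    (hz1 : z ≤ 1) (h1 : ∑ χ ∈ main \ main1, μ χ ≤ κ) (h2 : ∑ χ ∈ S \ (main ∪ R), μ χ ≤ κ)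
    (h3 : ‖∑ χ ∈ R, u χ * (y χ : ℂ)‖ ≤ κ)
    (h4 : ‖∑ χ ∈ main1, (u χ * (x (c χ) : ℂ)) * ((y (val (v χ)) : ℂ) - ((z ^ k χ : ℝ) : ℂ))‖ ≤ κ) :
    ‖ev y u - ∑ χ ∈ main, u χ * (z : ℂ) ^ (k χ) * (x (c χ) : ℂ)‖ ≤ κ * (M + 5) := by
  have hμ0 : ∀ i, 0 ≤ μ i := fun i => (norm_nonneg _).trans (hμ i)
  have hzk : ∀ χ, ‖(z : ℂ) ^ (k χ)‖ ≤ 1 := by
    intro χ
    rw [norm_pow, Complex.norm_real, Real.norm_eq_abs, abs_of_nonneg hz]
    exact pow_le_one₀ hz hz1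
  have e0 : ev y u = ∑ χ ∈ main, u χ * (y χ : ℂ) + ∑ χ ∈ R, u χ * (y χ : ℂ) +
      ∑ χ ∈ S \ (main ∪ R), u χ * (y χ : ℂ) := by
    rw [ev_eq_sum y u hu, ← Finset.sum_union hd, add_comm,
      Finset.sum_sdiff (Finset.union_subset hmS hRS)]
  have e1 : ∑ χ ∈ main, u χ * (y χ : ℂ) - ∑ χ ∈ main, u χ * (z : ℂ) ^ (k χ) * (x (c χ) : ℂ) =
      ∑ χ ∈ main \ main1, u χ * ((y χ : ℂ) - (z : ℂ) ^ (k χ) * (x (c χ) : ℂ)) +
      (∑ χ ∈ main1, (u χ * (x (c χ) : ℂ)) * ((y (val (v χ)) : ℂ) - ((z ^ k χ : ℝ) : ℂ)) +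
      ∑ χ ∈ main1, u χ * (((y (c χ) : ℂ) - (x (c χ) : ℂ)) * (y (val (v χ)) : ℂ))) := by
    rw [← Finset.sum_sub_distrib, ← Finset.sum_sdiff hm1]
    congr 1
    · refine Finset.sum_congr rfl fun χ _ => by ring
    · rw [← Finset.sum_add_distrib]
      refine Finset.sum_congr rfl fun χ hχ => ?_
      have : (y χ : ℂ) = (y (c χ) : ℂ) * (y (val (v χ)) : ℂ) := by
        conv_lhs => rw [hcv χ (hm1 hχ)]
        rw [AddChar.map_add_eq_mul, Circle.coe_mul]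
      rw [this]
      push_cast
      ring
  have b1 : ‖∑ χ ∈ main \ main1, u χ * ((y χ : ℂ) - (z : ℂ) ^ (k χ) * (x (c χ) : ℂ))‖ ≤ 2 * κ := by
    calc _ ≤ ∑ χ ∈ main \ main1, μ χ * 2 := by
          refine (norm_sum_le _ _).trans (Finset.sum_le_sum fun χ _ => ?_)
          rw [norm_mul]
          refine mul_le_mul (hμ χ) ?_ (norm_nonneg _) (hμ0 χ)
          calc ‖(y χ : ℂ) - (z : ℂ) ^ (k χ) * (x (c χ) : ℂ)‖
              ≤ ‖(y χ : ℂ)‖ + ‖(z : ℂ) ^ (k χ) * (x (c χ) : ℂ)‖ := norm_sub_le _ _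
            _ ≤ 1 + 1 := by
                rw [norm_mul, Circle.norm_coe, Circle.norm_coe, mul_one]
                exact add_le_add le_rfl (hzk χ)
            _ = 2 := by norm_num
      _ = 2 * ∑ χ ∈ main \ main1, μ χ := by rw [← Finset.sum_mul, mul_comm]
      _ ≤ 2 * κ := by linarith
  have b2 : ‖∑ χ ∈ main1, u χ * (((y (c χ) : ℂ) - (x (c χ) : ℂ)) * (y (val (v χ)) : ℂ))‖ ≤
      M * κ := by
    calc _ ≤ ∑ χ ∈ main1, μ χ * κ := by
          refine (norm_sum_le _ _).trans (Finset.sum_le_sum fun χ hχ => ?_)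
          rw [norm_mul, norm_mul, Circle.norm_coe, mul_one]
          exact mul_le_mul (hμ χ) (hclose χ (hm1 hχ)) (norm_nonneg _) (hμ0 χ)
      _ = (∑ χ ∈ main1, μ χ) * κ := by rw [← Finset.sum_mul]
      _ ≤ M * κ := by
          refine mul_le_mul_of_nonneg_right ?_ hκ
          exact (sum_le_of_subset' hμ0 (hm1.trans hmS)).trans hM
  have b3 : ‖∑ χ ∈ S \ (main ∪ R), u χ * (y χ : ℂ)‖ ≤ κ := by
    refine le_trans ((norm_sum_le _ _).trans (Finset.sum_le_sum fun χ _ => ?_)) h2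
    rw [norm_mul, Circle.norm_coe, mul_one]
    exact hμ χ
  have e2 : ev y u - ∑ χ ∈ main, u χ * (z : ℂ) ^ (k χ) * (x (c χ) : ℂ) =
      (∑ χ ∈ main \ main1, u χ * ((y χ : ℂ) - (z : ℂ) ^ (k χ) * (x (c χ) : ℂ)) +
      (∑ χ ∈ main1, (u χ * (x (c χ) : ℂ)) * ((y (val (v χ)) : ℂ) - ((z ^ k χ : ℝ) : ℂ)) +
      ∑ χ ∈ main1, u χ * (((y (c χ) : ℂ) - (x (c χ) : ℂ)) * (y (val (v χ)) : ℂ)))) +
      ∑ χ ∈ R, u χ * (y χ : ℂ) + ∑ χ ∈ S \ (main ∪ R), u χ * (y χ : ℂ) := by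
    rw [← e1, e0]; ring
  rw [e2]
  refine (norm_add_le _ _).trans ?_
  have := norm_add_le (∑ χ ∈ main \ main1, u χ * ((y χ : ℂ) - (z : ℂ) ^ (k χ) * (x (c χ) : ℂ)) +
      (∑ χ ∈ main1, (u χ * (x (c χ) : ℂ)) * ((y (val (v χ)) : ℂ) - ((z ^ k χ : ℝ) : ℂ)) +
      ∑ χ ∈ main1, u χ * (((y (c χ) : ℂ) - (x (c χ) : ℂ)) * (y (val (v χ)) : ℂ))))
      (∑ χ ∈ R, u χ * (y χ : ℂ))
  have t2 := norm_add_le
    (∑ χ ∈ main \ main1, u χ * ((y χ : ℂ) - (z : ℂ) ^ (k χ) * (x (c χ) : ℂ)))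
      (∑ χ ∈ main1, (u χ * (x (c χ) : ℂ)) * ((y (val (v χ)) : ℂ) - ((z ^ k χ : ℝ) : ℂ)) +
      ∑ χ ∈ main1, u χ * (((y (c χ) : ℂ) - (x (c χ) : ℂ)) * (y (val (v χ)) : ℂ)))
  have t3 := norm_add_le
    (∑ χ ∈ main1, (u χ * (x (c χ) : ℂ)) * ((y (val (v χ)) : ℂ) - ((z ^ k χ : ℝ) : ℂ)))
    (∑ χ ∈ main1, u χ * (((y (c χ) : ℂ) - (x (c χ) : ℂ)) * (y (val (v χ)) : ℂ)))
  linarith

lemma pow_two_fifths_le (f : ℕ) : ((2 : ℝ) / 5) ^ f ≤ 1 / ((f : ℝ) + 1) := by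
  induction f with
  | zero => norm_num
  | succ f ih =>
    rw [pow_succ]
    rw [le_div_iff₀ (by positivity)] at ih ⊢
    push_cast
    have h0 : (0 : ℝ) ≤ (2 / 5) ^ f := by positivity
    have hf : (0 : ℝ) ≤ f := Nat.cast_nonneg f
    nlinarith [mul_nonneg h0 hf]

/-- **Core lemma.** -/
theorem core_aux {g : ℕ → A} (hg : Dissoc g) (Λ0 : Finset A) {κ : ℝ} (hκ : 0 < κ) (hκ1 : κ ≤ 1)
    {M : ℝ} (hM : 0 ≤ M) :
    ∃ N : ℕ, 0 < N ∧ ∀ a b : A →₀ ℂ, ∑ χ ∈ a.support, ‖a χ‖ ≤ M → ∑ χ ∈ b.support, ‖b χ‖ ≤ M →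
      ∃ (T : Finset A) (k : A → ℕ) (c : A → A), ∀ (x : AddChar A Circle) (z : ℝ), 0 ≤ z →
        z ≤ 2 / 5 → ∃ y : AddChar A Circle, (∀ l ∈ Λ0, ‖(y l : ℂ) - (x l : ℂ)‖ ≤ κ) ∧
          |(1 / (N : ℝ)) * ∑ j ∈ range N, (y (g j) : ℂ).re - z| ≤ 3 * κ ∧
          ‖ev y a - ∑ χ ∈ T, a χ * (z : ℂ) ^ (k χ) * (x (c χ) : ℂ)‖ ≤ κ * (2 * M + 5) ∧
          ‖ev y b - ∑ χ ∈ T, b χ * (z : ℂ) ^ (k χ) * (x (c χ) : ℂ)‖ ≤ κ * (2 * M + 5) := by
  have hloc := fun n => loc hg hκ hκ1 (n + Λ0.card)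
  choose τ hτ s hs using hloc
  set M2 : ℝ := 2 * M with hM2
  have hM20 : 0 ≤ M2 := by rw [hM2]; linarith
  -- the growth function
  have hF : ∀ n : ℕ, ∃ f : ℕ, (2 * (M2 * n) + 2 * (M2 * (1 + M2))) * (1 / ((f : ℝ) + 1)) <
      κ ^ 2 * τ n / 2 ∧ (s n : ℝ) * (1 / ((f : ℝ) + 1)) ≤ κ := by
    intro n
    obtain ⟨f, hf⟩ := exists_nat_gt (max ((2 * (M2 * n) + 2 * (M2 * (1 + M2))) / (κ ^ 2 * τ n / 2))
      ((s n : ℝ) / κ))
    have h1 := (le_max_left _ _).trans_lt hf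
    have h2 := (le_max_right _ _).trans_lt hf
    have hτn := hτ n
    rw [div_lt_iff₀ (by positivity)] at h1 h2
    refine ⟨f, ?_, ?_⟩
    · rw [mul_one_div, div_lt_iff₀ (by positivity)]
      have : 0 < κ ^ 2 * τ n / 2 := by positivity
      nlinarith
    · rw [mul_one_div, div_le_iff₀ (by positivity)]
      nlinarith
  choose F hF1 hF2 using hF
  obtain ⟨nmax, hnmax⟩ := decomp g F hκ hM20
  -- choice of N
  obtain ⟨N, hN0, hN⟩ : ∃ N : ℕ, 0 < N ∧ ∀ n ≤ nmax, 1 / (N : ℝ) < κ ^ 2 * τ n / 2 ∧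
      (s n : ℝ) / N ≤ κ := by
    have hN : ∀ n : ℕ, ∃ N : ℕ, ∀ N' : ℕ, N < N' → 1 / (N' : ℝ) < κ ^ 2 * τ n / 2 ∧
        (s n : ℝ) / N' ≤ κ := by
      intro n
      obtain ⟨N, hN⟩ := exists_nat_gt (max (1 / (κ ^ 2 * τ n / 2)) ((s n : ℝ) / κ))
      refine ⟨N, fun N' hN' => ?_⟩
      have hN'' : (N : ℝ) < N' := by exact_mod_cast hN'
      have h1 := ((le_max_left _ _).trans_lt hN).trans hN''
      have h2 := ((le_max_right _ _).trans_lt hN).trans hN''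
      have hτn := hτ n
      rw [div_lt_iff₀ (by positivity)] at h1 h2
      have hpos : (0 : ℝ) < N' := lt_of_le_of_lt (Nat.cast_nonneg N) hN''
      refine ⟨?_, ?_⟩
      · rw [div_lt_iff₀ hpos]; linarith
      · rw [div_le_iff₀ hpos]; linarith
    choose NN hNN using hN
    refine ⟨∑ n ∈ range (nmax + 1), NN n + 1, by omega, fun n hn => hNN n _ ?_⟩
    have := Finset.single_le_sum (f := NN) (fun _ _ => Nat.zero_le _)
      (Finset.mem_range.2 (show n < nmax + 1 by omega))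
    omega
  refine ⟨N, hN0, ?_⟩
  intro a b ha hb
  have hNpos : (0 : ℝ) < N := by exact_mod_cast hN0
  set S : Finset A := a.support ∪ b.support with hS
  set μ : A → ℝ := fun χ => ‖a χ‖ + ‖b χ‖ with hμ
  have hμ0 : ∀ χ, 0 ≤ μ χ := fun χ => by rw [hμ]; positivity
  have hμa : ∀ χ, ‖a χ‖ ≤ μ χ := fun χ => by rw [hμ]; simp
  have hμb : ∀ χ, ‖b χ‖ ≤ μ χ := fun χ => by rw [hμ]; simp
  have hμS : ∑ χ ∈ S, μ χ ≤ M2 := by
    have h1 : ∑ χ ∈ S, ‖a χ‖ = ∑ χ ∈ a.support, ‖a χ‖ := by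
      refine (Finset.sum_subset Finset.subset_union_left fun χ _ hχ => ?_).symm
      rw [Finsupp.notMem_support_iff.1 hχ, norm_zero]
    have h2 : ∑ χ ∈ S, ‖b χ‖ = ∑ χ ∈ b.support, ‖b χ‖ := by
      refine (Finset.sum_subset Finset.subset_union_right fun χ _ hχ => ?_).symm
      rw [Finsupp.notMem_support_iff.1 hχ, norm_zero]
    rw [hμ, Finset.sum_add_distrib, h1, h2, hM2]
    linarith
  obtain ⟨n, hn, Λ, main, R, c, v, hΛ, hmS, hRS, hd, hmain, hjunk, hrest, hinf⟩ :=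
    hnmax N S μ hμ0 hμS
  obtain ⟨J, hJ, hJloc⟩ := hs n (Λ ∪ Λ0) ((Finset.card_union_le _ _).trans (by omega))
  obtain ⟨hN1, hN2⟩ := hN n hn
  have hε0 : (0 : ℝ) ≤ 1 / ((F n : ℝ) + 1) := by positivity
  set ε : ℝ := 1 / ((F n : ℝ) + 1) with hε
  set main1 : Finset A := main.filter (fun χ => Disjoint (v χ).support J) with hmain1
  have hm1 : main1 ⊆ main := Finset.filter_subset _ _
  have hloss : ∑ χ ∈ main \ main1, μ χ ≤ κ := by
    have h1 : ∑ χ ∈ main \ main1, μ χ ≤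
        ∑ j ∈ J, ∑ χ ∈ main.filter (fun χ => j ∈ (v χ).support), μ χ := by
      simp_rw [Finset.sum_filter]
      rw [Finset.sum_comm]
      have h2 : ∑ χ ∈ main \ main1, μ χ ≤
          ∑ χ ∈ main \ main1, ∑ j ∈ J, (if j ∈ (v χ).support then μ χ else 0) := by
        refine Finset.sum_le_sum fun χ hχ => ?_
        rw [Finset.mem_sdiff, hmain1, Finset.mem_filter] at hχ
        have hnd : ¬ Disjoint (v χ).support J := fun h => hχ.2 ⟨hχ.1, h⟩
        rw [Finset.not_disjoint_iff] at hnd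
        obtain ⟨j, hj1, hj2⟩ := hnd
        have := Finset.single_le_sum (f := fun j => if j ∈ (v χ).support then μ χ else 0)
          (fun j _ => by split_ifs <;> [exact hμ0 χ; exact le_rfl]) hj2
        simpa [hj1] using this
      refine h2.trans (Finset.sum_le_sum_of_subset_of_nonneg Finset.sdiff_subset fun χ _ _ => ?_)
      exact Finset.sum_nonneg fun j _ => by split_ifs <;> [exact hμ0 χ; exact le_rfl]
    refine h1.trans ((Finset.sum_le_sum fun j _ => hinf j).trans ?_)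
    rw [Finset.sum_const, nsmul_eq_mul]
    refine le_trans (mul_le_mul_of_nonneg_right ?_ hε0) (hF2 n)
    exact_mod_cast hJ
  refine ⟨main, fun χ => (v χ).support.card, c, ?_⟩
  intro x z hz hz2
  have hz1 : z ≤ 1 := by linarith
  set I : Finset ℕ := range N \ J with hI
  have hIJ : Disjoint I J := Finset.sdiff_disjoint
  have hIN : I ⊆ range N := Finset.sdiff_subset
  have hvI : ∀ χ ∈ main1, IsWord g (v χ) ∧ (v χ).support ⊆ I := by
    intro χ hχ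
    rw [hmain1, Finset.mem_filter] at hχ
    obtain ⟨h1, h2, h3, h4, h5⟩ := hmain χ hχ.1
    refine ⟨h3, fun j hj => ?_⟩
    rw [hI, Finset.mem_sdiff]
    exact ⟨h4 hj, Finset.disjoint_left.1 hχ.2 hj⟩
  have hinf1 : ∀ j : ℕ, ∑ χ ∈ main1.filter (fun χ => j ∈ (v χ).support), μ χ ≤ ε := fun j =>
    (sum_le_of_subset' hμ0 (Finset.filter_subset_filter _ hm1)).trans (hinf j)
  have hmain1M : ∑ χ ∈ main1, μ χ ≤ M2 := (sum_le_of_subset' hμ0 (hm1.trans hmS)).trans hμS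
  have h0 := mm_zero hg I z
  have hsym := mm_neg hg I z
  -- the five random variables
  have hY : ∀ u : A →₀ ℂ, (∀ χ, ‖u χ‖ ≤ μ χ) → ∃ e : ℂ, HasE (mm g I z) (fun y =>
      ((Complex.normSq (∑ χ ∈ main1, (u χ * (x (c χ) : ℂ)) * ((y (val (v χ)) : ℂ) -
        ((mm g I z (val (v χ)) : ℝ) : ℂ))) : ℝ) : ℂ)) e ∧ ‖e‖ ≤ M2 * (n * ε) := by
    intro u hu
    refine ⟨_, HasE.variance h0 hsym main1 (fun χ => u χ * (x (c χ) : ℂ)) (fun χ => val (v χ)), ?_⟩
    refine (var_bound hg hz hz1 main1 (fun χ => u χ * (x (c χ) : ℂ)) μ v ?_ hvI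
      (fun χ hχ => (hmain χ (hm1 hχ)).2.2.2.2) hinf1 hε0).trans ?_
    · intro χ
      rw [norm_mul, Circle.norm_coe, mul_one]
      exact hu χ
    · exact mul_le_mul_of_nonneg_right hmain1M (by positivity)
  have hRR : ∀ u : A →₀ ℂ, (∀ χ, ‖u χ‖ ≤ μ χ) → ∃ e : ℂ, HasE (mm g I z) (fun y =>
      ((Complex.normSq (∑ χ ∈ R, u χ * (y χ : ℂ)) : ℝ) : ℂ)) e ∧ ‖e‖ ≤ M2 * ((1 + M2) * ε) := by
    intro u hu
    refine ⟨_, HasE.normSq R (fun χ => u χ) (fun χ => χ), ?_⟩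
    refine (rest_bound hg hIN hz hz2 S R hRS (fun χ => u χ) μ hu hμS (F n) hε0 hrest).trans ?_
    refine mul_le_mul_of_nonneg_left ?_ hM20
    have := pow_two_fifths_le (F n)
    have h2 : M2 * (2 / 5 : ℝ) ^ (F n) ≤ M2 * ε := mul_le_mul_of_nonneg_left this hM20
    linarith
  have hYf : ∃ e : ℂ, HasE (mm g I z) (fun y =>
      ((Complex.normSq (∑ j ∈ I, (1 / (N : ℂ)) * ((y (val (Finsupp.single j (g j))) : ℂ) -
        ((mm g I z (val (Finsupp.single j (g j))) : ℝ) : ℂ))) : ℝ) : ℂ)) e ∧ ‖e‖ ≤ 1 / N := by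
    refine ⟨_, HasE.variance h0 hsym I (fun _ => 1 / (N : ℂ)) (fun j => val (Finsupp.single j (g j))), ?_⟩
    refine (var_bound hg hz hz1 I (fun _ => 1 / (N : ℂ)) (fun _ => 1 / (N : ℝ))
      (fun j => Finsupp.single j (g j)) ?_ ?_ (n := 1) ?_ (ε := 1 / (N : ℝ)) ?_ ?_).trans ?_
    · intro _
      rw [norm_div, norm_one, Complex.norm_natCast]
    · intro j hj
      refine ⟨IsWord.single j (Or.inl rfl), Finsupp.support_single_subset.trans ?_⟩
      simpa using hj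
    · intro j _
      exact (Finset.card_le_card Finsupp.support_single_subset).trans (by simp)
    · intro j
      have : I.filter (fun i => j ∈ (Finsupp.single i (g i)).support) ⊆ {j} := by
        intro i hi
        rw [Finset.mem_filter] at hi
        have := Finsupp.support_single_subset hi.2
        simp only [Finset.mem_singleton] at this ⊢
        exact this.symm
      calc _ ≤ ∑ _i ∈ ({j} : Finset ℕ), 1 / (N : ℝ) :=
            Finset.sum_le_sum_of_subset_of_nonneg this fun _ _ _ => by positivity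
        _ = 1 / (N : ℝ) := by simp
    · positivity
    · have hcard : ∑ _i ∈ I, 1 / (N : ℝ) ≤ 1 := by
        rw [Finset.sum_const, nsmul_eq_mul, mul_one_div, div_le_one hNpos]
        have := Finset.card_le_card hIN
        rw [Finset.card_range] at this
        exact_mod_cast this
      have h1 : (0 : ℝ) ≤ 1 / N := by positivity
      calc (∑ _i ∈ I, 1 / (N : ℝ)) * (((1 : ℕ) : ℝ) * (1 / (N : ℝ))) ≤ 1 * (((1 : ℕ) : ℝ) * (1 / (N : ℝ))) :=
            mul_le_mul_of_nonneg_right hcard (by positivity)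
        _ = 1 / N := by simp
  obtain ⟨e1, he1, be1⟩ := hY a hμa
  obtain ⟨e2, he2, be2⟩ := hY b hμb
  obtain ⟨e3, he3, be3⟩ := hRR a hμa
  obtain ⟨e4, he4, be4⟩ := hRR b hμb
  obtain ⟨e5, he5, be5⟩ := hYf
  have hF' := ((((he1.add he2).add he3).add he4).add he5).const_mul (((κ ^ 2)⁻¹ : ℝ) : ℂ)
  have hnonneg : ∀ y : AddChar A Circle, 0 ≤ ((((κ ^ 2)⁻¹ : ℝ) : ℂ) *
      (((Complex.normSq (∑ χ ∈ main1, (a χ * (x (c χ) : ℂ)) * ((y (val (v χ)) : ℂ) -
        ((mm g I z (val (v χ)) : ℝ) : ℂ))) : ℝ) : ℂ) +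
      ((Complex.normSq (∑ χ ∈ main1, (b χ * (x (c χ) : ℂ)) * ((y (val (v χ)) : ℂ) -
        ((mm g I z (val (v χ)) : ℝ) : ℂ))) : ℝ) : ℂ) +
      ((Complex.normSq (∑ χ ∈ R, a χ * (y χ : ℂ)) : ℝ) : ℂ) +
      ((Complex.normSq (∑ χ ∈ R, b χ * (y χ : ℂ)) : ℝ) : ℂ) +
      ((Complex.normSq (∑ j ∈ I, (1 / (N : ℂ)) * ((y (val (Finsupp.single j (g j))) : ℂ) -
        ((mm g I z (val (Finsupp.single j (g j))) : ℝ) : ℂ))) : ℝ) : ℂ))).re := by
    intro y
    simp only [← Complex.ofReal_add, ← Complex.ofReal_mul, Complex.ofReal_re]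
    have n1 := Complex.normSq_nonneg (∑ χ ∈ main1, (a χ * (x (c χ) : ℂ)) * ((y (val (v χ)) : ℂ) -
        ((mm g I z (val (v χ)) : ℝ) : ℂ)))
    have n2 := Complex.normSq_nonneg (∑ χ ∈ main1, (b χ * (x (c χ) : ℂ)) * ((y (val (v χ)) : ℂ) -
        ((mm g I z (val (v χ)) : ℝ) : ℂ)))
    have n3 := Complex.normSq_nonneg (∑ χ ∈ R, a χ * (y χ : ℂ))
    have n4 := Complex.normSq_nonneg (∑ χ ∈ R, b χ * (y χ : ℂ))
    have n5 := Complex.normSq_nonneg (∑ j ∈ I, (1 / (N : ℂ)) *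
      ((y (val (Finsupp.single j (g j))) : ℂ) -
        ((mm g I z (val (Finsupp.single j (g j))) : ℝ) : ℂ)))
    positivity
  have hsmall : ‖(((κ ^ 2)⁻¹ : ℝ) : ℂ) * (e1 + e2 + e3 + e4 + e5)‖ < τ n := by
    have hκ2 : 0 < κ ^ 2 := by positivity
    rw [norm_mul, Complex.norm_real, Real.norm_eq_abs, abs_of_nonneg (by positivity),
      inv_mul_lt_iff₀ hκ2]
    have hbd : ‖e1 + e2 + e3 + e4 + e5‖ ≤ ‖e1‖ + ‖e2‖ + ‖e3‖ + ‖e4‖ + ‖e5‖ := by
      refine (norm_add_le _ _).trans (add_le_add ?_ le_rfl)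
      refine (norm_add_le _ _).trans (add_le_add ?_ le_rfl)
      refine (norm_add_le _ _).trans (add_le_add ?_ le_rfl)
      exact norm_add_le _ _
    have hF1n := hF1 n
    have hexp : (2 * (M2 * n) + 2 * (M2 * (1 + M2))) * ε =
        M2 * (n * ε) + M2 * (n * ε) + M2 * ((1 + M2) * ε) + M2 * ((1 + M2) * ε) := by ring
    rw [hexp] at hF1n
    linarith
  obtain ⟨y, hy1, hy2⟩ := hJloc I hIJ z hz hz2 x _ hnonneg _ hF' hsmall
  have hκ2 : 0 < κ ^ 2 := by positivity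
  simp only [← Complex.ofReal_add, ← Complex.ofReal_mul, Complex.ofReal_re] at hy2
  rw [inv_mul_le_iff₀ hκ2, mul_one] at hy2
  have n1 := Complex.normSq_nonneg (∑ χ ∈ main1, (a χ * (x (c χ) : ℂ)) * ((y (val (v χ)) : ℂ) -
      ((mm g I z (val (v χ)) : ℝ) : ℂ)))
  have n2 := Complex.normSq_nonneg (∑ χ ∈ main1, (b χ * (x (c χ) : ℂ)) * ((y (val (v χ)) : ℂ) -
      ((mm g I z (val (v χ)) : ℝ) : ℂ)))
  have n3 := Complex.normSq_nonneg (∑ χ ∈ R, a χ * (y χ : ℂ))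
  have n4 := Complex.normSq_nonneg (∑ χ ∈ R, b χ * (y χ : ℂ))
  have n5 := Complex.normSq_nonneg (∑ j ∈ I, (1 / (N : ℂ)) *
    ((y (val (Finsupp.single j (g j))) : ℂ) -
      ((mm g I z (val (Finsupp.single j (g j))) : ℝ) : ℂ)))
  have hnorm : ∀ w : ℂ, Complex.normSq w ≤ κ ^ 2 → ‖w‖ ≤ κ := by
    intro w hw
    rw [Complex.normSq_eq_norm_sq] at hw
    exact le_of_sq_le_sq hw hκ.le
  have m1 := hnorm _ (show Complex.normSq (∑ χ ∈ main1, (a χ * (x (c χ) : ℂ)) *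
    ((y (val (v χ)) : ℂ) - ((mm g I z (val (v χ)) : ℝ) : ℂ))) ≤ κ ^ 2 by linarith)
  have m2 := hnorm _ (show Complex.normSq (∑ χ ∈ main1, (b χ * (x (c χ) : ℂ)) *
    ((y (val (v χ)) : ℂ) - ((mm g I z (val (v χ)) : ℝ) : ℂ))) ≤ κ ^ 2 by linarith)
  have m3 := hnorm _ (show Complex.normSq (∑ χ ∈ R, a χ * (y χ : ℂ)) ≤ κ ^ 2 by linarith)
  have m4 := hnorm _ (show Complex.normSq (∑ χ ∈ R, b χ * (y χ : ℂ)) ≤ κ ^ 2 by linarith)
  have m5 := hnorm _ (show Complex.normSq (∑ j ∈ I, (1 / (N : ℂ)) *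
    ((y (val (Finsupp.single j (g j))) : ℂ) -
      ((mm g I z (val (Finsupp.single j (g j))) : ℝ) : ℂ))) ≤ κ ^ 2 by linarith)
  have hmmv : ∀ χ ∈ main1, mm g I z (val (v χ)) = z ^ (v χ).support.card := fun χ hχ =>
    mm_val hg z (hvI χ hχ).1 (hvI χ hχ).2
  have hrw : ∀ u : A →₀ ℂ, ∑ χ ∈ main1, (u χ * (x (c χ) : ℂ)) *
    ((y (val (v χ)) : ℂ) - ((mm g I z (val (v χ)) : ℝ) : ℂ)) =
    ∑ χ ∈ main1, (u χ * (x (c χ) : ℂ)) *
    ((y (val (v χ)) : ℂ) - ((z ^ (v χ).support.card : ℝ) : ℂ)) := fun u =>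
    Finset.sum_congr rfl fun χ hχ => by rw [hmmv χ hχ]
  rw [hrw] at m1 m2
  have hclose : ∀ χ ∈ main, ‖(y (c χ) : ℂ) - (x (c χ) : ℂ)‖ ≤ κ := fun χ hχ =>
    hy1 _ (Finset.mem_union_left _ (hmain χ hχ).2.1)
  refine ⟨y, fun l hl => hy1 l (Finset.mem_union_right _ hl), ?_, ?_, ?_⟩
  · -- the average
    have hmj : ∀ j ∈ I, mm g I z (val (Finsupp.single j (g j))) = z := by
      intro j hj
      rw [mm_val hg z (IsWord.single j (Or.inl rfl))
        (Finsupp.support_single_subset.trans (by simpa using hj)),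
        Finsupp.support_single _ (hg.ne_zero j)]
      simp
    have hrw5 : ∑ j ∈ I, (1 / (N : ℂ)) * ((y (val (Finsupp.single j (g j))) : ℂ) -
      ((mm g I z (val (Finsupp.single j (g j))) : ℝ) : ℂ)) =
      ∑ j ∈ I, (1 / (N : ℂ)) * ((y (g j) : ℂ) - (z : ℂ)) :=
      Finset.sum_congr rfl fun j hj => by rw [hmj j hj, val_single]
    rw [hrw5] at m5
    have hre : (∑ j ∈ I, (1 / (N : ℂ)) * ((y (g j) : ℂ) - (z : ℂ))).re =
        ∑ j ∈ I, (1 / (N : ℝ)) * ((y (g j) : ℂ).re - z) := by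
      rw [Complex.re_sum]
      refine Finset.sum_congr rfl fun j _ => ?_
      have : (1 / (N : ℂ)) = ((1 / (N : ℝ) : ℝ) : ℂ) := by push_cast; rfl
      rw [this, Complex.re_ofReal_mul, Complex.sub_re, Complex.ofReal_re]
    have h1 : |∑ j ∈ I, (1 / (N : ℝ)) * ((y (g j) : ℂ).re - z)| ≤ κ := by
      rw [← hre]; exact (Complex.abs_re_le_norm _).trans m5
    have h2 : (1 / (N : ℝ)) * ∑ j ∈ range N, (y (g j) : ℂ).re - z =
        ∑ j ∈ range N, (1 / (N : ℝ)) * ((y (g j) : ℂ).re - z) := by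
      rw [← Finset.mul_sum, Finset.sum_sub_distrib, Finset.sum_const, Finset.card_range,
        nsmul_eq_mul]
      field_simp
    have hsplit : ∑ j ∈ range N, (1 / (N : ℝ)) * ((y (g j) : ℂ).re - z) =
        ∑ j ∈ range N ∩ J, (1 / (N : ℝ)) * ((y (g j) : ℂ).re - z) +
        ∑ j ∈ I, (1 / (N : ℝ)) * ((y (g j) : ℂ).re - z) := by
      rw [hI, Finset.sum_inter_add_sum_sdiff]
    have h3 : |∑ j ∈ range N ∩ J, (1 / (N : ℝ)) * ((y (g j) : ℂ).re - z)| ≤ 2 * κ := by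
      calc _ ≤ ∑ j ∈ range N ∩ J, (1 / (N : ℝ)) * 2 := by
            refine (Finset.abs_sum_le_sum_abs _ _).trans (Finset.sum_le_sum fun j _ => ?_)
            rw [abs_mul, abs_of_nonneg (by positivity : (0 : ℝ) ≤ 1 / N)]
            refine mul_le_mul_of_nonneg_left ?_ (by positivity)
            have := Complex.abs_re_le_norm (y (g j) : ℂ)
            rw [Circle.norm_coe] at this
            rw [abs_le] at this ⊢
            constructor <;> linarith [this.1, this.2]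
        _ = ((range N ∩ J).card : ℝ) / N * 2 := by
            rw [Finset.sum_const, nsmul_eq_mul]; ring
        _ ≤ (s n : ℝ) / N * 2 := by
            refine mul_le_mul_of_nonneg_right ?_ (by norm_num)
            refine div_le_div_of_nonneg_right ?_ hNpos.le
            exact_mod_cast (Finset.card_le_card Finset.inter_subset_right).trans hJ
        _ ≤ 2 * κ := by linarith
    rw [h2, hsplit]
    refine (abs_add_le _ _).trans ?_
    linarith
  · exact err_bound hmS hRS hd hm1 a Finset.subset_union_left μ hμa hμS c v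
      (fun χ hχ => (hmain χ hχ).1) x y hκ.le hclose _ hz hz1 hloss hjunk m3 m1
  · exact err_bound hmS hRS hd hm1 b Finset.subset_union_right μ hμb hμS c v
      (fun χ hχ => (hmain χ hχ).1) x y hκ.le hclose _ hz hz1 hloss hjunk m4 m2

/-- The `ℓ_1` norm of a finitely supported function. -/
noncomputable def n1 (a : A →₀ ℂ) : ℝ := ∑ χ ∈ a.support, ‖a χ‖

/-- **Core lemma.** -/
theorem core {g : ℕ → A} (hg : Dissoc g) (Λ0 : Finset A) {κ : ℝ} (hκ : 0 < κ)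
    {M : ℝ} (hM : 0 ≤ M) :
    ∃ N : ℕ, 0 < N ∧ ∀ a b : A →₀ ℂ, n1 a ≤ M → n1 b ≤ M →
      ∃ (T : Finset A) (k : A → ℕ) (c : A → A), ∀ (x : AddChar A Circle) (z : ℝ), 0 ≤ z →
        z ≤ 2 / 5 → ∃ y : AddChar A Circle, (∀ l ∈ Λ0, ‖(y l : ℂ) - (x l : ℂ)‖ ≤ κ) ∧
          |(1 / (N : ℝ)) * ∑ j ∈ range N, (y (g j) : ℂ).re - z| ≤ κ ∧
          ‖ev y a - ∑ χ ∈ T, a χ * (z : ℂ) ^ (k χ) * (x (c χ) : ℂ)‖ ≤ κ ∧
          ‖ev y b - ∑ χ ∈ T, b χ * (z : ℂ) ^ (k χ) * (x (c χ) : ℂ)‖ ≤ κ := by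
  have hpos : (0 : ℝ) < 2 * M + 5 := by linarith
  have hκ' : 0 < min 1 (κ / (2 * M + 5)) := lt_min one_pos (by positivity)
  have h1 : min 1 (κ / (2 * M + 5)) * (2 * M + 5) ≤ κ := by
    have := min_le_right 1 (κ / (2 * M + 5))
    calc _ ≤ κ / (2 * M + 5) * (2 * M + 5) := mul_le_mul_of_nonneg_right this hpos.le
      _ = κ := by field_simp
  have h2 : 3 * min 1 (κ / (2 * M + 5)) ≤ κ := by nlinarith
  have h3 : min 1 (κ / (2 * M + 5)) ≤ κ := by linarith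
  obtain ⟨N, hN, h⟩ := core_aux hg Λ0 hκ' (min_le_left _ _) hM
  refine ⟨N, hN, fun a b ha hb => ?_⟩
  obtain ⟨T, k, c, h⟩ := h a b ha hb
  refine ⟨T, k, c, fun x z hz hz2 => ?_⟩
  obtain ⟨y, y1, y2, y3, y4⟩ := h x z hz hz2
  exact ⟨y, fun l hl => (y1 l hl).trans h3, y2.trans h2, y3.trans h1, y4.trans h1⟩

end OpenConv3d0876
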