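import Mathlib

set_option autoImplicit false

namespace OpenConv3d0876

universe u

/-- The Banach space `ℓ_1(G)`. -/
def Ell1 (G : Type u) : Type u := ↥(lp (fun _ : G => ℂ) 1)

/-- The norm of `ℓ_1(G)`. -/
noncomputable instance ell1Norm (G : Type u) : NormedAddCommGroup (Ell1 G) :=
  @lp.normedAddCommGroup G (fun _ => ℂ) 1 (fun _ => Complex.instNormedAddCommGroup) ⟨le_rfl⟩

/-- The value `f(x)`. -/
def Ell1.val {G : Type u} (f : Ell1 G) (x : G) : ℂ := f.1 x

/-- `m` is convolution: `m(f, g)(x) = ∑_y f(y) g(y⁻¹ x)` for all `f`, `g`, `x`. -/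
def IsConvolution {G : Type u} [Group G] (m : Ell1 G → Ell1 G → Ell1 G) : Prop :=
  ∀ (f g : Ell1 G) (x : G), HasSum (fun y : G => f.val y * g.val (y⁻¹ * x)) ((m f g).val x)

end OpenConv3d0876
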