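import Pool.Agent.Lib.MP_3d0876_an.Words

open Finset Complex
open scoped Classical Pointwise

namespace OpenConv3d0876

variable {A : Type*} [AddCommGroup A]

lemma exists_letter [Infinite A] (V : Finset A) : ∃ g : A, g ∉ V ∧ (g + g = 0 ∨ g + g ∉ V) := by
  by_contra hcon
  push Not at hcon
  have hinf : Infinite {g : A // g ∉ V} := by
    have : Set.Infinite {g : A | g ∉ V} := by
      have h := (Finset.finite_toSet V).infinite_compl
      exact h
    exact this.to_subtype
  obtain ⟨v, hv⟩ := Finite.exists_infinite_fiber
    (fun g : {g : A // g ∉ V} => (⟨g.1 + g.1, (hcon g.1 g.2).2⟩ : V))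
  obtain ⟨g1, hg1⟩ := hv.nonempty
  have hinj : Function.Injective (fun g : ((fun g : {g : A // g ∉ V} =>
      (⟨g.1 + g.1, (hcon g.1 g.2).2⟩ : V)) ⁻¹' {v}) => g.1.1 - g1.1) := by
    intro a b hab
    simp only [sub_left_inj] at hab
    exact Subtype.ext (Subtype.ext hab)
  have hI := Set.infinite_range_of_injective hinj
  obtain ⟨h, ⟨g, rfl⟩, hh⟩ := hI.exists_notMem_finset V
  have h1 := (hcon _ hh).1
  apply h1
  have e1 : g.1.1 + g.1.1 = v.1 := congrArg Subtype.val g.2
  have e2 : g1.1 + g1.1 = v.1 := congrArg Subtype.val hg1
  calc g.1.1 - g1.1 + (g.1.1 - g1.1) = (g.1.1 + g.1.1) - (g1.1 + g1.1) := by abel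
    _ = 0 := by rw [e1, e2, sub_self]

/-- choice of letter -/
noncomputable def letter [Infinite A] (V : Finset A) : A := (exists_letter V).choose

lemma letter_spec [Infinite A] (V : Finset A) :
    letter V ∉ V ∧ (letter V + letter V = 0 ∨ letter V + letter V ∉ V) :=
  (exists_letter V).choose_spec

/-- the finite sets of differences to avoid -/
noncomputable def VV (A : Type*) [AddCommGroup A] [Infinite A] : ℕ → Finset A
  | 0 => {0}
  | n + 1 => VV A n + {0, letter (VV A n), - letter (VV A n), letter (VV A n) + letter (VV A n),
      -(letter (VV A n) + letter (VV A n))}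

/-- the dissociate sequence -/
noncomputable def gg (A : Type*) [AddCommGroup A] [Infinite A] (n : ℕ) : A := letter (VV A n)

lemma word_split {g : ℕ → A} {w : ℕ →₀ A} (hw : IsWord g w) {n : ℕ}
    (hn : w.support ⊆ range (n + 1)) :
    IsWord g (w.erase n) ∧ (w.erase n).support ⊆ range n ∧ val w = val (w.erase n) + w n := by
  refine ⟨?_, ?_, ?_⟩
  · intro i
    by_cases hij : i = n
    · subst hij; left; simp
    · rw [Finsupp.erase_ne hij]; exact hw i
  · rw [Finsupp.support_erase]
    intro i hi
    rw [Finset.mem_erase] at hi
    have := hn hi.2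
    rw [Finset.mem_range] at this ⊢
    omega
  · conv_lhs => rw [← Finsupp.erase_add_single n w]
    rw [map_add, val_single]

lemma val_sub_mem [Infinite A] (n : ℕ) : ∀ w w', IsWord (gg A) w → IsWord (gg A) w' →
    w.support ⊆ range n → w'.support ⊆ range n → val w - val w' ∈ VV A n := by
  induction n with
  | zero =>
    intro w w' _ _ h1 h2
    have e1 : w = 0 := by
      rw [← Finsupp.support_eq_empty]
      exact Finset.subset_empty.1 h1
    have e2 : w' = 0 := by
      rw [← Finsupp.support_eq_empty]
      exact Finset.subset_empty.1 h2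
    simp [e1, e2, VV]
  | succ n ih =>
    intro w w' hw hw' h1 h2
    obtain ⟨a1, a2, a3⟩ := word_split hw h1
    obtain ⟨b1, b2, b3⟩ := word_split hw' h2
    have h3 := ih _ _ a1 b1 a2 b2
    have h4 : w n - w' n ∈ ({0, gg A n, - gg A n, gg A n + gg A n, -(gg A n + gg A n)} : Finset A) := by
      simp only [Finset.mem_insert, Finset.mem_singleton]
      rcases hw n with h | h | h <;> rcases hw' n with h' | h' | h' <;> rw [h, h']
      · left; abel
      · right; right; left; abel
      · right; left; abel
      · right; left; abel
      · left; abel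
      · right; right; right; left; abel
      · right; right; left; abel
      · right; right; right; right; abel
      · left; abel
    have h5 : val w - val w' = (val (w.erase n) - val (w'.erase n)) + (w n - w' n) := by
      rw [a3, b3]; abel
    rw [h5]
    exact Finset.add_mem_add h3 h4

lemma word_inj [Infinite A] (n : ℕ) : ∀ w w', IsWord (gg A) w → IsWord (gg A) w' →
    w.support ⊆ range n → w'.support ⊆ range n → val w = val w' → w = w' := by
  induction n with
  | zero =>
    intro w w' _ _ h1 h2 _
    have e1 : w = 0 := by
      rw [← Finsupp.support_eq_empty]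
      exact Finset.subset_empty.1 h1
    have e2 : w' = 0 := by
      rw [← Finsupp.support_eq_empty]
      exact Finset.subset_empty.1 h2
    simp [e1, e2]
  | succ n ih =>
    intro w w' hw hw' h1 h2 hval
    obtain ⟨a1, a2, a3⟩ := word_split hw h1
    obtain ⟨b1, b2, b3⟩ := word_split hw' h2
    have m1 := val_sub_mem n _ _ a1 b1 a2 b2
    have m2 := val_sub_mem n _ _ b1 a1 b2 a2
    have e1 : val (w.erase n) - val (w'.erase n) = w' n - w n := by
      rw [a3, b3] at hval
      have : val (w.erase n) - val (w'.erase n) - (w' n - w n) = 0 := by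
        calc _ = (val (w.erase n) + w n) - (val (w'.erase n) + w' n) := by abel
          _ = 0 := by rw [hval, sub_self]
      exact sub_eq_zero.1 this
    have e2 : val (w'.erase n) - val (w.erase n) = w n - w' n := by
      rw [← neg_sub, e1]; abel
    rw [e1] at m1
    rw [e2] at m2
    obtain ⟨l1, l2⟩ := letter_spec (VV A n)
    have heq : w n = w' n := by
      by_contra hne
      have hg1 : gg A n ∉ VV A n := l1
      have hg2 : gg A n + gg A n = 0 ∨ gg A n + gg A n ∉ VV A n := l2
      rcases hw n with h | h | h <;> rcases hw' n with h' | h' | h' <;> rw [h, h'] at m1 m2 hne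
      · exact hne rfl
      · exact hg1 (by simpa using m1)
      · exact hg1 (by simpa using m2)
      · exact hg1 (by simpa using m2)
      · exact hne rfl
      · have k : gg A n + gg A n ∈ VV A n := by
          have : gg A n - - gg A n = gg A n + gg A n := by abel
          rw [this] at m2; exact m2
        rcases hg2 with h3 | h3
        · exact hne (eq_neg_of_add_eq_zero_left h3)
        · exact h3 k
      · exact hg1 (by simpa using m1)
      · have k : gg A n + gg A n ∈ VV A n := by
          have : gg A n - - gg A n = gg A n + gg A n := by abel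
          rw [this] at m1; exact m1
        rcases hg2 with h3 | h3
        · exact hne (eq_neg_of_add_eq_zero_left h3).symm
        · exact h3 k
      · exact hne rfl
    have hval' : val (w.erase n) = val (w'.erase n) := by
      rw [heq, sub_self] at e1
      exact sub_eq_zero.1 e1
    have h6 := ih _ _ a1 b1 a2 b2 hval'
    rw [← Finsupp.erase_add_single n w, ← Finsupp.erase_add_single n w', h6, heq]

lemma zero_mem_VV [Infinite A] (n : ℕ) : (0 : A) ∈ VV A n := by
  have := val_sub_mem n (0 : ℕ →₀ A) 0 (IsWord.zero _) (IsWord.zero _) (by simp) (by simp)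
  simpa using this

/-- Every infinite abelian group contains a dissociate sequence. -/
theorem dissoc_gg [Infinite A] : Dissoc (gg A) where
  ne_zero n h := (letter_spec (VV A n)).1 (by
    have : letter (VV A n) = 0 := h
    rw [this]; exact zero_mem_VV n)
  inj w w' hw hw' hval := by
    obtain ⟨n, hn⟩ := (w.support ∪ w'.support).exists_nat_subset_range
    exact word_inj n w w' hw hw' (Finset.subset_union_left.trans hn)
      (Finset.subset_union_right.trans hn) hval

end OpenConv3d0876
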