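import Pool.Agent.Lib.MP_3d0876_an.Bad

open Finset Complex
open scoped Classical

namespace OpenConv3d0876

variable {A : Type*} [AddCommGroup A]

lemma final_arith {ε δ t X Y P Q : ℝ} (hε : 0 < ε) (hδ : 0 < δ) (ht : 0 < t)
    (ht2 : ε ^ 2 * t ≤ δ / 4) (hP : P ≤ δ * t / 8)
    (h1 : δ * t ≤ 2 * P + ε * t * (Y + ε * t) + X * (ε * t)) (hXY : X * Y ≤ Q)
    (hX : 0 ≤ X) (hY : 0 ≤ Y) : Y ≤ 4 * ε / δ * Q ∨ X ≤ 4 * ε / δ * Q := by
  have h2 : δ / 2 ≤ ε * (X + Y) := by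
    have h3 : t * (δ / 2) ≤ t * (ε * (X + Y)) := by nlinarith
    exact le_of_mul_le_mul_left h3 ht
  have hmul : ∀ U V : ℝ, 0 ≤ V → U * V ≤ Q → δ / 4 ≤ ε * U → V ≤ 4 * ε / δ * Q := by
    intro U V hV hUV hU
    rw [div_mul_eq_mul_div, le_div_iff₀ hδ]
    nlinarith
  by_cases hc : δ / 4 ≤ ε * X
  · exact Or.inl (hmul X Y hY hXY hc)
  · push Not at hc
    refine Or.inr (hmul Y X hX (by linarith [mul_comm X Y]) (by linarith))

/-- **The top of the induction.** -/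
theorem final_bad {g : ℕ → A} (hg : Dissoc g) {φ : A →₀ ℂ} {ε B δ η : ℝ} (hε : 0 < ε)
    (hB : n1 φ ≤ B) (hδ : 0 < δ) (hη : 0 < η) :
    ∃ N : ℕ, 0 < N ∧ ∃ κ : ℝ, 0 < κ ∧ ∀ a b : A →₀ ℂ, n1 a ≤ ε → n1 b ≤ ε →
      (∀ y : AddChar A Circle, ‖(ev y φ + ev y a) * (ev y φ + ev y b) -
        (ev y φ ^ 2 + (δ : ℂ) * ev y (fN g N))‖ ≤ κ) → Bad ε (4 * ε / δ) η φ := by
  have hB0 : 0 ≤ B := (n1_nonneg φ).trans hB
  set t : ℝ := min (2 / 5) (δ / (4 * ε ^ 2)) with ht
  have ht0 : 0 < t := lt_min (by norm_num) (by positivity)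
  have ht1 : t ≤ 2 / 5 := min_le_left _ _
  have ht2 : ε ^ 2 * t ≤ δ / 4 := by
    have := min_le_right (2 / 5) (δ / (4 * ε ^ 2))
    have h2 : t * (4 * ε ^ 2) ≤ δ := by rw [← le_div_iff₀ (by positivity)]; exact this
    linarith
  set K : ℝ := 1 + 2 * (B + ε) * (B + 1) + 2 * B ^ 2 + δ with hK
  have hK0 : 0 < K := by positivity
  set κ : ℝ := min (δ * t / (8 * K)) (η * δ / (4 * ε * K)) with hκ
  have hκ0 : 0 < κ := lt_min (by positivity) (by positivity)
  have hκ1 : κ * K ≤ δ * t / 8 := by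
    have := min_le_left (δ * t / (8 * K)) (η * δ / (4 * ε * K))
    have h2 : κ * (8 * K) ≤ δ * t := by rw [← le_div_iff₀ (by positivity)]; exact this
    linarith
  have hκ2 : 4 * ε / δ * (κ * K) ≤ η := by
    have := min_le_right (δ * t / (8 * K)) (η * δ / (4 * ε * K))
    have h2 : κ * (4 * ε * K) ≤ η * δ := by rw [← le_div_iff₀ (by positivity)]; exact this
    rw [div_mul_eq_mul_div, div_le_iff₀ hδ]
    linarith
  obtain ⟨N, hN, hcore⟩ := core hg φ.support hκ0 hε.le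
  refine ⟨N, hN, κ, hκ0, ?_⟩
  intro a' b' ha' hb' hprod
  obtain ⟨T, k, c, hT⟩ := hcore a' b' ha' hb'
  refine ⟨push T k c 0 a', push T k c 0 b', (n1_push T k c le_rfl zero_le_one a').trans ha',
    (n1_push T k c le_rfl zero_le_one b').trans hb', ?_⟩
  intro x
  -- the main approximate identity
  have hmain : ∀ z : ℝ, 0 ≤ z → z ≤ 2 / 5 →
      ‖(ev x φ + ev x (push T k c z a')) * (ev x φ + ev x (push T k c z b')) -
        (ev x φ ^ 2 + (δ : ℂ) * (z : ℂ))‖ ≤ κ * K := by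
    intro z hz hz2
    obtain ⟨y, hy1, hy2, hy3, hy4⟩ := hT x z hz hz2
    rw [← ev_push] at hy3 hy4
    have hfy : ‖ev y φ - ev x φ‖ ≤ κ * B :=
      (norm_ev_sub_le x y φ hy1).trans (mul_le_mul_of_nonneg_left hB hκ0.le)
    set P := ev y φ + ev y a' with hP
    set Q := ev y φ + ev y b' with hQ
    set P' := ev x φ + ev x (push T k c z a') with hP'
    set Q' := ev x φ + ev x (push T k c z b') with hQ'
    have hz1 : z ≤ 1 := by linarith
    have p1 : ‖P - P'‖ ≤ κ * (B + 1) := by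
      have : P - P' = (ev y φ - ev x φ) + (ev y a' - ev x (push T k c z a')) := by
        rw [hP, hP']; ring
      rw [this]
      exact (norm_add_le _ _).trans (by linarith)
    have q1 : ‖Q - Q'‖ ≤ κ * (B + 1) := by
      have : Q - Q' = (ev y φ - ev x φ) + (ev y b' - ev x (push T k c z b')) := by
        rw [hQ, hQ']; ring
      rw [this]
      exact (norm_add_le _ _).trans (by linarith)
    have p2 : ‖P‖ ≤ B + ε :=
      (norm_add_le _ _).trans (add_le_add ((norm_ev_le _ _).trans hB) ((norm_ev_le _ _).trans ha'))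
    have q2 : ‖Q'‖ ≤ B + ε :=
      (norm_add_le _ _).trans (add_le_add ((norm_ev_le _ _).trans hB) ((norm_ev_le _ _).trans
        ((n1_push T k c hz hz1 b').trans hb')))
    have f1 : ‖ev y φ ^ 2 - ev x φ ^ 2‖ ≤ κ * B * (2 * B) := by
      have : ev y φ ^ 2 - ev x φ ^ 2 = (ev y φ - ev x φ) * (ev y φ + ev x φ) := by ring
      rw [this, norm_mul]
      refine mul_le_mul hfy ?_ (norm_nonneg _) (by positivity)
      refine (norm_add_le _ _).trans ?_
      have h1 := (norm_ev_le y φ).trans hB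
      have h2 := (norm_ev_le x φ).trans hB
      linarith
    have f2 : ‖(δ : ℂ) * ev y (fN g N) - (δ : ℂ) * (z : ℂ)‖ ≤ δ * κ := by
      have : (δ : ℂ) * ev y (fN g N) - (δ : ℂ) * (z : ℂ) =
          (δ : ℂ) * (((1 / (N : ℝ)) * ∑ j ∈ range N, (y (g j) : ℂ).re - z : ℝ) : ℂ) := by
        rw [ev_fN]; push_cast; ring
      rw [this, norm_mul, Complex.norm_real, Complex.norm_real, Real.norm_eq_abs,
        Real.norm_eq_abs, abs_of_pos hδ]
      exact mul_le_mul_of_nonneg_left hy2 hδ.le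
    have e1 : P' * Q' - (ev x φ ^ 2 + (δ : ℂ) * (z : ℂ)) =
        (P * Q - (ev y φ ^ 2 + (δ : ℂ) * ev y (fN g N))) - P * (Q - Q') - (P - P') * Q' +
        (ev y φ ^ 2 - ev x φ ^ 2) + ((δ : ℂ) * ev y (fN g N) - (δ : ℂ) * (z : ℂ)) := by ring
    rw [e1]
    have g1 : ‖P * (Q - Q')‖ ≤ (B + ε) * (κ * (B + 1)) := by
      rw [norm_mul]
      exact mul_le_mul p2 q1 (norm_nonneg _) (by positivity)
    have g2 : ‖(P - P') * Q'‖ ≤ (κ * (B + 1)) * (B + ε) := by
      rw [norm_mul]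
      exact mul_le_mul p1 q2 (norm_nonneg _) (by positivity)
    have g0 := hprod y
    refine (norm_add_le _ _).trans (le_trans (add_le_add (norm_add_le _ _) f2) ?_)
    have s1 := norm_sub_le ((P * Q - (ev y φ ^ 2 + (δ : ℂ) * ev y (fN g N))) - P * (Q - Q'))
      ((P - P') * Q')
    have s2 := norm_sub_le (P * Q - (ev y φ ^ 2 + (δ : ℂ) * ev y (fN g N))) (P * (Q - Q'))
    have hexp : κ * K = κ + 2 * ((B + ε) * (κ * (B + 1))) + κ * B * (2 * B) + δ * κ := by
      rw [hK]; ring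
    rw [hexp]
    linarith
  have h0 := hmain 0 le_rfl (by norm_num)
  have h1 := hmain t ht0.le ht1
  have hdiff : ∀ u : A →₀ ℂ, n1 u ≤ ε →
      ‖ev x (push T k c t u) - ev x (push T k c 0 u)‖ ≤ ε * t := by
    intro u hu
    rw [ev_push, ev_push, ← Finset.sum_sub_distrib]
    calc _ ≤ ∑ χ ∈ T, ‖u χ‖ * t := by
          refine (norm_sum_le _ _).trans (Finset.sum_le_sum fun χ _ => ?_)
          have : u χ * (t : ℂ) ^ k χ * (x (c χ) : ℂ) - u χ * ((0 : ℝ) : ℂ) ^ k χ * (x (c χ) : ℂ) =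
              u χ * (((t ^ k χ - 0 ^ k χ : ℝ)) : ℂ) * (x (c χ) : ℂ) := by push_cast; ring
          rw [this, norm_mul, norm_mul, Circle.norm_coe, mul_one, Complex.norm_real,
            Real.norm_eq_abs]
          refine mul_le_mul_of_nonneg_left ?_ (norm_nonneg _)
          by_cases hk : k χ = 0
          · rw [hk]; simpa using ht0.le
          · rw [zero_pow hk, sub_zero, abs_of_nonneg (by positivity)]
            calc t ^ k χ ≤ t ^ 1 :=
                  pow_le_pow_of_le_one ht0.le (by linarith) (Nat.one_le_iff_ne_zero.2 hk)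
              _ = t := pow_one t
      _ = (∑ χ ∈ T, ‖u χ‖) * t := by rw [Finset.sum_mul]
      _ ≤ ε * t := mul_le_mul_of_nonneg_right ((sum_norm_le_n1 T u).trans hu) ht0.le
  set A0 := ev x φ + ev x (push T k c 0 a') with hA0
  set B0 := ev x φ + ev x (push T k c 0 b') with hB0'
  set At := ev x φ + ev x (push T k c t a') with hAt
  set Bt := ev x φ + ev x (push T k c t b') with hBt
  have dA : ‖At - A0‖ ≤ ε * t := by
    have : At - A0 = ev x (push T k c t a') - ev x (push T k c 0 a') := by rw [hAt, hA0]; ring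
    rw [this]; exact hdiff a' ha'
  have dB : ‖Bt - B0‖ ≤ ε * t := by
    have : Bt - B0 = ev x (push T k c t b') - ev x (push T k c 0 b') := by rw [hBt, hB0']; ring
    rw [this]; exact hdiff b' hb'
  have hXY : ‖A0‖ * ‖B0‖ ≤ ‖ev x φ‖ ^ 2 + κ * K := by
    rw [← norm_mul]
    have e : A0 * B0 = (A0 * B0 - (ev x φ ^ 2 + (δ : ℂ) * ((0 : ℝ) : ℂ))) + ev x φ ^ 2 := by
      push_cast; ring
    rw [e]
    refine (norm_add_le _ _).trans ?_
    rw [norm_pow]
    linarith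
  have hkey : δ * t ≤ 2 * (κ * K) + ε * t * (‖B0‖ + ε * t) + ‖A0‖ * (ε * t) := by
    have e : ((δ * t : ℝ) : ℂ) = (A0 * B0 - (ev x φ ^ 2 + (δ : ℂ) * ((0 : ℝ) : ℂ))) -
        (At * Bt - (ev x φ ^ 2 + (δ : ℂ) * (t : ℂ))) + ((At - A0) * Bt + A0 * (Bt - B0)) := by
      push_cast; ring
    have hn : δ * t = ‖((δ * t : ℝ) : ℂ)‖ := by
      rw [Complex.norm_real, Real.norm_eq_abs, abs_of_pos (by positivity)]
    rw [hn, e]
    have hBt' : ‖Bt‖ ≤ ‖B0‖ + ε * t := by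
      have := norm_add_le (Bt - B0) B0
      rw [sub_add_cancel] at this
      linarith
    have g1 : ‖(At - A0) * Bt‖ ≤ ε * t * (‖B0‖ + ε * t) := by
      rw [norm_mul]
      exact mul_le_mul dA hBt' (norm_nonneg _) (by positivity)
    have g2 : ‖A0 * (Bt - B0)‖ ≤ ‖A0‖ * (ε * t) := by
      rw [norm_mul]
      exact mul_le_mul_of_nonneg_left dB (norm_nonneg _)
    refine (norm_add_le _ _).trans ?_
    have g3 := norm_add_le ((At - A0) * Bt) (A0 * (Bt - B0))
    have g4 := norm_sub_le (A0 * B0 - (ev x φ ^ 2 + (δ : ℂ) * ((0 : ℝ) : ℂ)))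
        (At * Bt - (ev x φ ^ 2 + (δ : ℂ) * (t : ℂ)))
    linarith
  have hfin := final_arith hε hδ ht0 ht2 hκ1 hkey hXY (norm_nonneg _) (norm_nonneg _)
  have hlast : 4 * ε / δ * (‖ev x φ‖ ^ 2 + κ * K) ≤ η + 4 * ε / δ * ‖ev x φ‖ ^ 2 := by
    rw [mul_add]; linarith
  rcases hfin with h | h
  · exact Or.inr (h.trans hlast)
  · exact Or.inl (h.trans hlast)

end OpenConv3d0876
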