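import Mathlib

open scoped ENNReal Classical

namespace OpenConv3d0876

/-- `ℓ_1(G)`. -/
abbrev L1 (G : Type*) : Type _ := ↥(lp (fun _ : G => ℂ) 1)

lemma l1_summable_norm {G : Type*} (f : L1 G) : Summable fun g => ‖f g‖ := by
  have := (lp.memℓp f).summable (by norm_num)
  simpa using this

lemma l1_norm_eq {G : Type*} (f : L1 G) : ‖f‖ = ∑' g, ‖f g‖ := by
  have := lp.norm_eq_tsum_rpow (p := 1) (by norm_num) f
  simpa using this

/-- The point masses. -/
noncomputable def dl {G : Type*} (x : G) : L1 G := lp.single 1 x (1 : ℂ)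

lemma norm_dl {G : Type*} (x : G) : ‖dl x‖ = 1 := by
  unfold dl
  rw [lp.norm_single (by norm_num)]
  simp

lemma dl_apply_self {G : Type*} (x : G) : dl x x = 1 := by
  unfold dl
  rw [lp.single_apply_self]

lemma dl_apply_ne {G : Type*} {x y : G} (h : y ≠ x) : dl x y = 0 := by
  unfold dl
  rw [lp.single_apply_ne _ _ _ h]

lemma hasSum_dl {G : Type*} (f : L1 G) : HasSum (fun x => f x • dl x) f := by
  have h := lp.hasSum_single (by norm_num) f
  have h2 : (fun x => f x • dl x) = fun x => lp.single 1 x (f x : ℂ) := by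
    funext x
    unfold dl
    rw [← lp.single_smul]
    simp
  rw [h2]
  exact h

section lift

variable {G : Type*} {B : Type*} [NormedAddCommGroup B] [NormedSpace ℂ B] [CompleteSpace B]

lemma summable_lift (b : G → B) (hb : ∀ x, ‖b x‖ ≤ 1) (f : L1 G) :
    Summable fun x => f x • b x := by
  refine Summable.of_norm_bounded (l1_summable_norm f) fun x => ?_
  rw [norm_smul]
  exact mul_le_of_le_one_right (norm_nonneg _) (hb x)

/-- The universal property of `ℓ_1(G)`. -/
noncomputable def lift (b : G → B) (hb : ∀ x, ‖b x‖ ≤ 1) : L1 G →L[ℂ] B :=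
  LinearMap.mkContinuous
    { toFun := fun f => ∑' x, f x • b x
      map_add' := fun f g => by
        rw [← (summable_lift b hb f).tsum_add (summable_lift b hb g)]
        refine tsum_congr fun x => ?_
        rw [lp.coeFn_add, Pi.add_apply, add_smul]
      map_smul' := fun c f => by
        rw [RingHom.id_apply, ← (summable_lift b hb f).tsum_const_smul c]
        refine tsum_congr fun x => ?_
        rw [lp.coeFn_smul, Pi.smul_apply, smul_assoc] }
    1 (fun f => by
      rw [one_mul, l1_norm_eq]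
      refine tsum_of_norm_bounded (l1_summable_norm f).hasSum fun x => ?_
      rw [norm_smul]
      exact mul_le_of_le_one_right (norm_nonneg _) (hb x))

lemma lift_apply (b : G → B) (hb : ∀ x, ‖b x‖ ≤ 1) (f : L1 G) :
    lift b hb f = ∑' x, f x • b x := rfl

lemma hasSum_lift (b : G → B) (hb : ∀ x, ‖b x‖ ≤ 1) (f : L1 G) :
    HasSum (fun x => f x • b x) (lift b hb f) := (summable_lift b hb f).hasSum

lemma lift_dl (b : G → B) (hb : ∀ x, ‖b x‖ ≤ 1) (x : G) : lift b hb (dl x) = b x := by
  rw [lift_apply, tsum_eq_single x]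
  · rw [dl_apply_self, one_smul]
  · intro y hy
    rw [dl_apply_ne hy, zero_smul]

lemma norm_lift_le (b : G → B) (hb : ∀ x, ‖b x‖ ≤ 1) : ‖lift b hb‖ ≤ 1 :=
  LinearMap.mkContinuous_norm_le _ zero_le_one _

lemma l1_ext {φ ψ : L1 G →L[ℂ] B} (h : ∀ x, φ (dl x) = ψ (dl x)) : φ = ψ := by
  ext f
  have h1 := (hasSum_dl f).mapL φ
  have h2 := (hasSum_dl f).mapL ψ
  have h3 : (fun x => φ (f x • dl x)) = fun x => ψ (f x • dl x) := by
    funext x
    rw [map_smul, map_smul, h]
  rw [h3] at h1
  exact h1.unique h2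

end lift

section mul

variable {G : Type*} [Group G]

/-- Left translation. -/
noncomputable def tr (y : G) : L1 G →L[ℂ] L1 G := lift (fun x => dl (y * x)) (fun x => (norm_dl _).le)

lemma tr_dl (y x : G) : tr y (dl x) = dl (y * x) := lift_dl _ _ _

lemma norm_tr_le (y : G) : ‖tr y‖ ≤ 1 := norm_lift_le _ _

lemma tr_apply (y : G) (f : L1 G) (x : G) : tr y f x = f (y⁻¹ * x) := by
  have h : (lp.evalCLM ℂ (fun _ : G => ℂ) 1 x).comp (tr y) =
      lp.evalCLM ℂ (fun _ : G => ℂ) 1 (y⁻¹ * x) := by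
    refine l1_ext fun z => ?_
    rw [ContinuousLinearMap.comp_apply, tr_dl]
    change dl (y * z) x = dl z (y⁻¹ * x)
    by_cases h : x = y * z
    · subst h
      rw [dl_apply_self, inv_mul_cancel_left, dl_apply_self]
    · rw [dl_apply_ne h, dl_apply_ne]
      intro h2
      apply h
      rw [← h2, mul_inv_cancel_left]
  exact congrArg (fun φ : L1 G →L[ℂ] ℂ => φ f) h

/-- Multiplication as a bilinear map. -/
noncomputable def mulL : L1 G →L[ℂ] L1 G →L[ℂ] L1 G := lift tr norm_tr_le

lemma mulL_dl (x : G) : mulL (dl x) = tr x := lift_dl _ _ _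

lemma mulL_dl_dl (x y : G) : mulL (dl x) (dl y) = dl (x * y) := by rw [mulL_dl, tr_dl]

lemma norm_mulL_le : ‖(mulL : L1 G →L[ℂ] L1 G →L[ℂ] L1 G)‖ ≤ 1 := norm_lift_le _ _

lemma hasSum_mulL (f g : L1 G) (x : G) :
    HasSum (fun y => f y * g (y⁻¹ * x)) (mulL f g x) := by
  have h1 := hasSum_lift (tr : G → L1 G →L[ℂ] L1 G) norm_tr_le f
  have h2 := h1.mapL (ContinuousLinearMap.apply ℂ (L1 G) g)
  have h3 := h2.mapL (lp.evalCLM ℂ (fun _ : G => ℂ) 1 x)
  have h4 : (fun y => f y * g (y⁻¹ * x)) = fun y => (lp.evalCLM ℂ (fun _ : G => ℂ) 1 x)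
      ((ContinuousLinearMap.apply ℂ (L1 G) g) (f y • tr y)) := by
    funext y
    rw [ContinuousLinearMap.apply_apply, ContinuousLinearMap.smul_apply, map_smul, smul_eq_mul]
    congr 1
    exact (tr_apply y g x).symm
  rw [h4]
  exact h3

lemma mulL_assoc (f g h : L1 G) : mulL (mulL f g) h = mulL f (mulL g h) := by
  have e1 : ∀ x y : G, mulL (mulL (dl x) (dl y)) h = mulL (dl x) (mulL (dl y) h) := by
    intro x y
    have : mulL (mulL (dl x) (dl y)) = (mulL (dl x)).comp (mulL (dl y)) := by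
      refine l1_ext fun z => ?_
      rw [ContinuousLinearMap.comp_apply, mulL_dl_dl, mulL_dl_dl, mulL_dl_dl, mulL_dl_dl, mul_assoc]
    exact congrArg (fun φ : L1 G →L[ℂ] L1 G => φ h) this
  have e2 : ∀ x : G, mulL (mulL (dl x) g) h = mulL (dl x) (mulL g h) := by
    intro x
    have : ((mulL : L1 G →L[ℂ] L1 G →L[ℂ] L1 G).flip h).comp (mulL (dl x)) =
        (mulL (dl x)).comp ((mulL : L1 G →L[ℂ] L1 G →L[ℂ] L1 G).flip h) := by
      refine l1_ext fun y => ?_
      rw [ContinuousLinearMap.comp_apply, ContinuousLinearMap.comp_apply,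
        ContinuousLinearMap.flip_apply, ContinuousLinearMap.flip_apply]
      exact e1 x y
    exact congrArg (fun φ : L1 G →L[ℂ] L1 G => φ g) this
  have : ((mulL : L1 G →L[ℂ] L1 G →L[ℂ] L1 G).flip h).comp
      ((mulL : L1 G →L[ℂ] L1 G →L[ℂ] L1 G).flip g) =
      (mulL : L1 G →L[ℂ] L1 G →L[ℂ] L1 G).flip (mulL g h) := by
    refine l1_ext fun x => ?_
    rw [ContinuousLinearMap.comp_apply, ContinuousLinearMap.flip_apply,
      ContinuousLinearMap.flip_apply, ContinuousLinearMap.flip_apply]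
    exact e2 x
  exact congrArg (fun φ : L1 G →L[ℂ] L1 G => φ f) this

lemma mulL_one_left (f : L1 G) : mulL (dl 1) f = f := by
  have : (mulL (dl (1 : G))) = ContinuousLinearMap.id ℂ (L1 G) := by
    refine l1_ext fun x => ?_
    rw [mulL_dl_dl, one_mul]
    rfl
  rw [this]
  rfl

lemma mulL_one_right (f : L1 G) : mulL f (dl 1) = f := by
  have : (mulL : L1 G →L[ℂ] L1 G →L[ℂ] L1 G).flip (dl (1 : G)) =
      ContinuousLinearMap.id ℂ (L1 G) := by
    refine l1_ext fun x => ?_
    rw [ContinuousLinearMap.flip_apply, mulL_dl_dl, mul_one]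
    rfl
  exact congrArg (fun φ : L1 G →L[ℂ] L1 G => φ f) this

noncomputable scoped instance l1NormedRing : NormedRing (L1 G) where
  __ := (inferInstance : NormedAddCommGroup (L1 G))
  mul f g := mulL f g
  one := dl 1
  left_distrib f g h := map_add (mulL f) g h
  right_distrib f g h := by
    change mulL (f + g) h = mulL f h + mulL g h
    rw [map_add, ContinuousLinearMap.add_apply]
  zero_mul f := by
    change mulL 0 f = 0
    rw [map_zero, ContinuousLinearMap.zero_apply]
  mul_zero f := map_zero (mulL f)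
  mul_assoc f g h := mulL_assoc f g h
  one_mul f := mulL_one_left f
  mul_one f := mulL_one_right f
  norm_mul_le f g := by
    change ‖mulL f g‖ ≤ ‖f‖ * ‖g‖
    refine ((mulL f).le_opNorm g).trans (mul_le_mul_of_nonneg_right ?_ (norm_nonneg _))
    refine ((mulL : L1 G →L[ℂ] L1 G →L[ℂ] L1 G).le_opNorm f).trans ?_
    exact mul_le_of_le_one_left (norm_nonneg _) norm_mulL_le

lemma l1_mul_def (f g : L1 G) : f * g = mulL f g := rfl

lemma l1_one_def : (1 : L1 G) = dl 1 := rfl

noncomputable scoped instance l1NormedAlgebra : NormedAlgebra ℂ (L1 G) where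
  __ := Algebra.ofModule (R := ℂ) (A := L1 G)
    (fun r f g => by
      rw [l1_mul_def, l1_mul_def, map_smul, ContinuousLinearMap.smul_apply])
    (fun r f g => by
      rw [l1_mul_def, l1_mul_def, map_smul])
  norm_smul_le r f := norm_smul_le r f

lemma l1_mul_apply (f g : L1 G) (x : G) : HasSum (fun y => f y * g (y⁻¹ * x)) ((f * g) x) :=
  hasSum_mulL f g x

lemma dl_mul_dl (x y : G) : (dl x : L1 G) * dl y = dl (x * y) := mulL_dl_dl x y

lemma lift_mul {B : Type*} [NormedRing B] [NormedAlgebra ℂ B] [CompleteSpace B] (h : G →* B)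
    (hb : ∀ x, ‖h x‖ ≤ 1) (f g : L1 G) :
    lift h hb (f * g) = lift h hb f * lift h hb g := by
  have e1 : ∀ x : G, lift h hb (dl x * g) = h x * lift h hb g := by
    intro x
    have : (lift h hb).comp (mulL (dl x)) = (ContinuousLinearMap.mul ℂ B (h x)).comp (lift h hb) := by
      refine l1_ext fun y => ?_
      rw [ContinuousLinearMap.comp_apply, ContinuousLinearMap.comp_apply, mulL_dl_dl, lift_dl,
        lift_dl, map_mul]
      rfl
    exact congrArg (fun φ : L1 G →L[ℂ] B => φ g) this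
  have : (lift h hb).comp ((mulL : L1 G →L[ℂ] L1 G →L[ℂ] L1 G).flip g) =
      ((ContinuousLinearMap.mul ℂ B).flip (lift h hb g)).comp (lift h hb) := by
    refine l1_ext fun x => ?_
    rw [ContinuousLinearMap.comp_apply, ContinuousLinearMap.comp_apply,
      ContinuousLinearMap.flip_apply, ContinuousLinearMap.flip_apply, lift_dl]
    exact e1 x
  exact congrArg (fun φ : L1 G →L[ℂ] B => φ f) this

lemma lift_one {B : Type*} [NormedRing B] [NormedAlgebra ℂ B] [CompleteSpace B] (h : G →* B)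
    (hb : ∀ x, ‖h x‖ ≤ 1) : lift h hb (1 : L1 G) = 1 := by
  rw [l1_one_def, lift_dl, map_one]

end mul

end OpenConv3d0876
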