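import Pool.Agent.Lib.MP_3d0876_an.Words

open Finset Complex
open scoped Classical

namespace OpenConv3d0876

variable {A : Type*} [AddCommGroup A]

/-- the coefficient `D_k` -/
noncomputable def DD {Λ : Finset A} (m : ℕ) (k : Λ → ℕ) : ℝ :=
  ∏ l : Λ, ((m.choose (k l) : ℝ) / 2 ^ m)

/-- the character `θ_k` -/
noncomputable def th {Λ : Finset A} (k : Λ → ℕ) : A := ∑ l : Λ, k l • (l : A)

/-- the index set -/
noncomputable def SS (Λ : Finset A) (m : ℕ) : Finset (Λ → ℕ) :=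
  Fintype.piFinset (fun _ : Λ => range (m + 1))

lemma card_SS (Λ : Finset A) (m : ℕ) : (SS Λ m).card = (m + 1) ^ Λ.card := by
  unfold SS
  rw [Fintype.card_piFinset]
  simp

lemma DD_nonneg {Λ : Finset A} (m : ℕ) (k : Λ → ℕ) : 0 ≤ DD m k :=
  Finset.prod_nonneg fun _ _ => by positivity

lemma sum_DD_char (Λ : Finset A) (m : ℕ) (u : AddChar A Circle) :
    ∑ k ∈ SS Λ m, (DD m k : ℂ) * (u (th k) : ℂ) = ∏ l : Λ, ((1 + (u (l : A) : ℂ)) / 2) ^ m := by
  have h1 : ∀ l : Λ, ((1 + (u (l : A) : ℂ)) / 2) ^ m =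
      ∑ j ∈ range (m + 1), ((m.choose j : ℂ) / 2 ^ m) * (u (l : A) : ℂ) ^ j := by
    intro l
    rw [div_pow, add_comm, add_pow, Finset.sum_div]
    refine Finset.sum_congr rfl fun j _ => ?_
    rw [one_pow]
    ring
  simp_rw [h1]
  rw [Finset.prod_univ_sum]
  unfold SS
  refine Finset.sum_congr rfl fun k _ => ?_
  rw [Finset.prod_mul_distrib]
  congr 1
  · unfold DD
    push_cast
    rfl
  · unfold th
    have : ∀ s : Finset Λ, ((u (∑ l ∈ s, k l • (l : A)) : Circle) : ℂ) =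
        ∏ l ∈ s, ((u (l : A) : Circle) : ℂ) ^ (k l) := by
      intro s
      induction s using Finset.induction_on with
      | empty => simp
      | insert a s ha ih =>
        rw [Finset.sum_insert ha, AddChar.map_add_eq_mul, Circle.coe_mul, ih,
          Finset.prod_insert ha, AddChar.map_nsmul_eq_pow, Circle.coe_pow]
    exact this _

lemma sum_DD (Λ : Finset A) (m : ℕ) : ∑ k ∈ SS Λ m, DD m k = 1 := by
  have h := sum_DD_char Λ m 1
  simp only [AddChar.one_apply, Circle.coe_one, mul_one] at h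
  norm_num at h
  exact_mod_cast h

lemma sum_DD_sq (Λ : Finset A) (m : ℕ) : 1 / ((m : ℝ) + 1) ^ Λ.card ≤ ∑ k ∈ SS Λ m, DD m k ^ 2 := by
  have h := sq_sum_le_card_mul_sum_sq (s := SS Λ m) (f := fun k => DD m k)
  rw [sum_DD, card_SS] at h
  push_cast at h
  rw [div_le_iff₀ (by positivity)]
  linarith

/-- the bad letters -/
noncomputable def JJ (g : ℕ → A) (Λ : Finset A) (m D : ℕ) : Finset ℕ :=
  (SS Λ m ×ˢ SS Λ m).biUnion fun p =>
    if h : ∃ w, IsWord g w ∧ val w = th p.1 - th p.2 ∧ w.support.card < D then h.choose.support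
    else ∅

lemma card_JJ (g : ℕ → A) (Λ : Finset A) (m D : ℕ) :
    (JJ g Λ m D).card ≤ ((m + 1) ^ Λ.card * (m + 1) ^ Λ.card) * D := by
  unfold JJ
  refine (Finset.card_biUnion_le_card_mul _ _ D fun p _ => ?_).trans ?_
  · split_ifs with h
    · exact h.choose_spec.2.2.le
    · simp
  · rw [Finset.card_product, card_SS]

lemma mm_le_of_disjoint {g : ℕ → A} (hg : Dissoc g) (Λ : Finset A) (m D : ℕ) {I : Finset ℕ}
    (hI : Disjoint I (JJ g Λ m D)) {z : ℝ} (hz : 0 ≤ z) (hz2 : z ≤ 2 / 5) {k l : Λ → ℕ}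
    (hk : k ∈ SS Λ m) (hl : l ∈ SS Λ m) (hne : th k ≠ th l) :
    mm g I z (th k - th l) ≤ (2 / 5) ^ D := by
  by_cases h : ∃ w, IsWord g w ∧ w.support ⊆ I ∧ val w = th k - th l
  · obtain ⟨w, h1, h2, h3⟩ := h
    rw [← h3, mm_val hg z h1 h2]
    by_cases hD : w.support.card < D
    · exfalso
      have hex : ∃ w, IsWord g w ∧ val w = th k - th l ∧ w.support.card < D := ⟨w, h1, h3, hD⟩
      have hsub : w.support ⊆ JJ g Λ m D := by
        have : hex.choose = w := hg.inj _ _ hex.choose_spec.1 h1 (by rw [hex.choose_spec.2.1, h3])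
        intro i hi
        unfold JJ
        rw [Finset.mem_biUnion]
        refine ⟨(k, l), Finset.mk_mem_product hk hl, ?_⟩
        rw [dif_pos hex, this]
        exact hi
      have hemp : w.support = ∅ := by
        rw [Finset.eq_empty_iff_forall_notMem]
        intro i hi
        exact Finset.disjoint_left.1 hI (h2 hi) (hsub hi)
      have : w = 0 := Finsupp.support_eq_empty.1 hemp
      rw [this, map_zero] at h3
      exact hne (sub_eq_zero.1 h3.symm)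
    · push Not at hD
      calc z ^ w.support.card ≤ (2 / 5) ^ w.support.card := pow_le_pow_left₀ hz hz2 _
        _ ≤ (2 / 5) ^ D := pow_le_pow_of_le_one (by norm_num) (by norm_num) hD
  · rw [mm_eq_zero z (fun w h1 h2 h3 => h ⟨w, h1, h2, h3⟩)]
    positivity

lemma localiser_lower {g : ℕ → A} (hg : Dissoc g) (Λ : Finset A) (m D : ℕ) {I : Finset ℕ}
    (hI : Disjoint I (JJ g Λ m D)) {z : ℝ} (hz : 0 ≤ z) (hz2 : z ≤ 2 / 5)
    (x : AddChar A Circle) :
    1 / ((m : ℝ) + 1) ^ Λ.card - (2 / 5) ^ D ≤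
    (∑ k ∈ SS Λ m, ∑ l ∈ SS Λ m, ((DD m k : ℂ) * (x⁻¹ (th k) : ℂ)) *
      (starRingEnd ℂ) ((DD m l : ℂ) * (x⁻¹ (th l) : ℂ)) *
      (mm g I z (th k - th l) : ℂ)).re := by
  have hterm : ∀ k ∈ SS Λ m, ∀ l ∈ SS Λ m,
      (if k = l then DD m k ^ 2 else 0) - DD m k * DD m l * (2 / 5) ^ D ≤
      (((DD m k : ℂ) * (x⁻¹ (th k) : ℂ)) *
      (starRingEnd ℂ) ((DD m l : ℂ) * (x⁻¹ (th l) : ℂ)) *
      (mm g I z (th k - th l) : ℂ)).re := by
    intro k hk l hl
    have hk0 := DD_nonneg m k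
    have hl0 := DD_nonneg m l
    have hp : 0 ≤ DD m k * DD m l * (2 / 5) ^ D := by positivity
    have hrew : ((DD m k : ℂ) * (x⁻¹ (th k) : ℂ)) *
      (starRingEnd ℂ) ((DD m l : ℂ) * (x⁻¹ (th l) : ℂ)) *
      (mm g I z (th k - th l) : ℂ) =
      ((DD m k * DD m l * mm g I z (th k - th l) : ℝ) : ℂ) * ((x⁻¹ (th k - th l) : Circle) : ℂ) := by
      rw [char_sub, map_mul, Complex.conj_ofReal]
      push_cast
      ring
    rw [hrew, Complex.re_ofReal_mul]
    by_cases hkl : th k = th l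
    · rw [hkl, sub_self, mm_zero hg, AddChar.map_zero_eq_one, Circle.coe_one, Complex.one_re]
      split_ifs with h
      · subst h
        nlinarith
      · have : 0 ≤ DD m k * DD m l := mul_nonneg hk0 hl0
        linarith
    · have hne : k ≠ l := fun h => hkl (by rw [h])
      rw [if_neg hne]
      have h1 := mm_le_of_disjoint hg Λ m D hI hz hz2 hk hl hkl
      have h2 : -1 ≤ ((x⁻¹ (th k - th l) : Circle) : ℂ).re := by
        have := Complex.abs_re_le_norm ((x⁻¹ (th k - th l) : Circle) : ℂ)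
        rw [Circle.norm_coe] at this
        exact (abs_le.1 this).1
      have h3 : 0 ≤ mm g I z (th k - th l) := mm_nonneg I hz _
      have h4 : 0 ≤ DD m k * DD m l := mul_nonneg hk0 hl0
      have h5 : 0 ≤ DD m k * DD m l * mm g I z (th k - th l) := mul_nonneg h4 h3
      have h6 : DD m k * DD m l * mm g I z (th k - th l) ≤ DD m k * DD m l * (2 / 5) ^ D :=
        mul_le_mul_of_nonneg_left h1 h4
      nlinarith
  rw [Complex.re_sum]
  simp_rw [Complex.re_sum]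
  refine le_trans ?_ (Finset.sum_le_sum fun k hk => Finset.sum_le_sum fun l hl => hterm k hk l hl)
  have hs : ∑ k ∈ SS Λ m, ∑ l ∈ SS Λ m,
      ((if k = l then DD m k ^ 2 else 0) - DD m k * DD m l * (2 / 5) ^ D) =
      ∑ k ∈ SS Λ m, DD m k ^ 2 - (2 / 5) ^ D := by
    simp_rw [Finset.sum_sub_distrib]
    congr 1
    · refine Finset.sum_congr rfl fun k hk => ?_
      rw [Finset.sum_ite_eq, if_pos hk]
    · simp_rw [← Finset.sum_mul, ← Finset.mul_sum]
      rw [sum_DD]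
      simp [sum_DD]
  rw [hs]
  have := sum_DD_sq Λ m
  linarith

lemma normSq_half (u : Circle) : Complex.normSq ((1 + (u : ℂ)) / 2) = (1 + (u : ℂ).re) / 2 := by
  have h1 : Complex.normSq (u : ℂ) = 1 := Circle.normSq_coe u
  rw [Complex.normSq_apply] at h1
  rw [Complex.normSq_div, Complex.normSq_apply]
  norm_num
  nlinarith

/-- **Localisation lemma.** -/
theorem loc {g : ℕ → A} (hg : Dissoc g) {κ : ℝ} (hκ : 0 < κ) (hκ1 : κ ≤ 1) (n : ℕ) :
    ∃ τ : ℝ, 0 < τ ∧ ∃ s : ℕ, ∀ Λ : Finset A, Λ.card ≤ n → ∃ J : Finset ℕ, J.card ≤ s ∧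
      ∀ I : Finset ℕ, Disjoint I J → ∀ z : ℝ, 0 ≤ z → z ≤ 2 / 5 → ∀ x : AddChar A Circle,
      ∀ F : AddChar A Circle → ℂ, (∀ y, 0 ≤ (F y).re) → ∀ e : ℂ, HasE (mm g I z) F e → ‖e‖ < τ →
      ∃ y : AddChar A Circle, (∀ l ∈ Λ, ‖(y l : ℂ) - (x l : ℂ)‖ ≤ κ) ∧ (F y).re ≤ 1 := by
  set ρ : ℝ := 1 - κ ^ 2 / 4 with hρ
  have hρ0 : 0 < ρ := by rw [hρ]; nlinarith
  have hρ1 : ρ < 1 := by rw [hρ]; nlinarith
  obtain ⟨m, hm⟩ : ∃ m : ℕ, ρ ^ m < 1 / (2 * ((m : ℝ) + 1) ^ n) := by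
    have ht := tendsto_pow_const_mul_const_pow_of_lt_one n hρ0.le hρ1
    have ht' := ht.comp (Filter.tendsto_add_atTop_nat 1)
    have hev := (ht'.eventually (gt_mem_nhds (show (0 : ℝ) < ρ / 2 by positivity))).exists
    obtain ⟨m, hm⟩ := hev
    refine ⟨m, ?_⟩
    simp only [Function.comp] at hm
    push_cast at hm
    rw [lt_div_iff₀ (by positivity)]
    rw [pow_succ] at hm
    have : ρ * (ρ ^ m * (2 * ((m : ℝ) + 1) ^ n)) < ρ * 1 := by nlinarith
    exact lt_of_mul_lt_mul_left this hρ0.le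
  obtain ⟨D, hD⟩ : ∃ D : ℕ, ((2 : ℝ) / 5) ^ D < 1 / (4 * ((m : ℝ) + 1) ^ n) :=
    exists_pow_lt_of_lt_one (by positivity) (by norm_num)
  refine ⟨1 / (4 * ((m : ℝ) + 1) ^ n), by positivity, ((m + 1) ^ n * (m + 1) ^ n) * D, ?_⟩
  intro Λ hΛ
  refine ⟨JJ g Λ m D, (card_JJ g Λ m D).trans ?_, ?_⟩
  · have : (m + 1) ^ Λ.card ≤ (m + 1) ^ n := Nat.pow_le_pow_right (by omega) hΛ
    gcongr
  intro I hI z hz hz2 x F hF e he heτ
  have hlow := localiser_lower hg Λ m D hI hz hz2 x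
  have hW := HasE.normSq (m := mm g I z) (SS Λ m) (fun k => (DD m k : ℂ) * (x⁻¹ (th k) : ℂ)) th
  set E2 := ∑ k ∈ SS Λ m, ∑ l ∈ SS Λ m, ((DD m k : ℂ) * (x⁻¹ (th k) : ℂ)) *
      (starRingEnd ℂ) ((DD m l : ℂ) * (x⁻¹ (th l) : ℂ)) *
      (mm g I z (th k - th l) : ℂ) with hE2
  have hH := (hW.sub (HasE.const (mm_zero hg I z) ((ρ ^ m : ℝ) : ℂ))).sub he
  have hcard : 1 / ((m : ℝ) + 1) ^ n ≤ 1 / ((m : ℝ) + 1) ^ Λ.card := by
    refine one_div_le_one_div_of_le (by positivity) ?_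
    exact pow_le_pow_right₀ (by linarith [Nat.cast_nonneg (α := ℝ) m]) hΛ
  have hpos : 0 < (E2 - ((ρ ^ m : ℝ) : ℂ) - e).re := by
    rw [Complex.sub_re, Complex.sub_re, Complex.ofReal_re]
    have h1 : e.re ≤ ‖e‖ := Complex.re_le_norm e
    have h2 : (1 : ℝ) / (2 * ((m : ℝ) + 1) ^ n) = (1 / 2) * (1 / ((m : ℝ) + 1) ^ n) := by
      field_simp
    have h3 : (1 : ℝ) / (4 * ((m : ℝ) + 1) ^ n) = (1 / 4) * (1 / ((m : ℝ) + 1) ^ n) := by
      field_simp
    rw [h2] at hm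
    rw [h3] at hD heτ
    linarith
  obtain ⟨y, hy⟩ := exists_re_pos (isPos_mm hg I hz (by linarith)) hH hpos
  refine ⟨y, ?_, ?_⟩
  all_goals
    rw [Complex.sub_re, Complex.sub_re, Complex.ofReal_re, Complex.ofReal_re] at hy
    have hsum : ∑ k ∈ SS Λ m, (DD m k : ℂ) * (x⁻¹ (th k) : ℂ) * (y (th k) : ℂ) =
        ∏ l : Λ, ((1 + ((y * x⁻¹ : AddChar A Circle) (l : A) : ℂ)) / 2) ^ m := by
      rw [← sum_DD_char]
      refine Finset.sum_congr rfl fun k _ => ?_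
      rw [AddChar.mul_apply, Circle.coe_mul]
      ring
    rw [hsum, map_prod] at hy
    simp_rw [map_pow, normSq_half] at hy
    have hfac : ∀ l : Λ, 0 ≤ ((1 + ((y * x⁻¹ : AddChar A Circle) (l : A) : ℂ).re) / 2) ^ m ∧
        ((1 + ((y * x⁻¹ : AddChar A Circle) (l : A) : ℂ).re) / 2) ^ m ≤ 1 := by
      intro l
      have := Complex.abs_re_le_norm ((y * x⁻¹ : AddChar A Circle) (l : A) : ℂ)
      rw [Circle.norm_coe] at this
      have h1 := abs_le.1 this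
      refine ⟨pow_nonneg (by linarith [h1.1]) _, pow_le_one₀ (by linarith [h1.1]) (by linarith [h1.2])⟩
    have hFy := hF y
  · intro l hl
    have h1 : ∏ l : Λ, ((1 + ((y * x⁻¹ : AddChar A Circle) (l : A) : ℂ).re) / 2) ^ m ≤
        ((1 + ((y * x⁻¹ : AddChar A Circle) l : ℂ).re) / 2) ^ m := by
      rw [← Finset.mul_prod_erase _ _ (Finset.mem_univ (⟨l, hl⟩ : Λ))]
      refine mul_le_of_le_one_right (hfac ⟨l, hl⟩).1 ?_
      exact Finset.prod_le_one (fun i _ => (hfac i).1) (fun i _ => (hfac i).2)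
    have h2 : ρ ^ m < ((1 + ((y * x⁻¹ : AddChar A Circle) l : ℂ).re) / 2) ^ m := by linarith
    have h3 : ρ < (1 + ((y * x⁻¹ : AddChar A Circle) l : ℂ).re) / 2 := by
      by_contra hcon
      push Not at hcon
      have h0 : 0 ≤ (1 + ((y * x⁻¹ : AddChar A Circle) l : ℂ).re) / 2 := by
        have := Complex.abs_re_le_norm ((y * x⁻¹ : AddChar A Circle) l : ℂ)
        rw [Circle.norm_coe] at this
        linarith [(abs_le.1 this).1]
      exact absurd (pow_le_pow_left₀ h0 hcon m) (not_le.2 h2)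
    have h4 : ‖(y l : ℂ) - (x l : ℂ)‖ ^ 2 = 2 - 2 * ((y * x⁻¹ : AddChar A Circle) l : ℂ).re := by
      rw [AddChar.mul_apply, AddChar.inv_apply', Circle.coe_mul, Circle.coe_inv_eq_conj,
        ← Complex.normSq_eq_norm_sq, Complex.normSq_sub, Circle.normSq_coe, Circle.normSq_coe]
      ring
    have h5 : ‖(y l : ℂ) - (x l : ℂ)‖ ^ 2 ≤ κ ^ 2 := by
      rw [h4, hρ] at *
      nlinarith
    exact le_of_sq_le_sq h5 hκ.le
  · have h1 : ∏ l : Λ, ((1 + ((y * x⁻¹ : AddChar A Circle) (l : A) : ℂ).re) / 2) ^ m ≤ 1 :=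
      Finset.prod_le_one (fun i _ => (hfac i).1) (fun i _ => (hfac i).2)
    have : 0 < ρ ^ m := by positivity
    linarith

end OpenConv3d0876
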