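import Pool.Agent.Lib.MP_3d0876_an.Basic
import Pool.Agent.Lib.MP_3d0876_an.L1
import Pool.Agent.Lib.MP_3d0876_an.Abs

open scoped Classical

namespace OpenConv3d0876

section

variable {G : Type*} [Group G]

/-- two unimodular numbers separating two distinct group elements -/
lemma exists_pair {t u : G} (h : u ≠ t) : ∃ v v' : Circle, v ≠ v' ∧
    ∀ i j i' j' : ℤ, t ^ i * u ^ j = t ^ i' * u ^ j' → v ^ i * v' ^ j = v ^ i' * v' ^ j' := by
  let I : AddSubgroup (ℤ × ℤ) :=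
    { carrier := {p | t ^ p.1 * u ^ p.2 = 1}
      add_mem' := by
        intro p q hp hq
        simp only [Set.mem_setOf_eq] at hp hq ⊢
        have h1 : t ^ p.1 = u ^ (-p.2) := by rw [zpow_neg]; exact eq_inv_of_mul_eq_one_left hp
        have h2 : t ^ q.1 = u ^ (-q.2) := by rw [zpow_neg]; exact eq_inv_of_mul_eq_one_left hq
        rw [Prod.fst_add, Prod.snd_add, zpow_add, h1, h2, ← zpow_add, ← zpow_add]
        have : -p.2 + -q.2 + (p.2 + q.2) = 0 := by ring
        rw [this, zpow_zero]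
      zero_mem' := by simp
      neg_mem' := by
        intro p hp
        simp only [Set.mem_setOf_eq] at hp ⊢
        have h1 : t ^ p.1 = u ^ (-p.2) := by rw [zpow_neg]; exact eq_inv_of_mul_eq_one_left hp
        rw [Prod.fst_neg, Prod.snd_neg, zpow_neg, h1, zpow_neg, inv_inv, mul_inv_cancel] }
  have hne : (QuotientAddGroup.mk ((1, -1) : ℤ × ℤ) : (ℤ × ℤ) ⧸ I) ≠ 0 := by
    intro h0
    rw [QuotientAddGroup.eq_zero_iff] at h0
    have h1 : t ^ (1 : ℤ) * u ^ (-1 : ℤ) = 1 := h0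
    rw [zpow_one, zpow_neg, zpow_one] at h1
    exact h (mul_inv_eq_one.1 h1).symm
  obtain ⟨y, hy⟩ := exists_char_ne_one hne
  set v : Circle := y (QuotientAddGroup.mk ((1, 0) : ℤ × ℤ)) with hv
  set v' : Circle := y (QuotientAddGroup.mk ((0, 1) : ℤ × ℤ)) with hv'
  have hval : ∀ i j : ℤ, y (QuotientAddGroup.mk ((i, j) : ℤ × ℤ)) = v ^ i * v' ^ j := by
    intro i j
    have h1 : (QuotientAddGroup.mk ((i, j) : ℤ × ℤ) : (ℤ × ℤ) ⧸ I) =
        i • QuotientAddGroup.mk ((1, 0) : ℤ × ℤ) + j • QuotientAddGroup.mk ((0, 1) : ℤ × ℤ) := by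
      rw [← QuotientAddGroup.mk_zsmul, ← QuotientAddGroup.mk_zsmul, ← QuotientAddGroup.mk_add]
      simp
    rw [h1, AddChar.map_add_eq_mul, AddChar.map_zsmul_eq_zpow, AddChar.map_zsmul_eq_zpow]
  refine ⟨v, v', ?_, ?_⟩
  · intro hvv
    apply hy
    rw [hval, hvv]
    simp
  · intro i j i' j' hij
    have hI : (QuotientAddGroup.mk ((i - i', j - j') : ℤ × ℤ) : (ℤ × ℤ) ⧸ I) = 0 := by
      rw [QuotientAddGroup.eq_zero_iff]
      show t ^ (i - i') * u ^ (j - j') = 1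
      have e1 : t ^ (i - i') = t ^ (-i') * t ^ i := by rw [← zpow_add]; congr 1; ring
      have e2 : u ^ (j - j') = u ^ j * u ^ (-j') := by rw [← zpow_add]; congr 1
      calc t ^ (i - i') * u ^ (j - j') = t ^ (-i') * (t ^ i * u ^ j) * u ^ (-j') := by
            rw [e1, e2]; group
        _ = 1 := by rw [hij]; group
    have h1 := hval (i - i') (j - j')
    rw [hI, AddChar.map_zero_eq_one, zpow_sub, zpow_sub] at h1
    have h2 : v ^ i * v' ^ j * (v ^ i' * v' ^ j')⁻¹ = 1 := by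
      rw [mul_inv, mul_mul_mul_comm]; exact h1.symm
    exact mul_inv_eq_one.1 h2

/-- point masses as a monoid homomorphism -/
noncomputable def dlHom : G →* L1 G where
  toFun := dl
  map_one' := rfl
  map_mul' x y := (dl_mul_dl x y).symm

/-- The homomorphism `ℓ_1(ℤ) → ℓ_1(G)` given by powers of `t`. -/
noncomputable def psi (t : G) : L1 (Multiplicative ℤ) →L[ℂ] L1 G :=
  lift (dlHom.comp (zpowersHom G t)) (fun _ => (norm_dl _).le)

lemma psi_mul (t : G) (f g : L1 (Multiplicative ℤ)) : psi t (f * g) = psi t f * psi t g :=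
  lift_mul (dlHom.comp (zpowersHom G t)) (fun _ => (norm_dl _).le) f g

lemma psi_dl (t : G) (i : Multiplicative ℤ) : psi t (dl i) = dl (t ^ (Multiplicative.toAdd i)) :=
  lift_dl (dlHom.comp (zpowersHom G t)) (fun _ => (norm_dl _).le) i

/-- Evaluation of `ℓ_1(ℤ)` at a unimodular number. -/
noncomputable def evz (v : Circle) : L1 (Multiplicative ℤ) →L[ℂ] ℂ :=
  lift (Circle.coeHom.comp (zpowersHom Circle v)) (fun _ => (Circle.norm_coe _).le)

lemma evz_mul (v : Circle) (f g : L1 (Multiplicative ℤ)) : evz v (f * g) = evz v f * evz v g :=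
  lift_mul (Circle.coeHom.comp (zpowersHom Circle v)) (fun _ => (Circle.norm_coe _).le) f g

lemma evz_one (v : Circle) : evz v 1 = 1 :=
  lift_one (Circle.coeHom.comp (zpowersHom Circle v)) (fun _ => (Circle.norm_coe _).le)

lemma evz_pow (v : Circle) (f : L1 (Multiplicative ℤ)) (n : ℕ) : evz v (f ^ n) = evz v f ^ n := by
  induction n with
  | zero => rw [pow_zero, pow_zero, evz_one]
  | succ n ih => rw [pow_succ, pow_succ, evz_mul, ih]

lemma evz_dl (v : Circle) (i : Multiplicative ℤ) :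
    evz v (dl i) = ((v ^ (Multiplicative.toAdd i) : Circle) : ℂ) :=
  lift_dl (Circle.coeHom.comp (zpowersHom Circle v)) (fun _ => (Circle.norm_coe _).le) i

lemma conj_psi (x t : G) (q : L1 (Multiplicative ℤ)) :
    dl x * psi t q * dl x⁻¹ = psi (x * t * x⁻¹) q := by
  have : ((mulL : L1 G →L[ℂ] L1 G →L[ℂ] L1 G).flip (dl x⁻¹)).comp ((mulL (dl x)).comp (psi t)) =
      psi (x * t * x⁻¹) := by
    refine l1_ext fun i => ?_
    rw [ContinuousLinearMap.comp_apply, ContinuousLinearMap.comp_apply,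
      ContinuousLinearMap.flip_apply, psi_dl, psi_dl, mulL_dl_dl, mulL_dl_dl, conj_zpow]
  exact congrArg (fun φ : L1 (Multiplicative ℤ) →L[ℂ] L1 G => φ q) this

lemma Phi_mul {t u : G} {v v' : Circle} (φ : G → ℂ) (hφ1 : ∀ x, ‖φ x‖ ≤ 1)
    (hφ : ∀ i j : ℤ, φ (t ^ i * u ^ j) = ((v ^ i * v' ^ j : Circle) : ℂ))
    (p q : L1 (Multiplicative ℤ)) :
    lift φ hφ1 (psi t p * psi u q) = evz v p * evz v' q := by
  have e1 : ∀ i : Multiplicative ℤ,
      lift φ hφ1 (psi t (dl i) * psi u q) = evz v (dl i) * evz v' q := by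
    intro i
    have : (lift φ hφ1).comp ((mulL (psi t (dl i))).comp (psi u)) =
        (ContinuousLinearMap.mul ℂ ℂ (evz v (dl i))).comp (evz v') := by
      refine l1_ext fun j => ?_
      rw [ContinuousLinearMap.comp_apply, ContinuousLinearMap.comp_apply,
        ContinuousLinearMap.comp_apply, psi_dl, psi_dl, mulL_dl_dl, lift_dl, hφ,
        ContinuousLinearMap.mul_apply', evz_dl, evz_dl, Circle.coe_mul]
    exact congrArg (fun f : L1 (Multiplicative ℤ) →L[ℂ] ℂ => f q) this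
  have : ((lift φ hφ1).comp ((mulL : L1 G →L[ℂ] L1 G →L[ℂ] L1 G).flip (psi u q))).comp (psi t) =
      ((ContinuousLinearMap.mul ℂ ℂ).flip (evz v' q)).comp (evz v) := by
    refine l1_ext fun i => ?_
    rw [ContinuousLinearMap.comp_apply, ContinuousLinearMap.comp_apply,
      ContinuousLinearMap.comp_apply, ContinuousLinearMap.flip_apply,
      ContinuousLinearMap.flip_apply]
    exact e1 i
  exact congrArg (fun f : L1 (Multiplicative ℤ) →L[ℂ] ℂ => f p) this

end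

section zero_divisors

/-- the cosine -/
noncomputable def cz (s : Circle) : L1 (Multiplicative ℤ) :=
  (1 / 2 : ℂ) • (((s⁻¹ : Circle) : ℂ) • dl (Multiplicative.ofAdd (1 : ℤ)) +
    (s : ℂ) • dl (Multiplicative.ofAdd (-1 : ℤ)))

lemma cz_sq (s : Circle) : cz s * cz s = (1 / 4 : ℂ) •
    (((s⁻¹ : Circle) : ℂ) ^ 2 • dl (Multiplicative.ofAdd (2 : ℤ)) +
    (s : ℂ) ^ 2 • dl (Multiplicative.ofAdd (-2 : ℤ)) + (2 : ℂ) • 1) := by
  have h1 : (dl (Multiplicative.ofAdd (1 : ℤ)) : L1 (Multiplicative ℤ)) *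
      dl (Multiplicative.ofAdd (1 : ℤ)) = dl (Multiplicative.ofAdd (2 : ℤ)) := by
    rw [dl_mul_dl]; rfl
  have h2 : (dl (Multiplicative.ofAdd (-1 : ℤ)) : L1 (Multiplicative ℤ)) *
      dl (Multiplicative.ofAdd (-1 : ℤ)) = dl (Multiplicative.ofAdd (-2 : ℤ)) := by
    rw [dl_mul_dl]; rfl
  have h3 : (dl (Multiplicative.ofAdd (1 : ℤ)) : L1 (Multiplicative ℤ)) *
      dl (Multiplicative.ofAdd (-1 : ℤ)) = 1 := by
    rw [dl_mul_dl]; rfl
  have h4 : (dl (Multiplicative.ofAdd (-1 : ℤ)) : L1 (Multiplicative ℤ)) *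
      dl (Multiplicative.ofAdd (1 : ℤ)) = 1 := by
    rw [dl_mul_dl]; rfl
  have hs : ((s⁻¹ : Circle) : ℂ) * (s : ℂ) = 1 := by
    rw [← Circle.coe_mul, inv_mul_cancel, Circle.coe_one]
  unfold cz
  rw [smul_mul_smul_comm, add_mul, mul_add, mul_add, smul_mul_smul_comm, smul_mul_smul_comm,
    smul_mul_smul_comm, smul_mul_smul_comm, h1, h2, h3, h4, hs, mul_comm (s : ℂ), hs, two_smul]
  rw [← pow_two, ← pow_two]
  module

lemma norm_wz (s : Circle) : ‖1 - cz s * cz s‖ ≤ 1 := by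
  have h1 : (1 : L1 (Multiplicative ℤ)) - cz s * cz s = (1 / 2 : ℂ) • (1 : L1 (Multiplicative ℤ)) -
      (1 / 4 : ℂ) • (((s⁻¹ : Circle) : ℂ) ^ 2 • dl (Multiplicative.ofAdd (2 : ℤ)) +
      (s : ℂ) ^ 2 • dl (Multiplicative.ofAdd (-2 : ℤ))) := by
    rw [cz_sq]
    module
  have hone : ‖(1 : L1 (Multiplicative ℤ))‖ = 1 := norm_dl _
  rw [h1]
  refine (norm_sub_le _ _).trans ?_
  rw [norm_smul, norm_smul, hone]
  have h2 : ‖(((s⁻¹ : Circle) : ℂ) ^ 2 • dl (Multiplicative.ofAdd (2 : ℤ)) +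
      (s : ℂ) ^ 2 • dl (Multiplicative.ofAdd (-2 : ℤ)) : L1 (Multiplicative ℤ))‖ ≤ 2 := by
    refine (norm_add_le _ _).trans ?_
    rw [norm_smul, norm_smul, norm_dl, norm_dl, norm_pow, norm_pow, Circle.norm_coe,
      Circle.norm_coe]
    norm_num
  have h3 : ‖(1 / 2 : ℂ)‖ = 1 / 2 := by norm_num
  have h4 : ‖(1 / 4 : ℂ)‖ = 1 / 4 := by norm_num
  rw [h3, h4]
  linarith

/-- `|cos|` -/
noncomputable def rz (s : Circle) : L1 (Multiplicative ℤ) := 1 - sq (1 - cz s * cz s)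

lemma rz_sq (s : Circle) : rz s * rz s = cz s * cz s := by
  unfold rz
  rw [one_sub_sq_mul (norm_wz s), sub_sub_cancel]

lemma comm_cz_rz (s : Circle) : cz s * rz s = rz s * cz s := by
  have h1 : Commute (cz s) (1 - cz s * cz s) :=
    (Commute.one_right _).sub_right ((Commute.refl _).mul_right (Commute.refl _))
  have h2 := commute_sq (norm_wz s) h1
  exact ((Commute.one_right _).sub_right h2).eq

lemma az_mul_bz (s : Circle) : (rz s + cz s) * (rz s - cz s) = 0 := by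
  rw [add_mul, mul_sub, mul_sub, comm_cz_rz, rz_sq]
  abel

lemma evz_cz (v s : Circle) : evz v (cz s) = (((s⁻¹ * v : Circle) : ℂ).re : ℂ) := by
  unfold cz
  rw [map_smul, map_add, map_smul, map_smul, evz_dl, evz_dl]
  simp only [toAdd_ofAdd, zpow_one, zpow_neg, smul_eq_mul]
  have : ((v⁻¹ : Circle) : ℂ) * (s : ℂ) = (starRingEnd ℂ) ((s⁻¹ * v : Circle) : ℂ) := by
    rw [← Circle.coe_inv_eq_conj, ← Circle.coe_mul, mul_inv, inv_inv, mul_comm]
  rw [mul_comm (s : ℂ), this, ← Circle.coe_mul, Complex.add_conj]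
  push_cast
  ring

lemma evz_rz (v s : Circle) : ∃ r : ℝ, 0 ≤ r ∧ evz v (rz s) = (r : ℂ) := by
  have hw : evz v (1 - cz s * cz s) = ((1 - ((s⁻¹ * v : Circle) : ℂ).re ^ 2 : ℝ) : ℂ) := by
    rw [map_sub, evz_one, evz_mul, evz_cz]
    push_cast
    ring
  set ω : ℝ := 1 - ((s⁻¹ * v : Circle) : ℂ).re ^ 2 with hω
  have hω0 : 0 ≤ ω := by
    have := Complex.abs_re_le_norm ((s⁻¹ * v : Circle) : ℂ)
    rw [Circle.norm_coe] at this
    have h2 := abs_le.1 this
    rw [hω]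
    nlinarith
  have hω1 : ω ≤ 1 := by rw [hω]; nlinarith [sq_nonneg ((s⁻¹ * v : Circle) : ℂ).re]
  have hs : Summable fun n => ((sc n : ℝ) : ℂ) • (1 - cz s * cz s) ^ (n + 1) :=
    (summable_norm_sq (norm_wz s)).of_norm
  have hsum : evz v (sq (1 - cz s * cz s)) = ((∑' n, sc n * ω ^ (n + 1) : ℝ) : ℂ) := by
    unfold sq
    rw [(evz v).map_tsum hs, Complex.ofReal_tsum]
    refine tsum_congr fun n => ?_
    rw [map_smul, evz_pow, hw]
    push_cast
    rfl
  have hle : ∑' n, sc n * ω ^ (n + 1) ≤ 1 := by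
    refine le_trans (Summable.tsum_le_tsum (fun n => ?_) ?_ summable_sc) tsum_sc_le
    · exact mul_le_of_le_one_right (sc_nonneg n) (pow_le_one₀ hω0 hω1)
    · refine Summable.of_nonneg_of_le (fun n => mul_nonneg (sc_nonneg n) (by positivity))
        (fun n => ?_) summable_sc
      exact mul_le_of_le_one_right (sc_nonneg n) (pow_le_one₀ hω0 hω1)
  refine ⟨1 - ∑' n, sc n * ω ^ (n + 1), by linarith, ?_⟩
  unfold rz
  rw [map_sub, evz_one, hsum]
  push_cast
  rfl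

end zero_divisors

/-- a unimodular number separating two given ones -/
lemma exists_sep {v v' : Circle} (h : v ≠ v') :
    ∃ s : Circle, 0 < ((s⁻¹ * v : Circle) : ℂ).re ∧ ((s⁻¹ * v' : Circle) : ℂ).re < 0 := by
  have hne : (v : ℂ) - v' ≠ 0 := by
    intro h0
    exact h (Circle.ext (sub_eq_zero.1 h0))
  have hn : 0 < ‖(v : ℂ) - v'‖ := norm_pos_iff.2 hne
  let s : Circle := ⟨((v : ℂ) - v') / ‖(v : ℂ) - v'‖, by
    show _ ∈ Metric.sphere (0 : ℂ) 1
    rw [mem_sphere_zero_iff_norm, norm_div, Complex.norm_real, norm_norm, div_self hn.ne']⟩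
  have hs : (s : ℂ) = ((v : ℂ) - v') / ‖(v : ℂ) - v'‖ := rfl
  have hcross : (((v : ℂ)) * (starRingEnd ℂ) (v' : ℂ)).re < 1 := by
    have h1 : Complex.normSq ((v : ℂ) - v') = 2 - 2 * (((v : ℂ)) * (starRingEnd ℂ) (v' : ℂ)).re := by
      rw [Complex.normSq_sub, Circle.normSq_coe, Circle.normSq_coe]; ring
    have h2 : 0 < Complex.normSq ((v : ℂ) - v') := Complex.normSq_pos.2 hne
    linarith
  have key : ∀ u : Circle, ((s⁻¹ * u : Circle) : ℂ).re =
      ((u : ℂ) * (starRingEnd ℂ) ((v : ℂ) - v')).re / ‖(v : ℂ) - v'‖ := by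
    intro u
    rw [Circle.coe_mul, Circle.coe_inv_eq_conj, hs, map_div₀, Complex.conj_ofReal, mul_comm,
      mul_div_assoc', Complex.div_ofReal_re]
  refine ⟨s, ?_, ?_⟩
  · rw [key]
    refine div_pos ?_ hn
    rw [map_sub, mul_sub, Complex.sub_re, Complex.mul_conj, Circle.normSq_coe]
    simp only [Complex.ofReal_one, Complex.one_re]
    linarith
  · rw [key]
    refine div_neg_of_neg_of_pos ?_ hn
    rw [map_sub, mul_sub, Complex.sub_re, Complex.mul_conj, Circle.normSq_coe]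
    have : ((v' : ℂ) * (starRingEnd ℂ) (v : ℂ)).re = ((v : ℂ) * (starRingEnd ℂ) (v' : ℂ)).re := by
      have h3 : (starRingEnd ℂ) ((v : ℂ) * (starRingEnd ℂ) (v' : ℂ)) =
          (v' : ℂ) * (starRingEnd ℂ) (v : ℂ) := by
        rw [map_mul, Complex.conj_conj, mul_comm]
      rw [← h3, Complex.conj_re]
    rw [this]
    simp only [Complex.ofReal_one, Complex.one_re]
    linarith

/-- **Part 1**: open convolution forces commutativity. -/
theorem comm_of_open {G : Type*} [Group G]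
    (hopen : IsOpenMap (fun p : L1 G × L1 G => p.1 * p.2)) (x t : G) : x * t = t * x := by
  by_contra hne
  have hu : x * t * x⁻¹ ≠ t := fun h => hne (mul_inv_eq_iff_eq_mul.1 h)
  obtain ⟨v, v', hvv, hrel⟩ := exists_pair hu
  obtain ⟨s, hs1, hs2⟩ := exists_sep hvv
  -- zero product
  have h0 : psi t (rz s + cz s) * psi t (rz s - cz s) = 0 := by
    rw [← psi_mul, az_mul_bz, map_zero]
  have h1 := mul_mul_eq_zero hopen h0 (dl x)
  have h2 : psi t (rz s + cz s) * psi (x * t * x⁻¹) (rz s - cz s) = 0 := by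
    rw [← conj_psi, ← mul_assoc, ← mul_assoc, h1, zero_mul]
  -- the functional
  let φ : G → ℂ := fun g => if h : ∃ p : ℤ × ℤ, t ^ p.1 * (x * t * x⁻¹) ^ p.2 = g then
    ((v ^ h.choose.1 * v' ^ h.choose.2 : Circle) : ℂ) else 0
  have hφ1 : ∀ g, ‖φ g‖ ≤ 1 := by
    intro g
    simp only [φ]
    split_ifs
    · exact (Circle.norm_coe _).le
    · simp
  have hφ : ∀ i j : ℤ, φ (t ^ i * (x * t * x⁻¹) ^ j) = ((v ^ i * v' ^ j : Circle) : ℂ) := by
    intro i j
    have hex : ∃ p : ℤ × ℤ, t ^ p.1 * (x * t * x⁻¹) ^ p.2 = t ^ i * (x * t * x⁻¹) ^ j :=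
      ⟨(i, j), rfl⟩
    simp only [φ]
    rw [dif_pos hex]
    exact congrArg _ (hrel _ _ _ _ hex.choose_spec)
  have h3 := Phi_mul φ hφ1 hφ (rz s + cz s) (rz s - cz s)
  rw [h2, map_zero, map_add, map_sub, evz_cz, evz_cz] at h3
  obtain ⟨r, hr, hr'⟩ := evz_rz v s
  obtain ⟨r2, hr2, hr2'⟩ := evz_rz v' s
  rw [hr', hr2'] at h3
  have h4 : (r + ((s⁻¹ * v : Circle) : ℂ).re) * (r2 - ((s⁻¹ * v' : Circle) : ℂ).re) = 0 := by
    exact_mod_cast h3.symm
  have h5 : 0 < (r + ((s⁻¹ * v : Circle) : ℂ).re) * (r2 - ((s⁻¹ * v' : Circle) : ℂ).re) :=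
    mul_pos (by linarith) (by linarith)
  linarith

end OpenConv3d0876
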