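import Pool.Agent.Lib.MP_3d0876_an.Seq
import Pool.Agent.Lib.MP_3d0876_an.Part1

open Finset Complex
open scoped Classical

namespace OpenConv3d0876

section

variable {G : Type*} [CommGroup G]

/-- A character of `Additive G` as a homomorphism on `G`. -/
noncomputable def chr (y : AddChar (Additive G) Circle) : G →* ℂ :=
  Circle.coeHom.comp
    { toFun := fun x => y (Additive.ofMul x)
      map_one' := y.map_zero_eq_one
      map_mul' := fun a b => y.map_add_eq_mul (Additive.ofMul a) (Additive.ofMul b) }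

lemma norm_chr (y : AddChar (Additive G) Circle) (x : G) : ‖chr y x‖ ≤ 1 :=
  (Circle.norm_coe _).le

/-- Evaluation of `ℓ_1(G)` at a character. -/
noncomputable def evL (y : AddChar (Additive G) Circle) : L1 G →L[ℂ] ℂ := lift (chr y) (norm_chr y)

lemma evL_mul (y : AddChar (Additive G) Circle) (f g : L1 G) : evL y (f * g) = evL y f * evL y g :=
  lift_mul (chr y) (norm_chr y) f g

lemma evL_dl (y : AddChar (Additive G) Circle) (x : Additive G) :
    evL y (dl x.toMul) = (y x : ℂ) :=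
  lift_dl (chr y) (norm_chr y) x.toMul

lemma norm_evL_le (y : AddChar (Additive G) Circle) (f : L1 G) : ‖evL y f‖ ≤ ‖f‖ := by
  refine ((evL y).le_opNorm f).trans ?_
  exact mul_le_of_le_one_left (norm_nonneg _) (norm_lift_le _ _)

/-- The embedding of finitely supported functions. -/
noncomputable def emb : (Additive G →₀ ℂ) →ₗ[ℂ] L1 G :=
  Finsupp.linearCombination ℂ (fun x : Additive G => (dl x.toMul : L1 G))

lemma emb_apply (a : Additive G →₀ ℂ) : emb a = ∑ x ∈ a.support, a x • (dl x.toMul : L1 G) := by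
  unfold emb
  rw [Finsupp.linearCombination_apply, Finsupp.sum]

lemma evL_emb (y : AddChar (Additive G) Circle) (a : Additive G →₀ ℂ) : evL y (emb a) = ev y a := by
  rw [emb_apply, map_sum]
  unfold ev
  rw [Finsupp.sum]
  refine Finset.sum_congr rfl fun x _ => ?_
  rw [map_smul, evL_dl, smul_eq_mul]

lemma norm_emb_le (a : Additive G →₀ ℂ) : ‖emb a‖ ≤ n1 a := by
  rw [emb_apply]
  unfold n1
  refine (norm_sum_le _ _).trans (Finset.sum_le_sum fun x _ => ?_)
  rw [norm_smul, norm_dl, mul_one]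

lemma exists_approx (f : L1 G) {κ : ℝ} (hκ : 0 < κ) :
    ∃ a : Additive G →₀ ℂ, n1 a ≤ ‖f‖ ∧ ‖f - emb a‖ ≤ κ := by
  have h := hasSum_dl f
  rw [HasSum, Metric.tendsto_nhds] at h
  obtain ⟨s, hs⟩ := (h κ hκ).exists
  refine ⟨∑ x ∈ s, Finsupp.single (Additive.ofMul x) (f x), ?_, ?_⟩
  · refine (n1_sum _ _).trans ?_
    simp_rw [n1_single]
    rw [l1_norm_eq]
    exact (l1_summable_norm f).sum_le_tsum s fun _ _ => norm_nonneg _
  · have : emb (∑ x ∈ s, Finsupp.single (Additive.ofMul x) (f x)) = ∑ x ∈ s, f x • (dl x : L1 G) := by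
      rw [map_sum]
      refine Finset.sum_congr rfl fun x _ => ?_
      unfold emb
      rw [Finsupp.linearCombination_single]
      rfl
    rw [this, norm_sub_rev, ← dist_eq_norm]
    exact hs.le

end

/-- **Part 2**: infinite abelian groups. -/
theorem not_open_comm {G : Type*} [CommGroup G] [Infinite G] :
    ¬ IsOpenMap (fun p : L1 G × L1 G => p.1 * p.2) := by
  intro hopen
  haveI : Infinite (Additive G) := inferInstanceAs (Infinite G)
  set g := gg (Additive G) with hgdef
  have hg : Dissoc g := dissoc_gg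
  obtain ⟨φ, hgood, hincr⟩ := exists_seq hg
  set u : ℕ → L1 G := fun n => emb (φ n) with hu
  have hd : ∀ n, dist (u n) (u (n + 1)) ≤ 500 * (1 / 4) ^ n := by
    intro n
    rw [dist_comm, dist_eq_norm, hu]
    simp only
    rw [← map_sub]
    refine (norm_emb_le _).trans ((hincr n).trans (le_of_eq ?_))
    unfold rr
    rw [one_div_pow]
    ring
  have hcauchy : CauchySeq u := cauchySeq_of_le_geometric (1 / 4) 500 (by norm_num) hd
  obtain ⟨f, hf⟩ := cauchySeq_tendsto_of_complete hcauchy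
  have hdist : ∀ n, ‖u n - f‖ ≤ 2000 / 3 * (1 / 4) ^ n := by
    intro n
    have := dist_le_of_le_geometric_of_tendsto (1 / 4) 500 (by norm_num) hd hf n
    rw [dist_eq_norm] at this
    refine this.trans (le_of_eq ?_)
    ring
  have hun : ∀ n, ‖u n‖ ≤ 668 := fun n =>
    (norm_emb_le _).trans ((hgood n).bound.trans (bd_le n))
  have hfn : ‖f‖ ≤ 668 := le_of_tendsto' hf.norm hun
  -- openness at `(f, f)`
  have himg := hopen (Metric.ball f (1 / 8) ×ˢ Metric.ball f (1 / 8))
    (Metric.isOpen_ball.prod Metric.isOpen_ball)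
  have hmem : f * f ∈ (fun p : L1 G × L1 G => p.1 * p.2) ''
      (Metric.ball f (1 / 8) ×ˢ Metric.ball f (1 / 8)) :=
    ⟨(f, f), ⟨Metric.mem_ball_self (by norm_num), Metric.mem_ball_self (by norm_num)⟩, rfl⟩
  obtain ⟨δ0, hδ0, hball⟩ := Metric.isOpen_iff.1 himg _ hmem
  set δ : ℝ := δ0 / 2 with hδ
  have hδpos : 0 < δ := by rw [hδ]; positivity
  -- choice of n
  obtain ⟨n, hn1, hn2, hn3⟩ : ∃ n : ℕ, 2000 / 3 * (1 / 4 : ℝ) ^ n ≤ 1 / 8 ∧
      2000 / 3 * (1 / 4 : ℝ) ^ n * 1336 < δ0 / 2 ∧ 4 * (1 / 4) / δ ≤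
        100 * (668 + 1 / 4) / rr n ^ 2 := by
    have ht : Filter.Tendsto (fun n : ℕ => (1 / 4 : ℝ) ^ n) Filter.atTop (nhds 0) :=
      tendsto_pow_atTop_nhds_zero_of_lt_one (by norm_num) (by norm_num)
    have e1 := ht.eventually (gt_mem_nhds (show (0 : ℝ) < 1 / 8 / (2000 / 3) by norm_num))
    have e2 := ht.eventually (gt_mem_nhds (show (0 : ℝ) < δ0 / 2 / (2000 / 3 * 1336) by positivity))
    have e3 := ht.eventually (gt_mem_nhds (show (0 : ℝ) < δ / 4 by positivity))
    obtain ⟨n, h1, h2, h3⟩ := (e1.and (e2.and e3)).exists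
    refine ⟨n, ?_, ?_, ?_⟩
    · rw [lt_div_iff₀ (by norm_num)] at h1; linarith
    · rw [lt_div_iff₀ (by norm_num)] at h2; linarith
    · unfold rr
      have hp : (0 : ℝ) < (1 / 4) ^ n := by positivity
      have hp1 : (1 / 4 : ℝ) ^ n ≤ 1 := pow_le_one₀ (by norm_num) (by norm_num)
      have h4 : (400 : ℝ) / 4 ^ n = 400 * (1 / 4) ^ n := by rw [one_div_pow]; ring
      rw [h4, div_le_div_iff₀ hδpos (by positivity)]
      nlinarith
  obtain ⟨η, hη, hnb⟩ := (hgood n).nb
  have hB : n1 (φ n) ≤ 668 := (hgood n).bound.trans (bd_le n)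
  obtain ⟨N, hN, κ, hκ, hfin⟩ := final_bad hg (φ := φ n) (ε := 1 / 4) (B := 668) (δ := δ) (η := η)
    (by norm_num) hB hδpos hη
  apply hnb
  refine Bad.mono ?_ hn3 le_rfl
  -- the target
  set h : L1 G := u n * u n + (δ : ℂ) • emb (fN g N) with hh
  have hhball : h ∈ Metric.ball (f * f) δ0 := by
    rw [Metric.mem_ball, dist_eq_norm]
    have e1 : h - f * f = ((u n - f) * u n + f * (u n - f)) + (δ : ℂ) • emb (fN g N) := by
      rw [hh, sub_mul, mul_sub]; abel
    rw [e1]
    refine (norm_add_le _ _).trans_lt ?_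
    have e2 : ‖(δ : ℂ) • emb (fN g N)‖ ≤ δ := by
      rw [norm_smul, Complex.norm_real, Real.norm_eq_abs, abs_of_pos hδpos]
      exact mul_le_of_le_one_right hδpos.le ((norm_emb_le _).trans (n1_fN g N))
    have e3 : ‖(u n - f) * u n + f * (u n - f)‖ ≤ 2000 / 3 * (1 / 4) ^ n * 1336 := by
      refine (norm_add_le _ _).trans ?_
      have a1 : ‖(u n - f) * u n‖ ≤ 2000 / 3 * (1 / 4) ^ n * 668 :=
        (norm_mul_le _ _).trans (mul_le_mul (hdist n) (hun n) (norm_nonneg _) (by positivity))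
      have a2 : ‖f * (u n - f)‖ ≤ 668 * (2000 / 3 * (1 / 4) ^ n) :=
        (norm_mul_le _ _).trans (mul_le_mul hfn (hdist n) (norm_nonneg _) (by norm_num))
      linarith
    rw [hδ] at e2 ⊢
    linarith
  obtain ⟨p, ⟨hp1, hp2⟩, hph⟩ := hball hhball
  have hp1' : ‖p.1 - u n‖ ≤ 1 / 4 := by
    rw [Metric.mem_ball, dist_eq_norm] at hp1
    have : p.1 - u n = (p.1 - f) - (u n - f) := by abel
    rw [this]
    refine (norm_sub_le _ _).trans ?_
    have := hdist n
    linarith
  have hp2' : ‖p.2 - u n‖ ≤ 1 / 4 := by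
    rw [Metric.mem_ball, dist_eq_norm] at hp2
    have : p.2 - u n = (p.2 - f) - (u n - f) := by abel
    rw [this]
    refine (norm_sub_le _ _).trans ?_
    have := hdist n
    linarith
  obtain ⟨a, ha1, ha2⟩ := exists_approx (p.1 - u n) (κ := κ / 1400) (by positivity)
  obtain ⟨b, hb1, hb2⟩ := exists_approx (p.2 - u n) (κ := κ / 1400) (by positivity)
  have ha : n1 a ≤ 1 / 4 := ha1.trans hp1'
  have hb : n1 b ≤ 1 / 4 := hb1.trans hp2'
  refine hfin a b ha hb fun y => ?_
  have f1 : evL y p.1 * evL y p.2 = ev y (φ n) ^ 2 + (δ : ℂ) * ev y (fN g N) := by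
    rw [← evL_mul]
    have : p.1 * p.2 = h := hph
    rw [this, hh, map_add, evL_mul, map_smul, evL_emb, evL_emb, smul_eq_mul]
    ring
  rw [← f1]
  have d1 : ‖(ev y (φ n) + ev y a) - evL y p.1‖ ≤ κ / 1400 := by
    have : (ev y (φ n) + ev y a) - evL y p.1 = - evL y ((p.1 - u n) - emb a) := by
      rw [map_sub, map_sub, evL_emb, evL_emb]
      ring
    rw [this, norm_neg]
    exact (norm_evL_le _ _).trans ha2
  have d2 : ‖(ev y (φ n) + ev y b) - evL y p.2‖ ≤ κ / 1400 := by
    have : (ev y (φ n) + ev y b) - evL y p.2 = - evL y ((p.2 - u n) - emb b) := by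
      rw [map_sub, map_sub, evL_emb, evL_emb]
      ring
    rw [this, norm_neg]
    exact (norm_evL_le _ _).trans hb2
  have c1 : ‖ev y (φ n) + ev y a‖ ≤ 669 := by
    refine (norm_add_le _ _).trans ?_
    have := (norm_ev_le y (φ n)).trans hB
    have := (norm_ev_le y a).trans ha
    linarith
  have c2 : ‖evL y p.2‖ ≤ 669 := by
    refine (norm_evL_le _ _).trans ?_
    have : p.2 = (p.2 - u n) + u n := by abel
    rw [this]
    refine (norm_add_le _ _).trans ?_
    have := hun n
    linarith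
  have e : (ev y (φ n) + ev y a) * (ev y (φ n) + ev y b) - evL y p.1 * evL y p.2 =
      (ev y (φ n) + ev y a) * ((ev y (φ n) + ev y b) - evL y p.2) +
      ((ev y (φ n) + ev y a) - evL y p.1) * evL y p.2 := by ring
  rw [e]
  refine (norm_add_le _ _).trans ?_
  rw [norm_mul, norm_mul]
  have g1 := mul_le_mul c1 d2 (norm_nonneg _) (by norm_num : (0 : ℝ) ≤ 669)
  have g2 := mul_le_mul d1 c2 (norm_nonneg _) (by positivity : (0 : ℝ) ≤ κ / 1400)
  linarith

/-- The main theorem, for the concrete multiplication. -/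
theorem not_open {G : Type*} [Group G] [Infinite G] :
    ¬ IsOpenMap (fun p : L1 G × L1 G => p.1 * p.2) := by
  intro hopen
  letI : CommGroup G := { (inferInstance : Group G) with mul_comm := comm_of_open hopen }
  exact not_open_comm hopen

end OpenConv3d0876
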