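import Pool.Agent.Lib.MP_3d0876_an.Fin
import Pool.Agent.Lib.MP_3d0876_an.Dissoc

open Finset Complex
open scoped Classical

namespace OpenConv3d0876

variable {A : Type*} [AddCommGroup A]

/-- step sizes -/
noncomputable def rr (n : ℕ) : ℝ := 400 / 4 ^ n

/-- norm bounds -/
noncomputable def bd (n : ℕ) : ℝ := 1 + 2000 / 3 * (1 - 1 / 4 ^ n)

lemma rr_pos (n : ℕ) : 0 < rr n := by unfold rr; positivity

lemma bd_le (n : ℕ) : bd n ≤ 668 := by
  unfold bd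
  have : (0 : ℝ) < 1 / 4 ^ n := by positivity
  linarith

lemma bd_succ (n : ℕ) : bd n + 5 / 4 * rr n = bd (n + 1) := by
  unfold bd rr
  rw [pow_succ]
  field_simp
  ring

/-- the inductive property -/
structure Good (n : ℕ) (φ : A →₀ ℂ) : Prop where
  real : ∀ y : AddChar A Circle, (ev y φ).im = 0
  bound : n1 φ ≤ bd n
  nb : ∃ η : ℝ, 0 < η ∧ ¬ Bad (1 / 4) (100 * (668 + 1 / 4) / rr n ^ 2) η φ

lemma good_zero : Good 0 (Finsupp.single (0 : A) (1 : ℂ)) where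
  real y := by rw [ev_single]; simp
  bound := by rw [n1_single]; simp [bd]
  nb := by
    refine ⟨1 / 10, by norm_num, ?_⟩
    rintro ⟨a, b, ha, hb, h⟩
    have key : ∀ u : A →₀ ℂ, n1 u ≤ 1 / 4 →
        ¬ ‖ev (1 : AddChar A Circle) (Finsupp.single (0 : A) (1 : ℂ)) + ev 1 u‖ ≤
          1 / 10 + 100 * (668 + 1 / 4) / rr 0 ^ 2 *
            ‖ev (1 : AddChar A Circle) (Finsupp.single (0 : A) (1 : ℂ))‖ ^ 2 := by
      intro u hu hcon
      have e1 : ev (1 : AddChar A Circle) (Finsupp.single (0 : A) (1 : ℂ)) = 1 := by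
        rw [ev_single]; simp
      rw [e1, norm_one] at hcon
      have h1 : ‖ev 1 u‖ ≤ 1 / 4 := (norm_ev_le _ _).trans hu
      have h2 : 1 ≤ ‖(1 : ℂ) + ev 1 u‖ + ‖ev 1 u‖ := by
        calc (1 : ℝ) = ‖(1 : ℂ)‖ := norm_one.symm
          _ = ‖((1 : ℂ) + ev 1 u) - ev 1 u‖ := by rw [add_sub_cancel_right]
          _ ≤ _ := norm_sub_le _ _
      have h3 : rr 0 = 400 := by unfold rr; norm_num
      rw [h3] at hcon
      norm_num at hcon
      linarith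
    rcases h 1 with h | h
    · exact key a ha h
    · exact key b hb h

lemma ev_incr_real {g : ℕ → A} {φ : A →₀ ℂ} (hφ : ∀ y : AddChar A Circle, (ev y φ).im = 0)
    (r : ℝ) (N : ℕ) (y : AddChar A Circle) :
    (ev y (φ + (r : ℂ) • (fN g N + Finsupp.single 0 (-(1 / 4))))).im = 0 := by
  rw [ev_add, ev_smul, ev_add, ev_fN, ev_single, AddChar.map_zero_eq_one, Circle.coe_one,
    Complex.add_im, hφ, mul_one, zero_add]
  have : (-(1 / 4) : ℂ) = ((-(1 / 4) : ℝ) : ℂ) := by push_cast; ring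
  rw [this, ← Complex.ofReal_add, ← Complex.ofReal_mul, Complex.ofReal_im]

lemma n1_incr {g : ℕ → A} {r : ℝ} (hr : 0 ≤ r) (N : ℕ) :
    n1 ((r : ℂ) • (fN g N + Finsupp.single 0 (-(1 / 4)))) ≤ 5 / 4 * r := by
  refine (n1_smul _ _).trans ?_
  rw [Complex.norm_real, Real.norm_eq_abs, abs_of_nonneg hr, mul_comm]
  refine mul_le_mul_of_nonneg_right ?_ hr
  refine (n1_add _ _).trans ?_
  rw [n1_single, norm_neg]
  have := n1_fN g N
  have h4 : ‖(1 / 4 : ℂ)‖ = 1 / 4 := by norm_num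
  rw [h4]
  linarith

lemma good_step {g : ℕ → A} (hg : Dissoc g) {n : ℕ} {φ : A →₀ ℂ} (h : Good n φ) :
    ∃ φ' : A →₀ ℂ, Good (n + 1) φ' ∧ n1 (φ' - φ) ≤ 5 / 4 * rr n := by
  obtain ⟨η, hη, hnb⟩ := h.nb
  obtain ⟨N, hN, η', hη', hnb'⟩ := step hg h.real (ε := 1 / 4) (B := 668) (r := rr n)
    (η := η) (C' := 100 * (668 + 1 / 4) / rr (n + 1) ^ 2) (by norm_num) (h.bound.trans (bd_le n))
    (rr_pos n) hη hnb (by have := rr_pos (n + 1); positivity)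
  refine ⟨φ + (rr n : ℂ) • (fN g N + Finsupp.single 0 (-(1 / 4))), ⟨ev_incr_real h.real _ _, ?_,
    η', hη', hnb'⟩, ?_⟩
  · rw [← bd_succ]
    exact (n1_add _ _).trans (add_le_add h.bound (n1_incr (rr_pos n).le N))
  · rw [add_sub_cancel_left]
    exact n1_incr (rr_pos n).le N

theorem exists_seq {g : ℕ → A} (hg : Dissoc g) :
    ∃ φ : ℕ → (A →₀ ℂ), (∀ n, Good n (φ n)) ∧ ∀ n, n1 (φ (n + 1) - φ n) ≤ 5 / 4 * rr n := by
  have hstep : ∀ (n : ℕ) (φ : {φ : A →₀ ℂ // Good n φ}), ∃ φ' : {φ : A →₀ ℂ // Good (n + 1) φ},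
      n1 (φ'.1 - φ.1) ≤ 5 / 4 * rr n := by
    intro n φ
    obtain ⟨φ', h1, h2⟩ := good_step hg φ.2
    exact ⟨⟨φ', h1⟩, h2⟩
  choose next hnext using hstep
  let F : ∀ n, {φ : A →₀ ℂ // Good n φ} := fun n =>
    Nat.rec (motive := fun n => {φ : A →₀ ℂ // Good n φ}) ⟨_, good_zero⟩ next n
  exact ⟨fun n => (F n).1, fun n => (F n).2, fun n => hnext n (F n)⟩

end OpenConv3d0876
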