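import Pool.Agent.Lib.MP_3d0876_an.Basic

open Finset Complex
open scoped Classical

namespace OpenConv3d0876

variable {A : Type*} [AddCommGroup A]

/-- Words: choices of `0`, `g j` or `- g j` for finitely many `j`. -/
def IsWord (g : ℕ → A) (w : ℕ →₀ A) : Prop := ∀ j, w j = 0 ∨ w j = g j ∨ w j = - g j

/-- The value of a word. -/
noncomputable def val : (ℕ →₀ A) →+ A := Finsupp.liftAddHom (fun _ => AddMonoidHom.id A)

lemma val_single (j : ℕ) (a : A) : val (Finsupp.single j a) = a := by
  simp [val]

/-- Dissociate sequences. -/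
structure Dissoc (g : ℕ → A) : Prop where
  ne_zero : ∀ j, g j ≠ 0
  inj : ∀ w w', IsWord g w → IsWord g w' → val w = val w' → w = w'

lemma IsWord.zero (g : ℕ → A) : IsWord g 0 := fun _ => Or.inl rfl

lemma IsWord.neg {g : ℕ → A} {w : ℕ →₀ A} (h : IsWord g w) : IsWord g (-w) := by
  intro j
  rcases h j with h | h | h
  · left; simp [h]
  · right; right; simp [h]
  · right; left; simp [h]

lemma IsWord.add {g : ℕ → A} {w w' : ℕ →₀ A} (h : IsWord g w) (h' : IsWord g w')
    (hd : Disjoint w.support w'.support) : IsWord g (w + w') := by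
  intro j
  by_cases hj : j ∈ w.support
  · have : w' j = 0 := Finsupp.notMem_support_iff.1 (Finset.disjoint_left.1 hd hj)
    rw [Finsupp.add_apply, this, add_zero]
    exact h j
  · have : w j = 0 := Finsupp.notMem_support_iff.1 hj
    rw [Finsupp.add_apply, this, zero_add]
    exact h' j

lemma IsWord.single {g : ℕ → A} (j : ℕ) {a : A} (ha : a = g j ∨ a = - g j) :
    IsWord g (Finsupp.single j a) := by
  intro i
  by_cases hij : j = i
  · subst hij
    right
    simpa using ha
  · left
    simp [hij]

lemma IsWord.filter {g : ℕ → A} {w : ℕ →₀ A} (h : IsWord g w) (p : ℕ → Prop)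
    [DecidablePred p] :
    IsWord g (w.filter p) := by
  intro j
  by_cases hj : p j
  · rw [Finsupp.filter_apply_pos _ _ hj]; exact h j
  · left; rw [Finsupp.filter_apply_neg _ _ hj]

/-- The Fourier coefficients of the Riesz product. -/
noncomputable def mm (g : ℕ → A) (I : Finset ℕ) (z : ℝ) (χ : A) : ℝ :=
  if h : ∃ w, IsWord g w ∧ w.support ⊆ I ∧ val w = χ then z ^ (h.choose.support.card) else 0

lemma mm_val {g : ℕ → A} (hg : Dissoc g) {I : Finset ℕ} (z : ℝ) {w : ℕ →₀ A} (hw : IsWord g w)
    (hI : w.support ⊆ I) : mm g I z (val w) = z ^ w.support.card := by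
  have h : ∃ w', IsWord g w' ∧ w'.support ⊆ I ∧ val w' = val w := ⟨w, hw, hI, rfl⟩
  unfold mm
  rw [dif_pos h, hg.inj _ _ h.choose_spec.1 hw h.choose_spec.2.2]

lemma mm_eq_zero {g : ℕ → A} {I : Finset ℕ} (z : ℝ) {χ : A}
    (h : ∀ w, IsWord g w → w.support ⊆ I → val w ≠ χ) : mm g I z χ = 0 := by
  unfold mm
  rw [dif_neg]
  rintro ⟨w, h1, h2, h3⟩
  exact h w h1 h2 h3

lemma mm_zero {g : ℕ → A} (hg : Dissoc g) (I : Finset ℕ) (z : ℝ) : mm g I z 0 = 1 := by
  have := mm_val hg (I := I) z (IsWord.zero g) (by simp)
  simpa using this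

lemma mm_neg {g : ℕ → A} (hg : Dissoc g) (I : Finset ℕ) (z : ℝ) (χ : A) :
    mm g I z (-χ) = mm g I z χ := by
  by_cases h : ∃ w, IsWord g w ∧ w.support ⊆ I ∧ val w = χ
  · obtain ⟨w, h1, h2, h3⟩ := h
    have h4 : val (-w) = -χ := by rw [map_neg, h3]
    rw [← h4, ← h3, mm_val hg z h1.neg (by rwa [Finsupp.support_neg]), mm_val hg z h1 h2,
      Finsupp.support_neg]
  · rw [mm_eq_zero z (χ := χ) (fun w h1 h2 h3 => h ⟨w, h1, h2, h3⟩), mm_eq_zero]
    intro w h1 h2 h3
    exact h ⟨-w, h1.neg, by rwa [Finsupp.support_neg], by rw [map_neg, h3, neg_neg]⟩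

lemma mm_nonneg {g : ℕ → A} (I : Finset ℕ) {z : ℝ} (hz : 0 ≤ z) (χ : A) : 0 ≤ mm g I z χ := by
  unfold mm
  split_ifs
  · positivity
  · exact le_rfl

lemma mm_le_one {g : ℕ → A} (I : Finset ℕ) {z : ℝ} (hz : 0 ≤ z) (hz1 : z ≤ 1) (χ : A) :
    mm g I z χ ≤ 1 := by
  unfold mm
  split_ifs
  · exact pow_le_one₀ hz hz1
  · exact zero_le_one

lemma mm_insert {g : ℕ → A} (hg : Dissoc g) {I : Finset ℕ} {j : ℕ} (hj : j ∉ I) (z : ℝ) (χ : A) :
    mm g (insert j I) z χ = mm g I z χ + z * ∑ s ∈ ({g j, - g j} : Finset A), mm g I z (χ + s) := by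
  -- a shifted word
  have key : ∀ s ∈ ({g j, - g j} : Finset A), ∀ w, IsWord g w → w.support ⊆ I → 
      IsWord g (w + Finsupp.single j (-s)) ∧ (w + Finsupp.single j (-s)).support ⊆ insert j I ∧
      (w + Finsupp.single j (-s)) j = -s ∧
      val (w + Finsupp.single j (-s)) = val w - s := by
    intro s hs w hw hwI
    have hs' : -s = g j ∨ -s = - g j := by
      simp only [Finset.mem_insert, Finset.mem_singleton] at hs
      rcases hs with h | h
      · right; rw [h]
      · left; rw [h, neg_neg]
    have hwj : w j = 0 := Finsupp.notMem_support_iff.1 (fun h => hj (hwI h))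
    refine ⟨hw.add (IsWord.single j hs') ?_, ?_, ?_, ?_⟩
    · rw [Finset.disjoint_right]
      intro i hi hi2
      have : i = j := by
        have := Finsupp.support_single_subset hi
        simpa using this
      subst this
      exact hj (hwI hi2)
    · refine Finsupp.support_add.trans (Finset.union_subset (hwI.trans (Finset.subset_insert _ _)) ?_)
      refine Finsupp.support_single_subset.trans ?_
      simp
    · simp [hwj]
    · rw [map_add, val_single]; abel
  have hsne : ∀ s ∈ ({g j, - g j} : Finset A), -s ≠ 0 := by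
    intro s hs
    simp only [Finset.mem_insert, Finset.mem_singleton] at hs
    rcases hs with h | h
    · rw [h]; exact neg_ne_zero.2 (hg.ne_zero j)
    · rw [h, neg_neg]; exact hg.ne_zero j
  by_cases h : ∃ w, IsWord g w ∧ w.support ⊆ insert j I ∧ val w = χ
  · obtain ⟨w, h1, h2, h3⟩ := h
    rw [← h3, mm_val hg z h1 h2]
    by_cases hwj : w j = 0
    · have hwI : w.support ⊆ I := by
        intro i hi
        have := h2 hi
        rw [Finset.mem_insert] at this
        rcases this with h | h
        · subst h; exact absurd hwj (Finsupp.mem_support_iff.1 hi)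
        · exact h
      rw [mm_val hg z h1 hwI, Finset.sum_eq_zero, mul_zero, add_zero]
      intro s hs
      refine mm_eq_zero z fun w' h1' h2' h3' => ?_
      obtain ⟨k1, k2, k3, k4⟩ := key s hs w' h1' h2'
      have : w' + Finsupp.single j (-s) = w := hg.inj _ _ k1 h1 (by rw [k4, h3']; abel)
      rw [this, hwj] at k3
      exact hsne s hs k3.symm
    · have hw2 := h1 j
      have hwj2 : w j = g j ∨ w j = - g j := by
        rcases hw2 with h | h | h
        · exact absurd h hwj
        · exact Or.inl h
        · exact Or.inr h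
      have hmem : - w j ∈ ({g j, - g j} : Finset A) := by
        simp only [Finset.mem_insert, Finset.mem_singleton]
        rcases hwj2 with h | h
        · right; rw [h]
        · left; rw [h, neg_neg]
      have herase : IsWord g (w.erase j) := by
        intro i
        by_cases hij : i = j
        · subst hij; left; simp
        · rw [Finsupp.erase_ne hij]; exact h1 i
      have herI : (w.erase j).support ⊆ I := by
        rw [Finsupp.support_erase]
        intro i hi
        rw [Finset.mem_erase] at hi
        have := h2 hi.2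
        rw [Finset.mem_insert] at this
        rcases this with h | h
        · exact absurd h hi.1
        · exact h
      have hval : val w = val (w.erase j) + w j := by
        conv_lhs => rw [← Finsupp.erase_add_single j w]
        rw [map_add, val_single]
      have hcard : w.support.card = (w.erase j).support.card + 1 := by
        rw [Finsupp.support_erase, Finset.card_erase_add_one (Finsupp.mem_support_iff.2 hwj)]
      have e1 : mm g I z (val w) = 0 := by
        refine mm_eq_zero z fun w' h1' h2' h3' => ?_
        have := hg.inj _ _ h1' h1 h3'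
        rw [this] at h2'
        exact hj (h2' (Finsupp.mem_support_iff.2 hwj))
      rw [e1, Finset.sum_eq_single_of_mem _ hmem]
      · rw [hval]
        have : val (w.erase j) + w j + - w j = val (w.erase j) := by abel
        rw [this, mm_val hg z herase herI, hcard, pow_succ]
        ring
      · intro s hs hne
        refine mm_eq_zero z fun w' h1' h2' h3' => ?_
        obtain ⟨k1, k2, k3, k4⟩ := key s hs w' h1' h2'
        have : w' + Finsupp.single j (-s) = w := hg.inj _ _ k1 h1 (by rw [k4, h3']; abel)
        rw [this] at k3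
        exact hne (by rw [k3, neg_neg])
  · have hno : ∀ w, IsWord g w → w.support ⊆ insert j I → val w ≠ χ :=
      fun w h1 h2 h3 => h ⟨w, h1, h2, h3⟩
    rw [mm_eq_zero z hno, mm_eq_zero z (fun w h1 h2 => hno w h1 (h2.trans (subset_insert _ _))),
      Finset.sum_eq_zero, mul_zero, add_zero]
    intro s hs
    refine mm_eq_zero z fun w' h1' h2' h3' => ?_
    obtain ⟨k1, k2, k3, k4⟩ := key s hs w' h1' h2'
    exact hno _ k1 k2 (by rw [k4, h3']; abel)

/-- The factor `1 + z ∑ s(y)` is a nonnegative real. -/
lemma kernel_nonneg (a : A) (y : AddChar A Circle) {z : ℝ} (hz : 0 ≤ z) (hz2 : z ≤ 1 / 2) :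
    ∃ c : ℝ, 0 ≤ c ∧ (1 : ℂ) + (z : ℂ) * ∑ s ∈ ({a, -a} : Finset A), (y s : ℂ) = (c : ℂ) := by
  have hre : ∀ u : Circle, -1 ≤ (u : ℂ).re := by
    intro u
    have := Complex.abs_re_le_norm (u : ℂ)
    rw [Circle.norm_coe] at this
    exact (abs_le.1 this).1
  by_cases h : a = -a
  · have h1 : ({a, -a} : Finset A) = {a} := by rw [← h]; simp
    rw [h1, Finset.sum_singleton]
    have h2 : (starRingEnd ℂ) (y a : ℂ) = (y a : ℂ) := by rw [← char_neg, ← h]
    obtain ⟨r, hr⟩ := Complex.conj_eq_iff_real.1 h2
    refine ⟨1 + z * r, ?_, ?_⟩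
    · have := hre (y a)
      rw [hr, Complex.ofReal_re] at this
      nlinarith
    · rw [hr]; push_cast; ring
  · rw [Finset.sum_pair h, char_neg]
    refine ⟨1 + z * (2 * (y a : ℂ).re), ?_, ?_⟩
    · have := hre (y a)
      nlinarith
    · rw [Complex.add_conj]; push_cast; ring

lemma isPos_mm {g : ℕ → A} (hg : Dissoc g) (I : Finset ℕ) {z : ℝ} (hz : 0 ≤ z) (hz2 : z ≤ 1 / 2) :
    IsPos (mm g I z) := by
  induction I using Finset.induction_on with
  | empty =>
    have : mm g ∅ z = fun χ : A => Set.indicator {0} (fun _ => (1 : ℝ)) χ := by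
      funext χ
      by_cases h : χ = 0
      · subst h
        rw [mm_zero hg]
        simp
      · rw [mm_eq_zero]
        · simp [h]
        · intro w _ h2 h3
          have : w = 0 := by
            rw [← Finsupp.support_eq_empty]
            exact Finset.subset_empty.1 h2
          rw [this] at h3
          exact h (by rw [← h3]; simp)
    rw [this]
    exact isPos_delta
  | insert j I hj ih =>
    intro P hP
    set P' : A →₀ ℂ := P + (z : ℂ) • ∑ s ∈ ({g j, - g j} : Finset A),
      P.mapDomain (fun χ => χ + s) with hP'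
    have hev : ∀ y, ev y P' = ev y P * (1 + (z : ℂ) * ∑ s ∈ ({g j, - g j} : Finset A), (y s : ℂ)) := by
      intro y
      have hadd : ∀ P Q : A →₀ ℂ, ev y (P + Q) = ev y P + ev y Q := fun P Q =>
        Finsupp.sum_add_index' (by simp) (by intros; ring)
      have hsum : ∀ T : Finset A, ev y (∑ s ∈ T, P.mapDomain (fun χ => χ + s)) =
          ∑ s ∈ T, ev y P * (y s : ℂ) := by
        intro T
        induction T using Finset.induction_on with
        | empty => simp [ev]
        | insert a T ha ih2 =>
          rw [Finset.sum_insert ha, hadd, ih2, Finset.sum_insert ha]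
          congr 1
          unfold ev
          rw [Finsupp.sum_mapDomain_index (by simp) (by intros; ring), Finsupp.sum_mul]
          refine Finsupp.sum_congr fun χ _ => ?_
          rw [AddChar.map_add_eq_mul, Circle.coe_mul]
          ring
      have hsm : ∀ (c : ℂ) (Q : A →₀ ℂ), ev y (c • Q) = c * ev y Q := by
        intro c Q
        unfold ev
        rw [Finsupp.sum_smul_index' (by simp), Finsupp.mul_sum]
        exact Finsupp.sum_congr fun χ _ => by rw [smul_eq_mul]; ring
      rw [hP', hadd, hsm, hsum, ← Finset.mul_sum]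
      ring
    have hEm : Em (mm g I z) P' = Em (mm g (insert j I) z) P := by
      have hadd : ∀ P Q : A →₀ ℂ, Em (mm g I z) (P + Q) = Em (mm g I z) P + Em (mm g I z) Q :=
        fun P Q => Finsupp.sum_add_index' (by simp) (by intros; ring)
      have hsum : ∀ T : Finset A, Em (mm g I z) (∑ s ∈ T, P.mapDomain (fun χ => χ + s)) =
          P.sum fun χ c => c * ∑ s ∈ T, (mm g I z (χ + s) : ℂ) := by
        intro T
        induction T using Finset.induction_on with
        | empty => simp [Em]
        | insert a T ha ih2 =>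
          rw [Finset.sum_insert ha, hadd, ih2]
          unfold Em
          rw [Finsupp.sum_mapDomain_index (by simp) (by intros; ring), ← Finsupp.sum_add]
          refine Finsupp.sum_congr fun χ _ => ?_
          rw [Finset.sum_insert ha]
          ring
      have hsm : ∀ (c : ℂ) (Q : A →₀ ℂ), Em (mm g I z) (c • Q) = c * Em (mm g I z) Q := by
        intro c Q
        unfold Em
        rw [Finsupp.sum_smul_index' (by simp), Finsupp.mul_sum]
        exact Finsupp.sum_congr fun χ _ => by rw [smul_eq_mul]; ring
      rw [hP', hadd, hsm, hsum]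
      unfold Em
      rw [Finsupp.mul_sum, ← Finsupp.sum_add]
      refine Finsupp.sum_congr fun χ _ => ?_
      rw [mm_insert hg hj]
      push_cast
      ring
    rw [← hEm]
    refine ih P' fun y => ?_
    obtain ⟨c, hc, hc2⟩ := kernel_nonneg (g j) y hz hz2
    rw [hev, hc2, mul_comm, Complex.re_ofReal_mul]
    exact mul_nonneg hc (hP y)

end OpenConv3d0876
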